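import Mathlib
import Pool.Agent.N852.DD.Lim

/-!
Systems of multilinear equations: definitions.
-/

namespace Pool.Agent.N852.MM

set_option linter.unusedSectionVars false

open Matrix Module Filter Topology Function
open Pool.Agent.N852 (ic ic_add ic_sub ic_neg Cg)
open Pool.Agent.N852.DD (Bl mem_Bl card_Bl norm_ic_ge)

/-- Families of vectors. -/
abbrev Tup {V : Type} (n : V → ℕ) (R : Type*) : Type _ := ∀ v, Fin (n v) → R

/-- A system of `k` multilinear equations: the `i`-th form depends on the vectors `x v` with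
`v ∈ e i`, and is linear in each of them. -/
structure Sys {V : Type} (n : V → ℕ) (k : ℕ) where
  /-- the vectors which occur in the `i`-th form -/
  e : Fin k → Finset V
  /-- the coefficients -/
  T : ∀ i, (∀ v : e i, Fin (n v)) → ℤ

variable {V : Type} [DecidableEq V] {n : V → ℕ} {k : ℕ}

/-- The value of the `i`-th form. -/
def ev (F : Sys n k) {R : Type*} [CommRing R] (i : Fin k) (x : Tup n R) : R :=
  ∑ j : (∀ v : F.e i, Fin (n v)), (F.T i j : R) * ∏ v : F.e i, x v (j v)

/-- The partial derivative. -/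
def dd (F : Sys n k) {R : Type*} [CommRing R] (i : Fin k) (v : V) (x : Tup n R) : Fin (n v) → R :=
  fun l => ev F i (update x v (Pi.single l 1))

/-- The equations. -/
def Inc (F : Sys n k) {R : Type*} [CommRing R] (x : Tup n R) : Prop := ∀ i, ev F i x = 0

/-- The forms which depend on the vector `x v`. -/
abbrev Wi (F : Sys n k) (v : V) : Type := {i : Fin k // v ∈ F.e i}

/-- The coefficient vectors of the equations for `x v`. -/
def der (F : Sys n k) {R : Type*} [CommRing R] (v : V) (x : Tup n R) : Wi F v → Fin (n v) → R :=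
  fun i => dd F i.1 v x

/-- The equations which do not depend on `x v`. -/
def IncN (F : Sys n k) {R : Type*} [CommRing R] (v : V) (x : Tup n R) : Prop :=
  ∀ i, v ∉ F.e i → ev F i x = 0

/-- The number of equations for `x v`. -/
def dg (F : Sys n k) (v : V) : ℕ := Fintype.card (Wi F v)

variable {F : Sys n k} {R : Type*} [CommRing R]

theorem ev_update {i : Fin k} {v : V} (hv : v ∈ F.e i) (x : Tup n R) (z : Fin (n v) → R) :
    ev F i (update x v z) = dd F i v x ⬝ᵥ z := by
  classical
  have key : ∀ w : Fin (n v) → R, ev F i (update x v w) = ∑ j : (∀ u : F.e i, Fin (n u)),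
      (F.T i j : R) * (w (j ⟨v, hv⟩) *
        ∏ u ∈ (Finset.univ : Finset (F.e i)).erase ⟨v, hv⟩, x u (j u)) := by
    intro w
    unfold ev
    refine Finset.sum_congr rfl fun j _ => ?_
    rw [← Finset.mul_prod_erase Finset.univ _ (Finset.mem_univ (⟨v, hv⟩ : F.e i))]
    congr 2
    · simp
    · refine Finset.prod_congr rfl fun u hu => ?_
      rw [Finset.mem_erase] at hu
      have h1 : (u : V) ≠ v := fun h => hu.1 (Subtype.ext h)
      rw [update_of_ne h1]
  unfold dotProduct dd
  rw [key z]
  simp only [key, Finset.sum_mul]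
  rw [Finset.sum_comm]
  refine Finset.sum_congr rfl fun j _ => ?_
  rw [Finset.sum_eq_single (j ⟨v, hv⟩)]
  · rw [Pi.single_eq_same]
    ring
  · intro l _ hl
    rw [Pi.single_eq_of_ne (Ne.symm hl)]
    ring
  · intro h
    exact absurd (Finset.mem_univ _) h

theorem ev_congr {i : Fin k} {x y : Tup n R} (h : ∀ v ∈ F.e i, x v = y v) :
    ev F i x = ev F i y := by
  unfold ev
  refine Finset.sum_congr rfl fun j _ => ?_
  congr 1
  refine Finset.prod_congr rfl fun u _ => ?_
  rw [h u u.2]

theorem ev_update_not {i : Fin k} {v : V} (hv : v ∉ F.e i) (x : Tup n R) (z : Fin (n v) → R) :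
    ev F i (update x v z) = ev F i x := by
  apply ev_congr
  intro u hu
  rw [update_of_ne]
  rintro rfl
  exact hv hu

theorem dd_update (i : Fin k) (v : V) (x : Tup n R) (z : Fin (n v) → R) :
    dd F i v (update x v z) = dd F i v x := by
  unfold dd
  funext l
  rw [update_idem]

theorem der_update (v : V) (x : Tup n R) (z : Fin (n v) → R) :
    der F v (update x v z) = der F v x := by
  unfold der
  funext i
  rw [dd_update]

theorem ev_eq {i : Fin k} {v : V} (hv : v ∈ F.e i) (x : Tup n R) : ev F i x = dd F i v x ⬝ᵥ x v := by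
  conv_lhs => rw [← update_eq_self v x]
  exact ev_update hv x (x v)

theorem inc_iff (v : V) (x : Tup n R) : Inc F x ↔ IncN F v x ∧ ∀ i, der F v x i ⬝ᵥ x v = 0 := by
  constructor
  · intro h
    refine ⟨fun i _ => h i, fun i => ?_⟩
    have := h i.1
    rwa [ev_eq i.2] at this
  · rintro ⟨h1, h2⟩ i
    by_cases hi : v ∈ F.e i
    · rw [ev_eq hi]
      exact h2 ⟨i, hi⟩
    · exact h1 i hi

theorem incN_update (v : V) (x : Tup n R) (z : Fin (n v) → R) :
    IncN F v (update x v z) ↔ IncN F v x := by
  unfold IncN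
  refine forall_congr' fun i => forall_congr' fun hi => ?_
  rw [ev_update_not hi]

theorem inc_update_iff (v : V) (x : Tup n R) (z : Fin (n v) → R) :
    Inc F (update x v z) ↔ IncN F v x ∧ ∀ i, der F v x i ⬝ᵥ z = 0 := by
  rw [inc_iff v, incN_update, der_update, update_self]

/-! ### Scaling -/

/-- The product of the factors of the vectors which occur in the `i`-th form. -/
theorem ev_smul (i : Fin k) (c : V → R) (x : Tup n R) :
    ev F i (fun v => c v • x v) = (∏ v ∈ F.e i, c v) * ev F i x := by
  unfold ev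
  rw [Finset.mul_sum]
  refine Finset.sum_congr rfl fun j _ => ?_
  have h1 : ∏ v : F.e i, (c v • x v) (j v) = (∏ v : F.e i, c v) * ∏ v : F.e i, x v (j v) := by
    rw [← Finset.prod_mul_distrib]
    rfl
  rw [h1, Finset.prod_coe_sort (F.e i) c]
  ring

theorem dd_smul (i : Fin k) {v : V} (hv : v ∈ F.e i) (c : V → R) (x : Tup n R) :
    dd F i v (fun u => c u • x u) = (∏ u ∈ (F.e i).erase v, c u) • dd F i v x := by
  classical
  funext l
  unfold dd
  have h1 : update (fun u => c u • x u) v (Pi.single l 1) =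
      fun u => (update c v 1 u) • (update x v (Pi.single l 1) u) := by
    funext u
    by_cases hu : u = v
    · subst hu
      simp
    · rw [update_of_ne hu, update_of_ne hu, update_of_ne hu]
  rw [h1, ev_smul, Pi.smul_apply, smul_eq_mul]
  congr 1
  rw [← Finset.mul_prod_erase _ _ hv, update_self, one_mul]
  refine Finset.prod_congr rfl fun u hu => ?_
  rw [update_of_ne (Finset.ne_of_mem_erase hu)]

theorem inc_smul {x : Tup n R} (h : Inc F x) (c : V → R) : Inc F fun v => c v • x v := by
  intro i
  rw [ev_smul, h i, mul_zero]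

theorem inc_smul_iff {K : Type*} [Field K] {x : Tup n K} {c : V → K} (hc : ∀ v, c v ≠ 0) :
    (Inc F fun v => c v • x v) ↔ Inc F x := by
  unfold Inc
  refine forall_congr' fun i => ?_
  rw [ev_smul, mul_eq_zero]
  constructor
  · intro h
    exact h.resolve_left (Finset.prod_ne_zero_iff.2 fun v _ => hc v)
  · intro h
    exact Or.inr h

/-! ### Change of rings -/

theorem ev_map {S : Type*} [CommRing S] (f : R →+* S) (i : Fin k) (x : Tup n R) :
    ev F i (fun v l => f (x v l)) = f (ev F i x) := by
  unfold ev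
  rw [map_sum]
  refine Finset.sum_congr rfl fun j _ => ?_
  rw [map_mul, map_prod, map_intCast]

theorem dd_map {S : Type*} [CommRing S] (f : R →+* S) (i : Fin k) (v : V) (x : Tup n R) :
    dd F i v (fun v l => f (x v l)) = fun l => f (dd F i v x l) := by
  funext l
  unfold dd
  rw [← ev_map]
  congr 1
  funext u
  by_cases hu : u = v
  · subst hu
    rw [update_self, update_self]
    funext l'
    by_cases hl : l' = l
    · subst hl
      simp
    · simp [hl]
  · rw [update_of_ne hu, update_of_ne hu]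

/-- The real family. -/
def iT (x : Tup n ℤ) : Tup n ℝ := fun v => ic (x v)

theorem ev_iT (i : Fin k) (x : Tup n ℤ) : ev F i (iT x) = ((ev F i x : ℤ) : ℝ) :=
  ev_map (Int.castRingHom ℝ) i x

theorem dd_iT (i : Fin k) (v : V) (x : Tup n ℤ) : dd F i v (iT x) = ic (dd F i v x) :=
  dd_map (Int.castRingHom ℝ) i v x

theorem inc_iT {x : Tup n ℤ} : Inc F (iT x) ↔ Inc F x := by
  unfold Inc
  refine forall_congr' fun i => ?_
  rw [ev_iT]
  exact_mod_cast Iff.rfl

theorem incN_iT {v : V} {x : Tup n ℤ} : IncN F v (iT x) ↔ IncN F v x := by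
  unfold IncN
  refine forall_congr' fun i => forall_congr' fun _ => ?_
  rw [ev_iT]
  exact_mod_cast Iff.rfl

theorem iT_update (x : Tup n ℤ) (v : V) (z : Fin (n v) → ℤ) :
    iT (update x v z) = update (iT x) v (ic z) := by
  funext u
  by_cases hu : u = v
  · subst hu
    simp [iT]
  · simp [iT, update_of_ne hu]

/-! ### Boxes -/

variable [Fintype V]

/-- The families of integer vectors with `‖x v‖ ≤ X v`. -/
noncomputable def Bx (n : V → ℕ) (X : V → ℝ) : Finset (Tup n ℤ) :=
  Fintype.piFinset fun v => Bl (n v) (X v)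

theorem mem_Bx {X : V → ℝ} (hX : ∀ v, 0 ≤ X v) {x : Tup n ℤ} :
    x ∈ Bx n X ↔ ∀ v, ‖ic (x v)‖ ≤ X v := by
  unfold Bx
  rw [Fintype.mem_piFinset]
  exact forall_congr' fun v => mem_Bl (hX v)

theorem card_Bx {X : V → ℝ} (hX : ∀ v, 1 ≤ X v) : ((Bx n X).card : ℝ) ≤ ∏ v, (3 * X v) ^ n v := by
  unfold Bx
  rw [Fintype.card_piFinset]
  push_cast
  exact Finset.prod_le_prod (fun _ _ => Nat.cast_nonneg _) fun v _ => card_Bl (hX v)

/-- The norming factor. -/
noncomputable def Nm (a : V → ℕ) (X : V → ℝ) : ℝ := ∏ v, X v ^ a v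

theorem Nm_pos {a : V → ℕ} {X : V → ℝ} (hX : ∀ v, 0 < X v) : 0 < Nm a X :=
  Finset.prod_pos fun v _ => pow_pos (hX v) _

theorem Nm_update (a : V → ℕ) (X : V → ℝ) (v : V) (ρ : ℝ) :
    Nm a (update X v ρ) * X v ^ a v = Nm a X * ρ ^ a v := by
  unfold Nm
  rw [← Finset.mul_prod_erase Finset.univ _ (Finset.mem_univ v),
    ← Finset.mul_prod_erase Finset.univ (fun u => X u ^ a u) (Finset.mem_univ v), update_self]
  have h : ∏ u ∈ Finset.univ.erase v, update X v ρ u ^ a u = ∏ u ∈ Finset.univ.erase v, X u ^ a u :=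
    Finset.prod_congr rfl fun u hu => by rw [update_of_ne (Finset.ne_of_mem_erase hu)]
  rw [h]
  ring

theorem Nm_mul (a : V → ℕ) (X Y : V → ℝ) : Nm a (fun v => X v * Y v) = Nm a X * Nm a Y := by
  unfold Nm
  rw [← Finset.prod_mul_distrib]
  exact Finset.prod_congr rfl fun v _ => mul_pow _ _ _

end Pool.Agent.N852.MM
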