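import Mathlib
import Pool.Agent.N852.MM.Def

/-!
Systems of multilinear equations: the counting problem.
-/

namespace Pool.Agent.N852.MM

set_option linter.unusedSectionVars false

open Matrix Module Filter Topology Function
open Pool.Agent.N852 (ic ic_add ic_sub ic_neg Cg)
open Pool.Agent.N852.DD (Bl mem_Bl card_Bl norm_ic_ge Bl_mono zero_mem_Bl dbl)
open Pool.Agent.H548.BL (lat orth mem_lat mem_orth rc sep_card)

variable {V : Type} [DecidableEq V] {n : V → ℕ} {k : ℕ}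

/-- There is a vector which makes the family good. -/
def Ex (G : V → Tup n ℤ → Prop) (v : V) (x : Tup n ℤ) : Prop := ∃ z, ∀ u, G u (update x v z)

theorem ex_update {G : V → Tup n ℤ → Prop} (v : V) (x : Tup n ℤ) (z : Fin (n v) → ℤ) :
    Ex G v (update x v z) ↔ Ex G v x := by
  unfold Ex
  simp only [update_idem]

theorem ex_of_good {G : V → Tup n ℤ → Prop} (v : V) {x : Tup n ℤ} (h : ∀ u, G u x) : Ex G v x :=
  ⟨x v, by rwa [update_eq_self]⟩

variable [Fintype V]

open Classical in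
/-- The good solutions in a box. -/
noncomputable def UX (F : Sys n k) (G : V → Tup n ℤ → Prop) (X : V → ℝ) : Finset (Tup n ℤ) :=
  (Bx n X).filter fun x => Inc F x ∧ ∀ u, G u x

open Classical in
/-- The solutions in a box which are good for the vector `v` and can be made good. -/
noncomputable def TX (F : Sys n k) (G : V → Tup n ℤ → Prop) (v : V) (X : V → ℝ) :
    Finset (Tup n ℤ) :=
  (Bx n X).filter fun x => Inc F x ∧ G v x ∧ Ex G v x

open Classical in
/-- The bases of the fibres. -/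
noncomputable def BX (F : Sys n k) (G : V → Tup n ℤ → Prop) (v : V) (X : V → ℝ) :
    Finset (Tup n ℤ) :=
  (Bx n (update X v 0)).filter fun x => IncN F v x ∧ G v x ∧ Ex G v x

open Classical in
/-- The points of a fibre. -/
noncomputable def FX (F : Sys n k) (v : V) (y : Tup n ℤ) (B : ℝ) : Finset (Fin (n v) → ℤ) :=
  (Bl (n v) B).filter fun z => z ∈ lat (der F v y)

/-- The hypotheses on the system and the notion of a good family. -/
structure Eng (F : Sys n k) (G : V → Tup n ℤ → Prop) (a : V → ℕ) (D : ℕ) : Prop where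
  adef : ∀ v, a v + dg F v = n v
  two : ∀ v, 2 ≤ a v
  upd : ∀ v x z, G v (update x v z) ↔ G v x
  scal : ∀ v x (c : V → ℤ), (∀ u, c u ≠ 0) → (G v (fun u => c u • x u) ↔ G v x)
  ne : ∀ x, (∀ u, G u x) → ∀ v, x v ≠ 0
  ind : ∀ v x, G v x → LinearIndependent ℝ (der F v (iT x))
  deg : ∃ C : ℝ, 0 ≤ C ∧ ∀ (v : V) (X : V → ℝ) (g : ℝ), (∀ u, 1 ≤ X u) → 1 ≤ g →
    (∀ u, X u ≤ g * X v) → ((TX F G v X \ UX F G X).card : ℝ) ≤ C * Nm a X * (g ^ D / X v)
  low : ∃ c K₀ : ℝ, 0 < c ∧ 1 ≤ K₀ ∧ ∀ K : ℝ, K₀ ≤ K →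
    c * Nm a (fun _ : V => K) ≤ ((UX F G fun _ => K).card : ℝ)

variable {F : Sys n k} {G : V → Tup n ℤ → Prop} {a : V → ℕ} {D : ℕ}

theorem mem_UX {X : V → ℝ} (hX : ∀ v, 0 ≤ X v) {x : Tup n ℤ} :
    x ∈ UX F G X ↔ (∀ v, ‖ic (x v)‖ ≤ X v) ∧ Inc F x ∧ ∀ u, G u x := by
  classical
  unfold UX
  rw [Finset.mem_filter, mem_Bx hX]

theorem mem_TX {v : V} {X : V → ℝ} (hX : ∀ v, 0 ≤ X v) {x : Tup n ℤ} :
    x ∈ TX F G v X ↔ (∀ v, ‖ic (x v)‖ ≤ X v) ∧ Inc F x ∧ G v x ∧ Ex G v x := by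
  classical
  unfold TX
  rw [Finset.mem_filter, mem_Bx hX]

theorem update_nonneg {X : V → ℝ} (hX : ∀ v, 0 ≤ X v) (v : V) {ρ : ℝ} (hρ : 0 ≤ ρ) (u : V) :
    0 ≤ update X v ρ u := by
  by_cases h : u = v
  · subst h
    rwa [update_self]
  · rw [update_of_ne h]
    exact hX u

theorem norm_ic_zero {N : ℕ} {x : Fin N → ℤ} (h : ‖ic x‖ ≤ 0) : x = 0 := by
  by_contra hx
  have := norm_ic_ge hx
  linarith

theorem ic_zero {N : ℕ} : ic (0 : Fin N → ℤ) = 0 := by
  funext l
  simp [ic]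

theorem mem_BX {v : V} {X : V → ℝ} (hX : ∀ v, 0 ≤ X v) {x : Tup n ℤ} :
    x ∈ BX F G v X ↔ (∀ u, u ≠ v → ‖ic (x u)‖ ≤ X u) ∧ x v = 0 ∧ IncN F v x ∧ G v x ∧ Ex G v x := by
  classical
  unfold BX
  rw [Finset.mem_filter, mem_Bx (update_nonneg hX v le_rfl)]
  constructor
  · rintro ⟨h1, h2⟩
    refine ⟨fun u hu => ?_, ?_, h2⟩
    · have := h1 u
      rwa [update_of_ne hu] at this
    · have := h1 v
      rw [update_self] at this
      exact norm_ic_zero this
  · rintro ⟨h1, h2, h3⟩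
    refine ⟨fun u => ?_, h3⟩
    by_cases hu : u = v
    · subst hu
      rw [update_self, h2, ic_zero, norm_zero]
    · rw [update_of_ne hu]
      exact h1 u hu

theorem mem_FX {v : V} {y : Tup n ℤ} {B : ℝ} (hB : 0 ≤ B) {z : Fin (n v) → ℤ} :
    z ∈ FX F v y B ↔ ‖ic z‖ ≤ B ∧ z ∈ lat (der F v y) := by
  classical
  unfold FX
  rw [Finset.mem_filter, mem_Bl hB]

theorem BX_congr {v : V} {X Y : V → ℝ} (h : ∀ u, u ≠ v → X u = Y u) :
    BX F G v X = BX F G v Y := by
  unfold BX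
  have : update X v 0 = update Y v 0 := by
    funext u
    by_cases hu : u = v
    · subst hu
      rw [update_self, update_self]
    · rw [update_of_ne hu, update_of_ne hu, h u hu]
  rw [this]

theorem BX_update (v : V) (X : V → ℝ) (ρ : ℝ) : BX F G v (update X v ρ) = BX F G v X :=
  BX_congr fun u hu => by rw [update_of_ne hu]

/-- **The sum over the fibres.** -/
theorem sum_TX (hE : ∀ v x z, G v (update x v z) ↔ G v x) {M : Type*} [AddCommMonoid M] (v : V)
    {X : V → ℝ} (hX : ∀ v, 0 ≤ X v)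
    (f : Tup n ℤ → M) : ∑ x ∈ TX F G v X, f x =
      ∑ y ∈ BX F G v X, ∑ z ∈ FX F v y (X v), f (update y v z) := by
  classical
  rw [Finset.sum_sigma']
  refine Finset.sum_bij' (fun x _ => ⟨update x v 0, x v⟩) (fun p _ => update p.1 v p.2) ?_ ?_ ?_ ?_ ?_
  · intro x hx
    rw [mem_TX hX] at hx
    obtain ⟨h1, h2, h3, h4⟩ := hx
    rw [inc_iff v] at h2
    rw [Finset.mem_sigma, mem_BX hX, mem_FX (hX v)]
    simp only
    refine ⟨⟨fun u hu => ?_, update_self _ _ _, (incN_update _ _ _).2 h2.1, (hE _ _ _).2 h3,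
      (ex_update _ _ _).2 h4⟩, h1 v, ?_⟩
    · rw [update_of_ne hu]
      exact h1 u
    · rw [mem_lat, der_update]
      exact h2.2
  · rintro ⟨y, z⟩ hp
    rw [Finset.mem_sigma, mem_BX hX, mem_FX (hX v)] at hp
    simp only at hp
    obtain ⟨⟨h1, h2, h3, h4, h5⟩, h6, h7⟩ := hp
    rw [mem_TX hX]
    refine ⟨fun u => ?_, (inc_update_iff _ _ _).2 ⟨h3, h7⟩, (hE _ _ _).2 h4, (ex_update _ _ _).2 h5⟩
    by_cases hu : u = v
    · subst hu
      simp only [update_self]
      exact h6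
    · simp only [update_of_ne hu]
      exact h1 u hu
  · intro x _
    simp
  · rintro ⟨y, z⟩ hp
    rw [Finset.mem_sigma, mem_BX hX] at hp
    simp only at hp
    have h2 := hp.1.2.1
    have h3 : update (update y v z) v 0 = y := by
      rw [update_idem, ← h2, update_eq_self]
    simp only [h3, update_self]
  · intro x _
    simp

theorem card_TX (hE : ∀ v x z, G v (update x v z) ↔ G v x) (v : V) {X : V → ℝ}
    (hX : ∀ v, 0 ≤ X v) : (TX F G v X).card = ∑ y ∈ BX F G v X, (FX F v y (X v)).card := by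
  have h1 := sum_TX (F := F) hE v hX fun _ => (1 : ℕ)
  rw [← Finset.card_eq_sum_ones] at h1
  rw [h1]
  exact Finset.sum_congr rfl fun y _ => (Finset.card_eq_sum_ones _).symm

theorem UX_sub_TX (v : V) {X : V → ℝ} : UX F G X ⊆ TX F G v X := by
  classical
  intro x hx
  unfold UX at hx
  unfold TX
  rw [Finset.mem_filter] at hx ⊢
  exact ⟨hx.1, hx.2.1, hx.2.2 v, ex_of_good v hx.2.2⟩

theorem UX_mono {X Y : V → ℝ} (hX : ∀ v, 0 ≤ X v) (h : ∀ v, X v ≤ Y v) : UX F G X ⊆ UX F G Y := by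
  intro x hx
  rw [mem_UX hX] at hx
  rw [mem_UX fun v => (hX v).trans (h v)]
  exact ⟨fun v => (hx.1 v).trans (h v), hx.2⟩

theorem BX_mono {v : V} {X Y : V → ℝ} (hX : ∀ v, 0 ≤ X v) (h : ∀ v, X v ≤ Y v) :
    BX F G v X ⊆ BX F G v Y := by
  intro x hx
  rw [mem_BX hX] at hx
  rw [mem_BX fun v => (hX v).trans (h v)]
  exact ⟨fun u hu => (hx.1 u hu).trans (h u), hx.2⟩

theorem FX_mono {v : V} {y : Tup n ℤ} {B C : ℝ} (hB : 0 ≤ B) (h : B ≤ C) :
    FX F v y B ⊆ FX F v y C := by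
  intro z hz
  rw [mem_FX hB] at hz
  rw [mem_FX (hB.trans h)]
  exact ⟨hz.1.trans h, hz.2⟩

/-- The equations in the real fibre. -/
theorem mem_orth_der {v : V} {y : Tup n ℤ} {Z : Fin (n v) → ℝ} :
    Z ∈ orth (der F v y) ↔ ∀ i, der F v (iT y) i ⬝ᵥ Z = 0 := by
  rw [mem_orth]
  refine forall_congr' fun i => ?_
  have h : der F v (iT y) i = rc (der F v y i) := dd_iT i.1 v y
  rw [h]

theorem ic_mem_orth {v : V} {y : Tup n ℤ} {z : Fin (n v) → ℤ} (hz : z ∈ lat (der F v y)) :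
    ic z ∈ orth (der F v y) := by
  rw [mem_orth]
  intro i
  have := Pool.Agent.H548.BL.rc_dot (der F v y i) z
  rw [mem_lat.1 hz i, Int.cast_zero] at this
  exact this

/-- The dimension of the real fibre. -/
theorem finrank_orth_der {v : V} {y : Tup n ℤ} (h : LinearIndependent ℝ (der F v (iT y))) {b : ℕ}
    (hb : b + dg F v = n v) : finrank ℝ (orth (der F v y)) = b := by
  have h0 : der F v (iT y) = fun i => rc (der F v y i) := by
    funext i
    exact dd_iT i.1 v y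
  rw [h0] at h
  have h2 : (Matrix.of fun i => rc (der F v y i)).rank = Fintype.card (Wi F v) :=
    LinearIndependent.rank_matrix h
  have h3 := LinearMap.finrank_range_add_finrank_ker
    (Matrix.mulVecLin (Matrix.of fun i => rc (der F v y i)))
  rw [finrank_fintype_fun_eq_card, Fintype.card_fin] at h3
  have h4 : finrank ℝ (LinearMap.range (Matrix.mulVecLin (Matrix.of fun i => rc (der F v y i)))) =
      Fintype.card (Wi F v) := h2
  unfold orth
  unfold dg at hb
  omega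

/-- Comparison of the fibres. -/
theorem FX_dbl {v : V} {y : Tup n ℤ} {b : ℕ} (hb : finrank ℝ (orth (der F v y)) ≤ b) {ρ B : ℝ}
    (hρ : 0 < ρ) (hB : ρ ≤ B) :
    ((FX F v y B).card : ℝ) ≤ (3 * B / ρ) ^ b * ((FX F v y ρ).card : ℝ) := by
  classical
  exact dbl (lat (der F v y)) (orth (der F v y)) hb (fun z hz => ic_mem_orth hz) hρ hB

theorem Eng.fin (hE : Eng F G a D) {v : V} {y : Tup n ℤ} (h : G v y) :
    finrank ℝ (orth (der F v y)) = a v :=
  finrank_orth_der (hE.ind v y h) (hE.adef v)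

end Pool.Agent.N852.MM
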