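import Mathlib
import Pool.Agent.N852.MM.Eng

/-!
Project MM: the statements of the parts.
-/

namespace Pool.Agent.N852.MM

set_option linter.unusedSectionVars false

open Matrix Module Filter Topology Function
open Pool.Agent.N852 (ic)

/-- MM/A: nets and cells. -/
def CellP : Prop := ∀ (I : Type) [Fintype I], ∃ C : ℝ, 1 ≤ C ∧
  ∀ (β : Type) (Z : Finset β) (S : β → Submodule ℝ (EuclideanSpace ℝ I)) (μ Q : ℝ),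
    1 ≤ μ → 0 ≤ Q → (∀ b ∈ Z, 1 ≤ finrank ℝ (S b)) →
    (∀ (s₀ : EuclideanSpace ℝ I) (Y : Finset β), 1 ≤ ‖s₀‖ → ‖s₀‖ ≤ 3 * Fintype.card I →
      (∀ b ∈ Y, b ∈ Z ∧ ∃ s ∈ S b, 1 ≤ ‖s‖ ∧ ‖s‖ ≤ 3 * Fintype.card I ∧ ‖s - s₀‖ ≤ 1 / μ) →
      (Y.card : ℝ) ≤ Q) →
    ∑ b ∈ Z, μ ^ finrank ℝ (S b) ≤ C * μ ^ Fintype.card I * Q

/-- MM/B: integer vectors whose differences are mapped close to a subspace. -/
def CntP : Prop := ∀ (N M R : ℕ) (c A : ℝ), 0 < c → 0 ≤ A → ∃ C : ℝ, 1 ≤ C ∧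
  ∀ (B : (Fin N → ℝ) →ₗ[ℝ] (Fin M → ℝ)) (W : Submodule ℝ (Fin M → ℝ))
    (P : Submodule ℝ (Fin N → ℝ)) (w : ℕ),
    (∀ z, ‖B z‖ ≤ A * ‖z‖) → finrank ℝ P = R → (∀ p ∈ P, c * ‖p‖ ≤ ‖B p‖) →
    finrank ℝ W ≤ w → w ≤ R →
    ∀ (μ : ℝ) (Z : Finset (Fin N → ℤ)), 1 ≤ μ → (∀ z ∈ Z, ‖ic z‖ ≤ μ) →
      (∀ z ∈ Z, ∀ z' ∈ Z, ∃ y ∈ W, ‖B (ic z - ic z') - y‖ ≤ A) →
      (Z.card : ℝ) ≤ C * μ ^ (N - (R - w))

/-- MM/C: linear maps of rank at least `R` which depend on a parameter in a compact set. -/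
def CptP : Prop := ∀ (X : Type) [TopologicalSpace X] (K : Set X) (N M R : ℕ)
  (f : X → (Fin N → ℝ) →L[ℝ] (Fin M → ℝ)), IsCompact K → ContinuousOn f K →
  (∀ x ∈ K, R ≤ finrank ℝ (LinearMap.range (f x : (Fin N → ℝ) →ₗ[ℝ] (Fin M → ℝ)))) →
  ∃ c : ℝ, 0 < c ∧ ∀ x ∈ K, ∃ P : Submodule ℝ (Fin N → ℝ), finrank ℝ P = R ∧
    ∀ p ∈ P, c * ‖p‖ ≤ ‖f x p‖

/-- MM/F: the number of integer points of a simplex. -/
def SimP : Prop := ∀ (ι : Type) [Fintype ι] (a : ι → ℕ), (∀ i, 1 ≤ a i) →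
  ∃ l : ℝ, 0 < l ∧ Tendsto (fun Y : ℝ =>
    (({i : ι → ℕ | ∑ v, (a v : ℝ) * i v ≤ Y} : Set (ι → ℕ)).ncard : ℝ) / Y ^ Fintype.card ι)
    atTop (𝓝 l)

variable {V : Type} [DecidableEq V] {n : V → ℕ} {k : ℕ}

/-- The rank condition: for `u ≠ v`, every nontrivial real linear combination of the forms which
depend on `x u` and `x v` is a bilinear form in `x u`, `x v` of rank larger than `D`, whatever
nonzero real vectors are inserted for the other variables. -/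
def RC (F : Sys n k) (D : ℕ) : Prop :=
  ∀ u v : V, u ≠ v → ∀ s : Fin k → ℝ, (∀ i, s i ≠ 0 → u ∈ F.e i ∧ v ∈ F.e i) → s ≠ 0 →
    ∀ x : Tup n ℝ, (∀ t, t ≠ u → t ≠ v → x t ≠ 0) →
    D < (Matrix.of fun (b : Fin (n v)) (c : Fin (n u)) => ∑ i, s i *
      ev F i (update (update x v (Pi.single b 1)) u (Pi.single c 1))).rank

/-- The good families. -/
def GI (F : Sys n k) (v : V) (x : Tup n ℤ) : Prop := LinearIndependent ℝ (der F v (iT x))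

/-- MM/D: the bound for the bad families. -/
def DegP : Prop := ∀ (V : Type) [Fintype V] [DecidableEq V] (n : V → ℕ) (k : ℕ) (F : Sys n k)
  (a : V → ℕ) (D : ℕ), (∀ i, 2 ≤ (F.e i).card) → (∀ v, ∃ i, v ∈ F.e i) →
  (∀ v, a v + dg F v = n v) → D = ∑ i, (F.e i).card → RC F D →
  ∃ C : ℝ, 0 ≤ C ∧ ∀ (v : V) (X : V → ℝ) (g : ℝ), (∀ u, 1 ≤ X u) → 1 ≤ g →
    (∀ u, X u ≤ g * X v) →
    ((TX F (GI F) v X \ UX F (GI F) X).card : ℝ) ≤ C * Nm a X * (g ^ D / X v)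

/-- MM/E: the lower bound. -/
def LowP : Prop := ∀ (V : Type) [Fintype V] [DecidableEq V] (n : V → ℕ) (k : ℕ) (F : Sys n k)
  (a : V → ℕ) (D : ℕ), (∀ i, 2 ≤ (F.e i).card) → (∀ v, ∃ i, v ∈ F.e i) →
  (∀ v, a v + dg F v = n v) → D = ∑ i, (F.e i).card → RC F D →
  ∃ c K₀ : ℝ, 0 < c ∧ 1 ≤ K₀ ∧ ∀ K : ℝ, K₀ ≤ K →
    c * Nm a (fun _ : V => K) ≤ ((UX F (GI F) fun _ => K).card : ℝ)

end Pool.Agent.N852.MM
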