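import Mathlib
import Pool.Agent.N852.Conv

/-!
A convergence criterion with powers of the logarithm.
-/

namespace Pool.Agent.N852.MM

open Filter Topology
open Pool.Agent.N852 (tendsto_of_interval bern)

/-- **The convergence criterion.** -/
theorem conv_crit (r d : ℕ) (f : ℝ → ℝ) (hf : ∀ T, 0 ≤ f T)
    (h : ∀ ε : ℝ, 0 < ε → ∃ (l : ℝ) (S : ℝ → ℝ) (c : ℝ), 1 ≤ l ∧ l ≤ 1 + ε ∧
      Tendsto (fun T => S T / (T ^ r * Real.log T ^ d)) atTop (𝓝 c) ∧
      ∀ᶠ T in atTop, f T ≤ S T ∧ S T ≤ f (l * T) + ε * (T ^ r * Real.log T ^ d)) :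
    ∃ c : ℝ, Tendsto (fun T => f T / (T ^ r * Real.log T ^ d)) atTop (𝓝 c) := by
  set g : ℝ → ℝ := fun T => T ^ r * Real.log T ^ d with hg
  have hgpos : ∀ T : ℝ, 1 < T → 0 < g T := fun T hT => by
    have : 0 < Real.log T := Real.log_pos hT
    have : 0 < T := by linarith
    simp only [hg]
    positivity
  -- an upper bound
  obtain ⟨D, hD0, hD⟩ : ∃ D : ℝ, 0 < D ∧ ∀ᶠ T in atTop, f T ≤ D * g T := by
    obtain ⟨l, S, c, h1, h2, h3, h4⟩ := h 1 one_pos
    refine ⟨|c| + 1, by positivity, ?_⟩
    have h5 := h3.eventually (ge_mem_nhds (by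
      have := le_abs_self c
      linarith : c < |c| + 1))
    filter_upwards [h4, h5, eventually_gt_atTop 1] with T h6 h7 h8
    rw [div_le_iff₀ (hgpos T h8)] at h7
    exact h6.1.trans h7
  apply tendsto_of_interval
  intro ε' hε'
  obtain ⟨s, hs⟩ : ∃ s : ℝ, s = (r : ℝ) + d + 1 := ⟨_, rfl⟩
  have hs1 : 1 ≤ s := by
    rw [hs]
    have : (0 : ℝ) ≤ r := Nat.cast_nonneg r
    have : (0 : ℝ) ≤ d := Nat.cast_nonneg d
    linarith
  have hs0 : 0 < s := by linarith
  set D₂ : ℝ := D * 2 ^ (r + d) + 1 with hD2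
  have hD20 : 0 < D₂ := by positivity
  set W : ℝ := 3 + D₂ * s with hW
  have hW0 : 0 < W := by positivity
  obtain ⟨ε, hε⟩ : ∃ ε : ℝ, ε = min (min (1 : ℝ) (1 / s)) (ε' / W) := ⟨_, rfl⟩
  have hε0 : 0 < ε := by rw [hε]; positivity
  have hε1 : ε ≤ 1 := by rw [hε]; exact (min_le_left _ _).trans (min_le_left _ _)
  have hε2 : ε * s ≤ 1 := by
    rw [← le_div_iff₀ hs0, hε]
    exact (min_le_left _ _).trans (min_le_right _ _)
  have hε3 : W * ε ≤ ε' := by
    rw [mul_comm, ← le_div_iff₀ hW0, hε]
    exact min_le_right _ _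
  obtain ⟨l, S, c, hl1, hl2, hlim, hev⟩ := h ε hε0
  have hl0 : 0 < l := by linarith
  have hl3 : l ≤ 2 := by linarith
  -- `c ≤ D₂`
  have hscale : Tendsto (fun T : ℝ => l * T) atTop atTop := Tendsto.const_mul_atTop hl0 tendsto_id
  have hscale' : Tendsto (fun T : ℝ => T / l) atTop atTop := Tendsto.atTop_div_const hl0 tendsto_id
  have hcD : c ≤ D₂ := by
    apply le_of_tendsto hlim
    filter_upwards [hev, hscale.eventually hD, eventually_ge_atTop 2] with T h1 h2 h3
    have hT1 : 1 < T := by linarith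
    have hT0 : 0 < T := by linarith
    have hgT := hgpos T hT1
    change S T / g T ≤ D₂
    rw [div_le_iff₀ hgT]
    have h4 : g (l * T) ≤ 2 ^ (r + d) * g T := by
      simp only [hg]
      have h5 : Real.log (l * T) ≤ 2 * Real.log T := by
        rw [Real.log_mul hl0.ne' hT0.ne']
        have : Real.log l ≤ Real.log T := Real.log_le_log hl0 (by linarith)
        linarith
      have h6 : 0 ≤ Real.log (l * T) := Real.log_nonneg (by nlinarith)
      calc (l * T) ^ r * Real.log (l * T) ^ d ≤ (2 * T) ^ r * (2 * Real.log T) ^ d := by gcongr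
        _ = _ := by rw [mul_pow, mul_pow, pow_add]; ring
    calc S T ≤ f (l * T) + ε * g T := h1.2
      _ ≤ D * g (l * T) + 1 * g T := by gcongr
      _ ≤ D * (2 ^ (r + d) * g T) + 1 * g T := by gcongr
      _ = D₂ * g T := by rw [hD2]; ring
  have hc0 : -ε ≤ c := by
    apply ge_of_tendsto hlim
    filter_upwards [hev, eventually_ge_atTop 2] with T h1 h3
    have hgT := hgpos T (by linarith)
    change -ε ≤ S T / g T
    have : 0 ≤ S T / g T := div_nonneg ((hf T).trans h1.1) hgT.le
    linarith
  refine ⟨max 0 ((c - 2 * ε) * (1 - s * ε)), c + ε, ?_, ?_⟩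
  · have h1 : (c - 2 * ε) * (1 - s * ε) ≤ max 0 ((c - 2 * ε) * (1 - s * ε)) :=
      le_max_right _ _
    have h2 : s * ε * c ≤ s * ε * D₂ := by gcongr
    have h3 : 0 ≤ ε * (s * ε) := by positivity
    nlinarith
  · have h1 := hlim.eventually (ge_mem_nhds (by linarith : c < c + ε))
    have h2 := hscale'.eventually (hlim.eventually (le_mem_nhds (by linarith : c - ε < c)))
    -- log ratio
    have h3 : ∀ᶠ T : ℝ in atTop, Real.log l ≤ ε * Real.log T := by
      have h4 : Tendsto (fun T : ℝ => ε * Real.log T) atTop atTop :=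
        Tendsto.const_mul_atTop hε0 Real.tendsto_log_atTop
      exact h4.eventually (eventually_ge_atTop _)
    filter_upwards [h1, h2, h3, hev, hscale'.eventually hev, eventually_gt_atTop 2] with
      T h4 h5 h6 h7 h8 h9
    have hT0 : 0 < T := by linarith
    have hgT := hgpos T (by linarith)
    have hTl : 1 < T / l := by
      rw [lt_div_iff₀ hl0]
      linarith
    have hgTl := hgpos (T / l) hTl
    rw [mul_div_cancel₀ _ hl0.ne'] at h8
    change c - ε ≤ S (T / l) / g (T / l) at h5
    change S T / g T ≤ c + ε at h4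
    rw [le_div_iff₀ hgTl] at h5
    rw [div_le_iff₀ hgT] at h4
    have h8' : S (T / l) ≤ f T + ε * g (T / l) := h8.2
    constructor
    · apply max_le (div_nonneg (hf T) hgT.le)
      rw [le_div_iff₀ hgT]
      rcases le_or_gt (c - 2 * ε) 0 with h10 | h10
      · refine le_trans ?_ (hf T)
        have h11 : 0 ≤ 1 - s * ε := by nlinarith
        have h12 : (c - 2 * ε) * (1 - s * ε) ≤ 0 := mul_nonpos_of_nonpos_of_nonneg h10 h11
        exact mul_nonpos_of_nonpos_of_nonneg h12 hgT.le
      · have h11 : (1 - s * ε) * g T ≤ g (T / l) := by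
          simp only [hg]
          rw [Real.log_div hT0.ne' hl0.ne', div_pow]
          have h12 : (1 - ε) * Real.log T ≤ Real.log T - Real.log l := by linarith
          have h13 : 1 - r * ε ≤ (l ^ r)⁻¹ := by
            refine (bern r hε0.le).trans ?_
            apply inv_anti₀ (by positivity)
            gcongr
          have h14 : 0 < Real.log T := Real.log_pos (by linarith)
          have h15 : (0 : ℝ) ≤ r := Nat.cast_nonneg r
          have h15' : (0 : ℝ) ≤ d := Nat.cast_nonneg d
          have h16 : 0 ≤ 1 - r * ε := by nlinarith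
          have h17 : 0 ≤ 1 - ε := by linarith
          have h18 : 1 - d * ε ≤ (1 - ε) ^ d := by
            have := one_add_mul_le_pow (a := -ε) (by linarith) d
            have e1 : 1 + -ε = 1 - ε := by ring
            rw [e1] at this
            linarith
          have h19 : (1 - d * ε) * Real.log T ^ d ≤ (Real.log T - Real.log l) ^ d := by
            calc (1 - d * ε) * Real.log T ^ d ≤ (1 - ε) ^ d * Real.log T ^ d := by gcongr
              _ = ((1 - ε) * Real.log T) ^ d := (mul_pow _ _ _).symm
              _ ≤ _ := by gcongr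
          have h20 : 0 ≤ (Real.log T - Real.log l) ^ d := by
            apply pow_nonneg
            nlinarith
          calc (1 - s * ε) * (T ^ r * Real.log T ^ d)
              ≤ (1 - r * ε) * (1 - d * ε) * (T ^ r * Real.log T ^ d) := by
                apply mul_le_mul_of_nonneg_right _ (by positivity)
                rw [hs]
                nlinarith [mul_nonneg (mul_nonneg h15 hε0.le) (mul_nonneg h15' hε0.le)]
            _ = (1 - r * ε) * T ^ r * ((1 - d * ε) * Real.log T ^ d) := by ring
            _ ≤ (1 - r * ε) * T ^ r * (Real.log T - Real.log l) ^ d := by gcongr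
            _ ≤ (l ^ r)⁻¹ * T ^ r * (Real.log T - Real.log l) ^ d := by gcongr
            _ = T ^ r / l ^ r * (Real.log T - Real.log l) ^ d := by
                rw [div_eq_mul_inv]
                ring
        calc (c - 2 * ε) * (1 - s * ε) * g T = (c - 2 * ε) * ((1 - s * ε) * g T) := by
              ring
          _ ≤ (c - 2 * ε) * g (T / l) := by gcongr
          _ ≤ f T := by linarith
    · rw [div_le_iff₀ hgT]
      exact h7.1.trans h4

end Pool.Agent.N852.MM
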