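import Mathlib
import Pool.Agent.N852.MM.Eng

/-!
Systems of multilinear equations: the upper bound with a small loss.
-/

namespace Pool.Agent.N852.MM

set_option linter.unusedSectionVars false

open Matrix Module Filter Topology Function
open Pool.Agent.N852 (ic ic_add ic_sub ic_neg Cg)
open Pool.Agent.N852.DD (Bl mem_Bl card_Bl norm_ic_ge Bl_mono zero_mem_Bl dbl)
open Pool.Agent.H548.BL (lat orth mem_lat mem_orth rc sep_card)

variable {V : Type} [DecidableEq V] [Fintype V] {n : V → ℕ} {k : ℕ}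
  {F : Sys n k} {G : V → Tup n ℤ → Prop} {a : V → ℕ} {D : ℕ}

/-- The normalised number of solutions. -/
noncomputable def pp (F : Sys n k) (G : V → Tup n ℤ → Prop) (a : V → ℕ) (X : V → ℝ) : ℝ :=
  ((UX F G X).card : ℝ) / Nm a X

theorem pp_nonneg {X : V → ℝ} (hX : ∀ v, 0 < X v) : 0 ≤ pp F G a X :=
  div_nonneg (Nat.cast_nonneg _) (Nm_pos hX).le

theorem pos_of_one {X : V → ℝ} (hX : ∀ v, 1 ≤ X v) (v : V) : 0 < X v := by linarith [hX v]

theorem nonneg_of_one {X : V → ℝ} (hX : ∀ v, 1 ≤ X v) (v : V) : 0 ≤ X v := by linarith [hX v]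

theorem one_update {X : V → ℝ} (hX : ∀ v, 1 ≤ X v) (v : V) {ρ : ℝ} (hρ : 1 ≤ ρ) (u : V) :
    1 ≤ update X v ρ u := by
  by_cases h : u = v
  · subst h
    rwa [update_self]
  · rw [update_of_ne h]
    exact hX u

theorem one_le_Nm {X : V → ℝ} (hX : ∀ v, 1 ≤ X v) : 1 ≤ Nm a X := by
  unfold Nm
  apply Finset.prod_induction _ (fun x : ℝ => 1 ≤ x) (fun x y hx hy => by nlinarith) le_rfl
  intro v _
  exact one_le_pow₀ (hX v)

theorem pp_triv {X : V → ℝ} (hX : ∀ v, 1 ≤ X v) {M : ℝ} (hM : ∀ v, X v ≤ M) (hM1 : 1 ≤ M) :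
    pp F G a X ≤ (3 * M) ^ (∑ v, n v) := by
  classical
  unfold pp
  have h0 := Nm_pos (a := a) (pos_of_one hX)
  have h3 := one_le_Nm (a := a) hX
  rw [div_le_iff₀ h0]
  have h1 : ((UX F G X).card : ℝ) ≤ ∏ v, (3 * X v) ^ n v := by
    refine le_trans ?_ (card_Bx (n := n) hX)
    exact_mod_cast Finset.card_filter_le _ _
  have h2 : ∏ v, (3 * X v) ^ n v ≤ (3 * M) ^ (∑ v, n v) := by
    rw [← Finset.prod_pow_eq_pow_sum]
    refine Finset.prod_le_prod (fun v _ => ?_) fun v _ => ?_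
    · have := nonneg_of_one hX v
      positivity
    · have := nonneg_of_one hX v
      have := hM v
      gcongr
  have h4 : (0 : ℝ) ≤ (3 * M) ^ (∑ v, n v) := by positivity
  calc ((UX F G X).card : ℝ) ≤ (3 * M) ^ (∑ v, n v) := h1.trans h2
    _ = (3 * M) ^ (∑ v, n v) * 1 := (mul_one _).symm
    _ ≤ _ := by gcongr

/-- Comparison of the fibres, for the number of solutions. -/
theorem TX_dbl (hE : Eng F G a D) (v : V) {X : V → ℝ} (hX : ∀ u, 0 ≤ X u) {ρ : ℝ} (hρ : 0 < ρ)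
    (hρX : ρ ≤ X v) : ((TX F G v X).card : ℝ) ≤
      (3 * X v / ρ) ^ a v * ((TX F G v (update X v ρ)).card : ℝ) := by
  rw [card_TX hE.upd v hX, card_TX hE.upd v (update_nonneg hX v hρ.le), BX_update, update_self]
  push_cast
  rw [Finset.mul_sum]
  refine Finset.sum_le_sum fun y hy => ?_
  rw [mem_BX hX] at hy
  exact FX_dbl (hE.fin hy.2.2.2.1).le hρ hρX

/-- `p(X)` is bounded in terms of `p(X')`, where `X'` has a smaller coordinate. -/
theorem up1 (hE : Eng F G a D) : ∃ C : ℝ, 1 ≤ C ∧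
    ∀ (v : V) (X : V → ℝ) (ρ g : ℝ), (∀ u, 1 ≤ X u) → 1 ≤ ρ → ρ ≤ X v → 1 ≤ g →
      (∀ u, u ≠ v → X u ≤ g * ρ) →
      pp F G a X ≤ C * (g ^ D / ρ + pp F G a (update X v ρ)) := by
  classical
  obtain ⟨C, hC, hdeg⟩ := hE.deg
  refine ⟨3 ^ (∑ u, a u) * (1 + C), ?_, ?_⟩
  · have : (1 : ℝ) ≤ 3 ^ (∑ u, a u) := one_le_pow₀ (by norm_num)
    nlinarith
  intro v X ρ g hX hρ hρX hg hgX
  have hρ0 : 0 < ρ := by linarith
  have hXv : 0 < X v := by linarith
  set Y := update X v ρ with hY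
  have hY1 : ∀ u, 1 ≤ Y u := one_update hX v hρ
  have hYv : Y v = ρ := update_self _ _ _
  have hN := Nm_pos (a := a) (pos_of_one hX)
  have hNY := Nm_pos (a := a) (pos_of_one hY1)
  have h1 : ((UX F G X).card : ℝ) ≤ (TX F G v X).card := by
    exact_mod_cast Finset.card_le_card (UX_sub_TX v)
  have h2 := TX_dbl hE v (nonneg_of_one hX) hρ0 hρX
  have h3 : ((TX F G v Y).card : ℝ) ≤ (UX F G Y).card + C * Nm a Y * (g ^ D / ρ) := by
    have h4 : (TX F G v Y).card = (TX F G v Y \ UX F G Y).card + (UX F G Y).card :=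
      (Finset.card_sdiff_add_card_eq_card (UX_sub_TX v)).symm
    have h5 := hdeg v Y g hY1 hg (by
      intro u
      rw [hYv]
      by_cases hu : u = v
      · rw [hu, hYv]
        nlinarith
      · rw [hY, update_of_ne hu]
        exact hgX u hu)
    rw [hYv] at h5
    rw [h4]
    push_cast
    linarith
  have h6 : Nm a Y * X v ^ a v = Nm a X * ρ ^ a v := Nm_update a X v ρ
  have h7 : (3 : ℝ) ^ a v ≤ 3 ^ (∑ u, a u) := by
    apply pow_le_pow_right₀ (by norm_num)
    exact Finset.single_le_sum (fun _ _ => Nat.zero_le _) (Finset.mem_univ v)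
  unfold pp
  rw [div_le_iff₀ hN]
  have hg0 : 0 ≤ g ^ D / ρ := by positivity
  have hU : (0 : ℝ) ≤ (UX F G Y).card := Nat.cast_nonneg _
  have h8 : (3 * X v / ρ) ^ a v = 3 ^ a v * (Nm a X / Nm a Y) := by
    rw [div_pow, mul_pow]
    field_simp
    linarith
  calc ((UX F G X).card : ℝ) ≤ (3 * X v / ρ) ^ a v * ((TX F G v Y).card : ℝ) := h1.trans h2
    _ ≤ (3 * X v / ρ) ^ a v * ((UX F G Y).card + C * Nm a Y * (g ^ D / ρ)) := by gcongr
    _ = 3 ^ a v * ((UX F G Y).card / Nm a Y + C * (g ^ D / ρ)) * Nm a X := by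
        rw [h8]
        field_simp
    _ ≤ 3 ^ (∑ u, a u) * ((1 + C) * ((UX F G Y).card / Nm a Y) + (1 + C) * (g ^ D / ρ)) *
          Nm a X := by
        have e1 : 0 ≤ ((UX F G Y).card : ℝ) / Nm a Y := div_nonneg hU hNY.le
        have e2 : ((UX F G Y).card : ℝ) / Nm a Y ≤ (1 + C) * ((UX F G Y).card / Nm a Y) := by
          nlinarith
        have e3 : C * (g ^ D / ρ) ≤ (1 + C) * (g ^ D / ρ) := by nlinarith
        gcongr
    _ = _ := by ring

/-- Lowering all coordinates. -/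
theorem up_desc (hE : Eng F G a D) : ∃ C : ℝ, 1 ≤ C ∧
    ∀ (M ρ : ℝ), 1 ≤ ρ → ρ ≤ M → M ^ D ≤ ρ ^ (D + 1) → ∀ X : V → ℝ, (∀ u, 1 ≤ X u) →
      (∀ u, X u ≤ M) → ∃ Y : V → ℝ, (∀ u, 1 ≤ Y u) ∧ (∀ u, Y u ≤ ρ) ∧
        pp F G a X ≤ C * (1 + pp F G a Y) := by
  classical
  obtain ⟨C, hC, hup⟩ := up1 hE
  have key : ∀ A : Finset V, ∃ C' : ℝ, 1 ≤ C' ∧
    ∀ (M ρ : ℝ), 1 ≤ ρ → ρ ≤ M → M ^ D ≤ ρ ^ (D + 1) → ∀ X : V → ℝ, (∀ u, 1 ≤ X u) →
      (∀ u, X u ≤ M) → ∃ Y : V → ℝ, (∀ u, 1 ≤ Y u) ∧ (∀ u, Y u ≤ M) ∧ (∀ u ∈ A, Y u ≤ ρ) ∧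
        pp F G a X ≤ C' * (1 + pp F G a Y) := by
    intro A
    induction A using Finset.induction_on with
    | empty =>
      refine ⟨1, le_rfl, fun M ρ _ _ _ X h1 h2 => ⟨X, h1, h2, ?_, ?_⟩⟩
      · intro u hu
        simp at hu
      · linarith
    | insert v A hv ih =>
      obtain ⟨C', hC', h⟩ := ih
      refine ⟨C' * (3 * C), by nlinarith, ?_⟩
      intro M ρ hρ hρM hMD X h1 h2
      obtain ⟨Y, hY1, hY2, hY3, hY4⟩ := h M ρ hρ hρM hMD X h1 h2
      have hpY := pp_nonneg (F := F) (G := G) (a := a) (pos_of_one hY1)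
      rcases le_total (Y v) ρ with hle | hle
      · refine ⟨Y, hY1, hY2, ?_, ?_⟩
        · intro u hu
          rw [Finset.mem_insert] at hu
          rcases hu with rfl | hu
          · exact hle
          · exact hY3 u hu
        · refine hY4.trans ?_
          rw [mul_assoc]
          gcongr
          nlinarith
      · have hρ0 : 0 < ρ := by linarith
        refine ⟨update Y v ρ, one_update hY1 v hρ, ?_, ?_, ?_⟩
        · intro u
          by_cases hu : u = v
          · rw [hu, update_self]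
            exact hρM
          · rw [update_of_ne hu]
            exact hY2 u
        · intro u hu
          by_cases hu' : u = v
          · rw [hu', update_self]
          · rw [update_of_ne hu']
            rw [Finset.mem_insert] at hu
            exact hY3 u (hu.resolve_left hu')
        · have h5 := hup v Y ρ (M / ρ) hY1 hρ hle ((one_le_div hρ0).2 hρM) (by
            intro u _
            rw [div_mul_cancel₀ _ hρ0.ne']
            exact hY2 u)
          have h6 : (M / ρ) ^ D / ρ ≤ 1 := by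
            rw [div_pow, div_div, div_le_one (by positivity), ← pow_succ]
            exact hMD
          have hp' := pp_nonneg (F := F) (G := G) (a := a) (pos_of_one (one_update hY1 v hρ))
          calc pp F G a X ≤ C' * (1 + pp F G a Y) := hY4
            _ ≤ C' * (1 + C * (1 + pp F G a (update Y v ρ))) := by
                gcongr
                exact h5.trans (by gcongr)
            _ ≤ C' * (3 * C * (1 + pp F G a (update Y v ρ))) := by
                gcongr
                nlinarith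
            _ = _ := by ring
  obtain ⟨C', hC', h⟩ := key Finset.univ
  refine ⟨C', hC', ?_⟩
  intro M ρ hρ hρM hMD X h1 h2
  obtain ⟨Y, hY1, _, hY3, hY4⟩ := h M ρ hρ hρM hMD X h1 h2
  exact ⟨Y, hY1, fun u => hY3 u (Finset.mem_univ u), hY4⟩

/-- **The upper bound with a small loss.** -/
theorem up_eps (hE : Eng F G a D) {ε : ℝ} (hε : 0 < ε) : ∃ C : ℝ, 1 ≤ C ∧
    ∀ (M : ℝ) (X : V → ℝ), 1 ≤ M → (∀ u, 1 ≤ X u) → (∀ u, X u ≤ M) → pp F G a X ≤ C * M ^ ε := by
  obtain ⟨E, hE1, hdesc⟩ := up_desc hE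
  have hk0 : (0 : ℝ) < (D : ℝ) + 1 := by positivity
  -- the threshold
  have hlim : Tendsto (fun x : ℝ => x ^ (ε / (D + 1))) atTop atTop :=
    tendsto_rpow_atTop (by positivity)
  obtain ⟨K₀, hK₀⟩ := eventually_atTop.1 (hlim.eventually_ge_atTop (2 * E))
  obtain ⟨K₁, hK₁⟩ : ∃ K₁ : ℝ, K₁ = max (max K₀ 2) (2 ^ (D + 1)) := ⟨_, rfl⟩
  have e1 : K₀ ≤ K₁ := by rw [hK₁]; exact (le_max_left _ _).trans (le_max_left _ _)
  have e2 : 2 ≤ K₁ := by rw [hK₁]; exact (le_max_right _ _).trans (le_max_left _ _)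
  have e3 : (2 : ℝ) ^ (D + 1) ≤ K₁ := by rw [hK₁]; exact le_max_right _ _
  obtain ⟨A, hA⟩ : ∃ A : ℝ, A = max (2 * E) ((3 * K₁) ^ (∑ v, n v)) := ⟨_, rfl⟩
  have hA1 : 2 * E ≤ A := by rw [hA]; exact le_max_left _ _
  have hA2 : (3 * K₁) ^ (∑ v, n v) ≤ A := by rw [hA]; exact le_max_right _ _
  have hA0 : 1 ≤ A := by linarith
  have hdiag : ∀ (N : ℕ) (M : ℝ), 1 ≤ M → M < 2 ^ N → ∀ X : V → ℝ, (∀ u, 1 ≤ X u) →
      (∀ u, X u ≤ M) → pp F G a X ≤ A * M ^ ε := by
    intro N
    induction N with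
    | zero =>
      intro K hK h
      rw [pow_zero] at h
      linarith
    | succ N ih =>
      intro K hK hKN X hX1 hX2
      have hKε : 1 ≤ K ^ ε := Real.one_le_rpow hK hε.le
      rcases lt_or_ge K K₁ with h | h
      · calc pp F G a X ≤ (3 * K) ^ (∑ v, n v) := pp_triv hX1 hX2 hK
          _ ≤ (3 * K₁) ^ (∑ v, n v) := by gcongr
          _ ≤ A := hA2
          _ ≤ A * K ^ ε := le_mul_of_one_le_right (by linarith) hKε
      · have hK0 : 0 < K := by linarith
        set ρ : ℝ := K ^ ((D : ℝ) / (D + 1)) with hρ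
        have hρ1 : 1 ≤ ρ := Real.one_le_rpow hK (by positivity)
        have hρ0 : 0 < ρ := by linarith
        have hprod : ρ * K ^ (1 / ((D : ℝ) + 1)) = K := by
          rw [hρ, ← Real.rpow_add hK0, ← add_div, div_self hk0.ne', Real.rpow_one]
        have h2K : 2 ≤ K ^ (1 / ((D : ℝ) + 1)) := by
          have h5 : ((2 : ℝ) ^ (D + 1)) ^ (1 / ((D : ℝ) + 1)) = 2 := by
            rw [← Real.rpow_natCast, ← Real.rpow_mul (by norm_num)]
            push_cast
            rw [mul_one_div_cancel hk0.ne', Real.rpow_one]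
          rw [← h5]
          exact Real.rpow_le_rpow (by positivity) (e3.trans h) (by positivity)
        have hρK : ρ ≤ K / 2 := by
          rw [le_div_iff₀ (by norm_num)]
          calc ρ * 2 ≤ ρ * K ^ (1 / ((D : ℝ) + 1)) := by gcongr
            _ = K := hprod
        have hpow : K ^ D ≤ ρ ^ (D + 1) := by
          rw [hρ, ← Real.rpow_natCast (K ^ ((D : ℝ) / (D + 1))), ← Real.rpow_mul hK0.le]
          push_cast
          rw [div_mul_cancel₀ _ hk0.ne', Real.rpow_natCast]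
        obtain ⟨Y, hY1, hY2, h1⟩ := hdesc K ρ hρ1 (by linarith) hpow X hX1 hX2
        have h2 := ih ρ hρ1 (by
          rw [pow_succ] at hKN
          linarith) Y hY1 hY2
        have h3 : K ^ ε = ρ ^ ε * K ^ (ε / (D + 1)) := by
          rw [hρ, ← Real.rpow_mul hK0.le, ← Real.rpow_add hK0]
          congr 1
          field_simp
        have h4 : 2 * E ≤ K ^ (ε / (D + 1)) := hK₀ K (e1.trans h)
        have h5 : 0 < ρ ^ ε := Real.rpow_pos_of_pos hρ0 _
        have h6 : E * (A * ρ ^ ε) ≤ A * K ^ ε / 2 := by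
          rw [h3]
          have : A * ρ ^ ε * (2 * E) ≤ A * ρ ^ ε * K ^ (ε / (D + 1)) := by gcongr
          linarith
        have h7 : E ≤ A * K ^ ε / 2 := by nlinarith
        calc pp F G a X ≤ E * (1 + pp F G a Y) := h1
          _ ≤ E * (1 + A * ρ ^ ε) := by gcongr
          _ = E + E * (A * ρ ^ ε) := by ring
          _ ≤ A * K ^ ε := by linarith
  refine ⟨A, hA0, ?_⟩
  intro M X hM hX1 hX2
  obtain ⟨N, hN⟩ := pow_unbounded_of_one_lt M (by norm_num : (1 : ℝ) < 2)
  exact hdiag N M hM hN X hX1 hX2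

/-- The total number, including the bad families. -/
theorem tot_eps (hE : Eng F G a D) {ε : ℝ} (hε : 0 < ε) : ∃ C : ℝ, 1 ≤ C ∧
    ∀ (v : V) (X : V → ℝ) (L : ℝ), (∀ u, 1 ≤ X u) → 1 ≤ L → (∀ u, u ≠ v → X u ≤ L) →
      L ^ D ≤ X v ^ (D + 1) → ((TX F G v X).card : ℝ) ≤ C * Nm a X * L ^ ε := by
  classical
  obtain ⟨C, hC, hup⟩ := up_eps hE hε
  obtain ⟨E, hE0, hdeg⟩ := hE.deg
  have key : ∀ (v : V) (X : V → ℝ) (L : ℝ), (∀ u, 1 ≤ X u) → 1 ≤ L → (∀ u, X u ≤ L) →
      L ^ D ≤ X v ^ (D + 1) → ((TX F G v X).card : ℝ) ≤ (C + E) * Nm a X * L ^ ε := by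
    intro v X L hX hL hXL hLv
    have hXv : 0 < X v := pos_of_one hX v
    have hN := Nm_pos (a := a) (pos_of_one hX)
    have h1 := hup L X hL hX hXL
    unfold pp at h1
    rw [div_le_iff₀ hN] at h1
    have h2 := hdeg v X (L / X v) hX ((one_le_div hXv).2 (hXL v)) (by
      intro u
      rw [div_mul_cancel₀ _ hXv.ne']
      exact hXL u)
    have h3 : (L / X v) ^ D / X v ≤ 1 := by
      rw [div_pow, div_div, div_le_one (by positivity), ← pow_succ]
      exact hLv
    have h4 : (TX F G v X).card = (TX F G v X \ UX F G X).card + (UX F G X).card :=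
      (Finset.card_sdiff_add_card_eq_card (UX_sub_TX v)).symm
    have h5 : 1 ≤ L ^ ε := Real.one_le_rpow hL hε.le
    rw [h4]
    push_cast
    calc ((TX F G v X \ UX F G X).card : ℝ) + (UX F G X).card
        ≤ E * Nm a X * ((L / X v) ^ D / X v) + C * L ^ ε * Nm a X := add_le_add h2 h1
      _ ≤ E * Nm a X * 1 + C * L ^ ε * Nm a X := by gcongr
      _ ≤ E * Nm a X * L ^ ε + C * L ^ ε * Nm a X := by gcongr
      _ = _ := by ring
  refine ⟨3 ^ (∑ u, a u) * (C + E), ?_, ?_⟩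
  · have : (1 : ℝ) ≤ 3 ^ (∑ u, a u) := one_le_pow₀ (by norm_num)
    nlinarith
  intro v X L hX hL hXL hLv
  have hXv : 0 < X v := pos_of_one hX v
  have hN := Nm_pos (a := a) (pos_of_one hX)
  have hL0 : 0 < L := by linarith
  have hLε : 0 < L ^ ε := Real.rpow_pos_of_pos hL0 _
  have h7 : (3 : ℝ) ^ a v ≤ 3 ^ (∑ u, a u) := by
    apply pow_le_pow_right₀ (by norm_num)
    exact Finset.single_le_sum (fun _ _ => Nat.zero_le _) (Finset.mem_univ v)
  have h71 : (1 : ℝ) ≤ 3 ^ (∑ u, a u) := one_le_pow₀ (by norm_num)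
  rcases le_total (X v) L with h | h
  · have h8 := key v X L hX hL (by
      intro u
      by_cases hu : u = v
      · rw [hu]
        exact h
      · exact hXL u hu) hLv
    refine h8.trans ?_
    have : (C + E) * Nm a X * L ^ ε * 1 ≤ (C + E) * Nm a X * L ^ ε * 3 ^ (∑ u, a u) := by gcongr
    nlinarith
  · have h1 := TX_dbl hE v (nonneg_of_one hX) hL0 h
    have h8 := key v (update X v L) L (one_update hX v hL) hL (by
      intro u
      by_cases hu : u = v
      · rw [hu, update_self]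
      · rw [update_of_ne hu]
        exact hXL u hu) (by
      rw [update_self]
      exact pow_le_pow_right₀ hL (Nat.le_succ D))
    have h6 : Nm a (update X v L) * X v ^ a v = Nm a X * L ^ a v := Nm_update a X v L
    calc ((TX F G v X).card : ℝ) ≤ (3 * X v / L) ^ a v * ((TX F G v (update X v L)).card : ℝ) := h1
      _ ≤ (3 * X v / L) ^ a v * ((C + E) * Nm a (update X v L) * L ^ ε) := by gcongr
      _ = 3 ^ a v * (C + E) * (Nm a (update X v L) * X v ^ a v) / L ^ a v * L ^ ε := by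
          rw [div_pow, mul_pow]
          ring
      _ = 3 ^ a v * (C + E) * Nm a X * L ^ ε := by
          rw [h6]
          field_simp
      _ ≤ _ := by gcongr

end Pool.Agent.N852.MM
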