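import Mathlib
import Pool.Agent.N852.MM.Up
import Pool.Agent.N852.DD.Fib

/-!
Comparison of the numbers of points of the lattice of solutions of linear equations.
-/

namespace Pool.Agent.N852.MM

set_option linter.unusedSectionVars false

open Matrix Module Filter Topology Function
open Pool.Agent.N852 (ic ic_add ic_sub ic_neg Cg)
open Pool.Agent.N852.DD (Bl mem_Bl card_Bl norm_ic_ge Bl_mono zero_mem_Bl dbl Lq mem_Lq gS er cmp
  card_basis lat_sat)
open Pool.Agent.H548.BL (lat orth mem_lat mem_orth rc sep_card)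

open Classical in
/-- The number of points of a lattice. -/
noncomputable def nw {ι : Type} {N : ℕ} (w : ι → Fin N → ℤ) (B : ℝ) : ℕ :=
  ((Bl N B).filter fun z => z ∈ lat w).card

theorem ic_mem_orth' {ι : Type} [Fintype ι] {N : ℕ} {w : ι → Fin N → ℤ} {z : Fin N → ℤ} (hz : z ∈ lat w) :
    ic z ∈ orth w := by
  rw [mem_orth]
  intro i
  have := Pool.Agent.H548.BL.rc_dot (w i) z
  rw [mem_lat.1 hz i, Int.cast_zero] at this
  exact this

theorem nw_mono {ι : Type} {N : ℕ} {w : ι → Fin N → ℤ} {B C : ℝ} (hB : 0 ≤ B) (h : B ≤ C) :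
    nw w B ≤ nw w C := by
  classical
  unfold nw
  exact Finset.card_le_card (Finset.filter_subset_filter _ (Bl_mono hB h))

/-- The bound for the difference. -/
noncomputable def Wd (b : ℕ) {ι : Type} {N : ℕ} (w : ι → Fin N → ℤ) (q : ℕ)
    (A R σ ρ κ : ℝ) : ℝ :=
  2 ^ (b + 1) * ((κ ^ b)⁻¹ * (nw w (2 * R * κ + (b : ℕ) * (q * σ)) *
    (A * ((b : ℕ) * (q * σ)) / κ))) +
  (3 * R) ^ b * 3 ^ (b - 1) * (σ⁻¹ * (ρ ^ (b - 1))⁻¹ * nw w ρ)

theorem Lq_card_le {ι : Type} {N : ℕ} {w : ι → Fin N → ℤ} {q : ℕ} {α : Fin N → ℤ} {B : ℝ}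
    (hB : 0 ≤ B) : (Lq (lat w) q α B).card ≤ nw w B := by
  classical
  unfold nw
  apply Finset.card_le_card
  intro x hx
  rw [mem_Lq hB] at hx
  rw [Finset.mem_filter, mem_Bl hB]
  exact ⟨hx.1, hx.2.1⟩

/-- **The comparison in a fibre.** -/
theorem fibsw {ι : Type} [Fintype ι] {N b : ℕ} {w : ι → Fin N → ℤ} (hfin : finrank ℝ (orth w) = b)
    (hb1 : 1 ≤ b) {q : ℕ} (hq : q ≠ 0) (α : Fin N → ℤ) {F : (Fin N → ℝ) → ℝ} {A R : ℝ}
    (hA : 0 ≤ A) (hR : 0 ≤ R)
    (hF : ∀ X ∈ orth w, ∀ X' ∈ orth w, |F X - F X'| ≤ A * ‖X - X'‖)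
    (hF0 : ∀ X ∈ orth w, R < ‖X‖ → F X = 0) (hF1 : ∀ X, |F X| ≤ 1)
    {σ ρ K K' : ℝ} (hρ : 0 < ρ) (hρσ : ρ ≤ σ) (hK0 : 0 < K) (hK0' : 0 < K') (hK : σ ≤ R * K)
    (hK' : σ ≤ R * K') :
    |gS (lat w) q α F R b K - gS (lat w) q α F R b K'| ≤
      Wd b w q A R σ ρ K + Wd b w q A R σ ρ K' := by
  classical
  have hσ0 : 0 < σ := by linarith
  set Λ := lat w with hΛ
  set V := orth w with hVdef
  have hV : ∀ x ∈ Λ, ic x ∈ V := fun x hx => ic_mem_orth' hx
  set S : Set (Fin N → ℝ) := {X | ∃ x ∈ Λ, ‖ic x‖ ≤ σ ∧ ic x = X} with hS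
  set V₀ := Submodule.span ℝ S with hV₀
  have hV₀V : V₀ ≤ V := by
    rw [hV₀, Submodule.span_le]
    rintro X ⟨x, hx, -, rfl⟩
    exact hV x hx
  have hle : finrank ℝ V₀ ≤ b := by
    rw [← hfin]
    exact Submodule.finrank_mono hV₀V
  have hpos1 : ∀ κ : ℝ, 0 < κ → 0 ≤ 2 ^ (b + 1) * ((κ ^ b)⁻¹ *
      (nw w (2 * R * κ + (b : ℕ) * (q * σ)) * (A * ((b : ℕ) * (q * σ)) / κ))) := by
    intro κ hκ
    positivity
  have hpos2 : 0 ≤ (3 * R) ^ b * 3 ^ (b - 1) *
      (σ⁻¹ * (ρ ^ (b - 1))⁻¹ * nw w ρ) := by positivity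
  rcases lt_or_ge (finrank ℝ V₀) b with hlt | hge
  · -- few short vectors
    have hsmall : ∀ κ : ℝ, 0 < κ → σ ≤ R * κ → |gS Λ q α F R b κ| ≤
        (3 * R) ^ b * 3 ^ (b - 1) * (σ⁻¹ * (ρ ^ (b - 1))⁻¹ * nw w ρ) := by
      intro κ hκ hσκ
      have hB : 0 ≤ R * κ := by positivity
      have h1 : |∑ x ∈ Lq Λ q α (R * κ), F (κ⁻¹ • ic x)| ≤ nw w (R * κ) := by
        refine (Finset.abs_sum_le_sum_abs _ _).trans ?_
        refine (Finset.sum_le_sum fun x _ => hF1 _).trans ?_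
        rw [Finset.sum_const, nsmul_eq_mul, mul_one]
        exact_mod_cast Lq_card_le hB
      have h2 : (nw w (R * κ) : ℝ) ≤ (3 * (R * κ) / σ) ^ b * nw w σ :=
        dbl Λ V hfin.le hV hσ0 hσκ
      have h3 : (nw w σ : ℝ) ≤ (3 * σ / ρ) ^ (b - 1) * nw w ρ := by
        set Λ₀ : AddSubgroup (Fin N → ℤ) := Λ ⊓ (V₀.toAddSubgroup.comap
          { toFun := ic, map_zero' := by funext l; simp [ic], map_add' := ic_add }) with hΛ₀
        have hmem : ∀ x, x ∈ Λ₀ ↔ x ∈ Λ ∧ ic x ∈ V₀ := fun x => Iff.rfl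
        have h4 := dbl (b := b - 1) Λ₀ V₀ (by omega) (fun x hx => ((hmem x).1 hx).2) hρ hρσ
        have h5 : (Bl N σ).filter (· ∈ Λ₀) = (Bl N σ).filter (· ∈ Λ) := by
          apply Finset.filter_congr
          intro x hx
          rw [mem_Bl hσ0.le] at hx
          rw [hmem]
          exact ⟨fun h => h.1, fun h => ⟨h, Submodule.subset_span ⟨x, h, hx, rfl⟩⟩⟩
        have h6 : ((Bl N ρ).filter (· ∈ Λ₀)).card ≤ ((Bl N ρ).filter (· ∈ Λ)).card := by
          apply Finset.card_le_card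
          intro x hx
          rw [Finset.mem_filter] at hx ⊢
          exact ⟨hx.1, ((hmem x).1 hx.2).1⟩
        unfold nw
        change (((Bl N σ).filter (· ∈ Λ)).card : ℝ) ≤ (3 * σ / ρ) ^ (b - 1) *
          (((Bl N ρ).filter (· ∈ Λ)).card : ℝ)
        rw [← h5]
        refine h4.trans ?_
        gcongr
      unfold gS
      rw [abs_mul, abs_of_pos (by positivity)]
      calc (κ ^ b)⁻¹ * |∑ x ∈ Lq Λ q α (R * κ), F (κ⁻¹ • ic x)|
          ≤ (κ ^ b)⁻¹ * ((3 * (R * κ) / σ) ^ b *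
              ((3 * σ / ρ) ^ (b - 1) * nw w ρ)) := by
            gcongr
            exact h1.trans (h2.trans (by gcongr))
        _ = (3 * R) ^ b * 3 ^ (b - 1) * (σ⁻¹ * (ρ ^ (b - 1))⁻¹ * nw w ρ) := by
            have e1 : b = (b - 1) + 1 := by omega
            have e2 : σ ^ b = σ ^ (b - 1) * σ := by
              conv_lhs => rw [e1]
              rw [pow_succ]
            rw [div_pow, div_pow, mul_pow, mul_pow, mul_pow, mul_pow, e2]
            field_simp
    have h1 := hsmall K hK0 hK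
    have h2 := hsmall K' hK0' hK'
    have h3 := hpos1 K hK0
    have h4 := hpos1 K' hK0'
    unfold Wd
    have h5 := abs_sub (gS Λ q α F R b K) (gS Λ q α F R b K')
    linarith
  · -- many short vectors
    have heq : finrank ℝ V₀ = b := le_antisymm hle hge
    have hVV : V₀ = V := Submodule.eq_of_le_of_finrank_eq hV₀V (by rw [heq, hfin])
    obtain ⟨t, ht1, ht2, ht3, ht4⟩ := Submodule.exists_finset_span_eq_linearIndepOn ℝ S
    have ht2' : t.card = b := ht2.trans heq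
    set e := (Finset.equivFinOfCardEq ht2').symm with he
    have hex : ∀ i, ∃ x ∈ Λ, ‖ic x‖ ≤ σ ∧ ic x = (e i : Fin N → ℝ) := fun i => ht1 (e i).2
    choose v hvΛ hvσ hve using hex
    have hve' : (fun i => ic (v i)) = fun i => (e i : Fin N → ℝ) := funext hve
    have hspan : ∀ x ∈ Λ, ic x ∈ Submodule.span ℝ (Set.range fun i => ic (v i)) := by
      intro x hx
      have h1 : Set.range (fun i => ic (v i)) = (t : Set (Fin N → ℝ)) := by
        rw [hve']
        ext X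
        constructor
        · rintro ⟨i, rfl⟩
          exact (e i).2
        · intro hX
          exact ⟨e.symm ⟨X, hX⟩, by simp⟩
      rw [h1, ht3]
      change ic x ∈ V₀
      rw [hVV]
      exact hV x hx
    have hli : LinearIndependent ℝ fun i => ic (v i) := by
      rw [hve']
      exact LinearIndependent.comp ht4 e e.injective
    have hfree : Module.Free ℤ Λ.toIntSubmodule := inferInstance
    have B := Module.Free.chooseBasis ℤ Λ.toIntSubmodule
    have hcard := card_basis (Λ := Λ) hV hfin B hvΛ hli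
    have h1 := cmp hcard (fun q x => lat_sat q x) B hvΛ hvσ hσ0.le hspan hV hq α hA hR hF hF0
      hK0 hK0'
    have h2 : ∀ κ : ℝ, 0 < κ → er Λ q α A R σ b κ ≤ 2 ^ (b + 1) * ((κ ^ b)⁻¹ *
      (nw w (2 * R * κ + (b : ℕ) * (q * σ)) * (A * ((b : ℕ) * (q * σ)) / κ))) := by
      intro κ hκ
      unfold er
      have h3 : ((Lq Λ q α (2 * R * κ + (b : ℕ) * (q * σ))).card : ℝ) ≤
          (nw w (2 * R * κ + (b : ℕ) * (q * σ)) : ℝ) := by
        exact_mod_cast Lq_card_le (by positivity)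
      gcongr
    have h3 := h2 K hK0
    have h4 := h2 K' hK0'
    unfold Wd
    linarith

end Pool.Agent.N852.MM
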