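import Mathlib
import Pool.Agent.N852.MM.Fib
import Pool.Agent.N852.DD.Sw2

/-!
Systems of multilinear equations: the change of one scale.
-/

namespace Pool.Agent.N852.MM

set_option linter.unusedSectionVars false

open Matrix Module Filter Topology Function
open Pool.Agent.N852 (ic ic_add ic_sub ic_neg Cg)
open Pool.Agent.N852.DD (Bl mem_Bl card_Bl norm_ic_ge Bl_mono zero_mem_Bl dbl Lq mem_Lq gS er cmp
  card_basis lat_sat th th_pos th_le_one pow_th one_le_th)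
open Pool.Agent.H548.BL (lat orth mem_lat mem_orth rc sep_card)

variable {V : Type} [DecidableEq V] [Fintype V] {n : V → ℕ} {k : ℕ}
  {F : Sys n k} {G : V → Tup n ℤ → Prop} {a : V → ℕ} {D : ℕ}

/-- The weights. -/
structure WT (F : Sys n k) (Φ : Tup n ℝ → ℝ) (A R : ℝ) : Prop where
  A0 : 0 ≤ A
  R4 : 4 ≤ R
  lip : ∀ v X z z', Inc F (update X v z) → Inc F (update X v z') →
    |Φ (update X v z) - Φ (update X v z')| ≤ A * ‖z - z'‖
  supp : ∀ X v, Inc F X → R < ‖X v‖ → Φ X = 0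
  le_one : ∀ X, |Φ X| ≤ 1

/-- The scaled family. -/
noncomputable def sc (X : V → ℝ) (x : Tup n ℤ) : Tup n ℝ := fun v => (X v)⁻¹ • ic (x v)

/-- The scaled box. -/
def rx (R : ℝ) (X : V → ℝ) : V → ℝ := fun v => R * X v

open Classical in
/-- The weighted number of solutions. -/
noncomputable def NN (F : Sys n k) (G : V → Tup n ℤ → Prop) (Φ : Tup n ℝ → ℝ)
    (q : ℕ) (α : Tup n ℤ) (R : ℝ) (X : V → ℝ) : ℝ :=
  ∑ x ∈ UX F G (rx R X), if ∀ v, Cg q (x v) (α v) then Φ (sc X x) else 0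

/-- The normalised weighted number of solutions. -/
noncomputable def TT (F : Sys n k) (G : V → Tup n ℤ → Prop) (a : V → ℕ) (Φ : Tup n ℝ → ℝ)
    (q : ℕ) (α : Tup n ℤ) (R : ℝ) (X : V → ℝ) : ℝ :=
  NN F G Φ q α R X / Nm a X

open Classical in
/-- The weighted number of solutions which are good for `v` and can be made good. -/
noncomputable def NT (F : Sys n k) (G : V → Tup n ℤ → Prop) (Φ : Tup n ℝ → ℝ)
    (q : ℕ) (α : Tup n ℤ) (R : ℝ) (v : V) (X : V → ℝ) : ℝ :=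
  ∑ x ∈ TX F G v (rx R X), if ∀ v, Cg q (x v) (α v) then Φ (sc X x) else 0

/-- The norming factor of the other coordinates. -/
noncomputable def Nv (a : V → ℕ) (v : V) (X : V → ℝ) : ℝ := ∏ u ∈ Finset.univ.erase v, X u ^ a u

theorem Nm_eq (a : V → ℕ) (v : V) (X : V → ℝ) : Nm a X = X v ^ a v * Nv a v X := by
  unfold Nm Nv
  rw [← Finset.mul_prod_erase Finset.univ _ (Finset.mem_univ v)]

theorem Nv_update (a : V → ℕ) (v : V) (X : V → ℝ) (ρ : ℝ) : Nv a v (update X v ρ) = Nv a v X := by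
  unfold Nv
  refine Finset.prod_congr rfl fun u hu => ?_
  rw [update_of_ne (Finset.ne_of_mem_erase hu)]

theorem Nm_upd (a : V → ℕ) (v : V) (X : V → ℝ) (ρ : ℝ) :
    Nm a (update X v ρ) = ρ ^ a v * Nv a v X := by
  rw [Nm_eq a v, update_self, Nv_update]

theorem Nv_pos {a : V → ℕ} (v : V) {X : V → ℝ} (hX : ∀ u, 0 < X u) : 0 < Nv a v X :=
  Finset.prod_pos fun u _ => pow_pos (hX u) _

theorem Nm_rx (a : V → ℕ) (R : ℝ) (X : V → ℝ) : Nm a (rx R X) = R ^ (∑ v, a v) * Nm a X := by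
  unfold Nm rx
  rw [← Finset.prod_pow_eq_pow_sum, ← Finset.prod_mul_distrib]
  exact Finset.prod_congr rfl fun v _ => mul_pow _ _ _

theorem Nv_rx (a : V → ℕ) (v : V) (R : ℝ) (X : V → ℝ) :
    Nv a v (rx R X) = R ^ (∑ u ∈ Finset.univ.erase v, a u) * Nv a v X := by
  unfold Nv rx
  rw [← Finset.prod_pow_eq_pow_sum, ← Finset.prod_mul_distrib]
  exact Finset.prod_congr rfl fun v _ => mul_pow _ _ _

theorem rx_nonneg {R : ℝ} (hR : 0 ≤ R) {X : V → ℝ} (hX : ∀ v, 0 ≤ X v) (v : V) : 0 ≤ rx R X v :=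
  mul_nonneg hR (hX v)

theorem rx_one {R : ℝ} (hR : 1 ≤ R) {X : V → ℝ} (hX : ∀ v, 1 ≤ X v) (v : V) : 1 ≤ rx R X v := by
  have := hX v
  unfold rx
  nlinarith

/-- Removing the bad families. -/
theorem NN_NT {Φ : Tup n ℝ → ℝ} (hΦ : ∀ X, |Φ X| ≤ 1) {q : ℕ} {α : Tup n ℤ} {R : ℝ} {v : V}
    {X : V → ℝ} :
    |NT F G Φ q α R v X - NN F G Φ q α R X| ≤
      ((TX F G v (rx R X) \ UX F G (rx R X)).card : ℝ) := by
  classical
  have hsub : UX F G (rx R X) ⊆ TX F G v (rx R X) := UX_sub_TX v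
  unfold NT NN
  rw [← Finset.sum_sdiff hsub, add_sub_cancel_right]
  refine (Finset.abs_sum_le_sum_abs _ _).trans ?_
  rw [← nsmul_one, ← Finset.sum_const]
  refine Finset.sum_le_sum fun p _ => ?_
  split_ifs
  · exact hΦ _
  · rw [abs_zero]
    norm_num

theorem NN_le {Φ : Tup n ℝ → ℝ} (hΦ : ∀ X, |Φ X| ≤ 1) {q : ℕ} {α : Tup n ℤ} {R : ℝ}
    {X : V → ℝ} : |NN F G Φ q α R X| ≤ ((UX F G (rx R X)).card : ℝ) := by
  classical
  unfold NN
  refine (Finset.abs_sum_le_sum_abs _ _).trans ?_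
  rw [← nsmul_one, ← Finset.sum_const]
  refine Finset.sum_le_sum fun p _ => ?_
  split_ifs
  · exact hΦ _
  · rw [abs_zero]
    norm_num

theorem TT_le (hE : Eng F G a D) {Φ : Tup n ℝ → ℝ} (hΦ : ∀ X, |Φ X| ≤ 1) {R : ℝ}
    (hR : 1 ≤ R) (B : ℝ) : ∃ C : ℝ, 0 ≤ C ∧ ∀ (q : ℕ) (α : Tup n ℤ) (v : V) (X : V → ℝ),
      (∀ u, 1 ≤ X u) → (∀ u, u ≠ v → X u ≤ B) → |TT F G a Φ q α R X| ≤ C := by
  classical
  obtain ⟨C₁, hC₁, hup⟩ := up_eps hE one_pos
  obtain ⟨C₂, hC₂, htot⟩ := tot_eps hE one_pos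
  obtain ⟨B', hB'⟩ : ∃ B' : ℝ, B' = R * max 1 B := ⟨_, rfl⟩
  have hB1 : 1 ≤ max 1 B := le_max_left _ _
  have hB'1 : 1 ≤ B' := by rw [hB']; nlinarith
  refine ⟨R ^ (∑ v, a v) * ((C₁ + C₂) * B'), by positivity, ?_⟩
  intro q α v X hX hXB
  have hX0 := pos_of_one hX
  have hN := Nm_pos (a := a) hX0
  have hNr : Nm a (rx R X) = R ^ (∑ v, a v) * Nm a X := Nm_rx a R X
  have h1 : ((UX F G (rx R X)).card : ℝ) ≤ (C₁ + C₂) * B' * Nm a (rx R X) := by
    have hr1 := rx_one hR hX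
    have hNr0 := Nm_pos (a := a) (pos_of_one hr1)
    rcases le_total (X v) (max 1 B) with h | h
    · have h2 := hup B' (rx R X) hB'1 hr1 (by
        intro u
        unfold rx
        rw [hB']
        by_cases hu : u = v
        · rw [hu]
          gcongr
        · gcongr
          exact (hXB u hu).trans (le_max_right _ _))
      unfold pp at h2
      rw [div_le_iff₀ hNr0, Real.rpow_one] at h2
      refine h2.trans ?_
      gcongr
      linarith
    · have h2 := htot v (rx R X) B' hr1 hB'1 (by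
        intro u hu
        unfold rx
        rw [hB']
        gcongr
        exact (hXB u hu).trans (le_max_right _ _)) (by
        unfold rx
        calc B' ^ D ≤ B' ^ (D + 1) := pow_le_pow_right₀ hB'1 (Nat.le_succ D)
          _ ≤ (R * X v) ^ (D + 1) := by
            rw [hB']
            gcongr)
      rw [Real.rpow_one] at h2
      have h3 : ((UX F G (rx R X)).card : ℝ) ≤ (TX F G v (rx R X)).card := by
        exact_mod_cast Finset.card_le_card (UX_sub_TX v)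
      calc ((UX F G (rx R X)).card : ℝ) ≤ C₂ * Nm a (rx R X) * B' := h3.trans h2
        _ ≤ (C₁ + C₂) * Nm a (rx R X) * B' := by gcongr; linarith
        _ = _ := by ring
  unfold TT
  rw [abs_div, abs_of_pos hN, div_le_iff₀ hN]
  calc |NN F G Φ q α R X| ≤ (UX F G (rx R X)).card := NN_le hΦ
    _ ≤ (C₁ + C₂) * B' * Nm a (rx R X) := h1
    _ = _ := by
      rw [hNr]
      ring

open Classical in
/-- The sum over the fibres. -/
theorem NT_eq (hE : Eng F G a D) {Φ : Tup n ℝ → ℝ} {q : ℕ} {α : Tup n ℤ} {R : ℝ} (hR : 0 ≤ R)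
    (v : V) {X : V → ℝ} (hX : ∀ u, 0 ≤ X u) (hv : 0 < X v) :
    NT F G Φ q α R v X = X v ^ a v * ∑ y ∈ BX F G v (rx R X),
      if ∀ u, u ≠ v → Cg q (y u) (α u) then
        gS (lat (der F v y)) q (α v) (fun Z => Φ (update (sc X y) v Z)) R (a v) (X v) else 0 := by
  have hrX : ∀ u, 0 ≤ rx R X u := rx_nonneg hR hX
  have hRv : 0 ≤ R * X v := by positivity
  unfold NT
  rw [sum_TX hE.upd v hrX, Finset.mul_sum]
  refine Finset.sum_congr rfl fun y _ => ?_
  have hiff : ∀ z : Fin (n v) → ℤ, (∀ u, Cg q (update y v z u) (α u)) ↔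
      (∀ u, u ≠ v → Cg q (y u) (α u)) ∧ Cg q z (α v) := by
    intro z
    constructor
    · intro h
      refine ⟨fun u hu => ?_, ?_⟩
      · have := h u
        rwa [update_of_ne hu] at this
      · have := h v
        rwa [update_self] at this
    · rintro ⟨h1, h2⟩ u
      by_cases hu : u = v
      · subst hu
        rwa [update_self]
      · rw [update_of_ne hu]
        exact h1 u hu
  have hsc : ∀ z : Fin (n v) → ℤ, sc X (update y v z) = update (sc X y) v ((X v)⁻¹ • ic z) := by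
    intro z
    funext u
    unfold sc
    by_cases hu : u = v
    · subst hu
      rw [update_self, update_self]
    · rw [update_of_ne hu, update_of_ne hu]
  by_cases hy : ∀ u, u ≠ v → Cg q (y u) (α u)
  · rw [if_pos hy]
    unfold gS
    rw [← mul_assoc, mul_inv_cancel₀ (by positivity), one_mul]
    have h1 : Lq (lat (der F v y)) q (α v) (R * X v) =
        (FX F v y (rx R X v)).filter fun z => Cg q z (α v) := by
      ext z
      rw [mem_Lq hRv, Finset.mem_filter, mem_FX (hrX v)]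
      unfold rx
      tauto
    rw [h1, Finset.sum_filter]
    refine Finset.sum_congr rfl fun z _ => ?_
    rw [hsc]
    by_cases hz : Cg q z (α v)
    · rw [if_pos ((hiff z).2 ⟨hy, hz⟩), if_pos hz]
    · rw [if_neg hz, if_neg fun h => hz ((hiff z).1 h).2]
  · rw [if_neg hy, mul_zero]
    apply Finset.sum_eq_zero
    intro z _
    rw [if_neg fun h => hy ((hiff z).1 h).1]

/-- The sum of the numbers of points of the fibres. -/
theorem sum_nw (hE : Eng F G a D) (v : V) {X : V → ℝ} (hX : ∀ u, 0 ≤ X u) {B : ℝ} (hB : 0 ≤ B) :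
    ∑ y ∈ BX F G v X, nw (der F v y) B = (TX F G v (update X v B)).card := by
  rw [card_TX hE.upd v (update_nonneg hX v hB), BX_update, update_self]
  rfl

/-- The sum of the errors. -/
theorem Wd_sum (hE : Eng F G a D) {A R : ℝ} (hA : 0 ≤ A) (hR : 4 ≤ R) (q : ℕ) :
    ∃ C : ℝ, 0 ≤ C ∧ ∀ (v : V) (X : V → ℝ) (u L κ : ℝ), R ≤ u → L = u ^ (12 * (D + 1)) →
    L ≤ 4 * κ → (∀ w, 1 ≤ X w) → (∀ w, w ≠ v → X w ≤ L) →
    ∑ y ∈ BX F G v (rx R X), Wd (a v) (der F v y) q A R (L / u ^ 2) (L / u ^ 6) κ ≤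
      C * Nv a v X / u := by
  obtain ⟨C, hC, htot⟩ := tot_eps hE (th_pos D)
  -- one vertex
  have key : ∀ v : V, ∃ C' : ℝ, 0 ≤ C' ∧ ∀ (X : V → ℝ) (u L κ : ℝ), R ≤ u →
    L = u ^ (12 * (D + 1)) → L ≤ 4 * κ → (∀ w, 1 ≤ X w) → (∀ w, w ≠ v → X w ≤ L) →
    ∑ y ∈ BX F G v (rx R X), Wd (a v) (der F v y) q A R (L / u ^ 2) (L / u ^ 6) κ ≤
      C' * Nv a v X / u := by
    intro v
    obtain ⟨b, hb⟩ : ∃ b, b = a v := ⟨_, rfl⟩
    have hb2 : 2 ≤ b := by rw [hb]; exact hE.two v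
    obtain ⟨S, hS⟩ : ∃ S : ℕ, S = ∑ u ∈ Finset.univ.erase v, a u := ⟨_, rfl⟩
    obtain ⟨C₁, hC₁⟩ : ∃ C₁ : ℝ, C₁ = 4 * R + 4 * (b * q) := ⟨_, rfl⟩
    have hC₁0 : 0 ≤ C₁ := by rw [hC₁]; positivity
    obtain ⟨D₁, hD₁⟩ : ∃ D₁ : ℝ, D₁ = 2 ^ (b + 1) * (A * (b * q)) * (C * C₁ ^ b * R ^ S * R) * 4 :=
      ⟨_, rfl⟩
    have hD₁0 : 0 ≤ D₁ := by rw [hD₁]; positivity
    obtain ⟨D₂, hD₂⟩ : ∃ D₂ : ℝ, D₂ = (3 * R) ^ b * 3 ^ (b - 1) * (C * R ^ S * R) := ⟨_, rfl⟩
    have hD₂0 : 0 ≤ D₂ := by rw [hD₂]; positivity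
    refine ⟨D₁ + D₂, by positivity, ?_⟩
    intro X u L κ hu hL hκ hX hXL
    rw [← hb]
    have hR0 : 0 < R := by linarith
    have hR1 : 1 ≤ R := by linarith
    have hu1 : 1 ≤ u := by linarith
    have hu0 : 0 < u := by linarith
    have hL1 : 1 ≤ L := by rw [hL]; exact one_le_pow₀ hu1
    have hL0 : 0 < L := by linarith
    have hκ0 : 0 < κ := by linarith
    have huL : L ^ th D = u := by
      rw [hL, ← Real.rpow_natCast u, ← Real.rpow_mul hu0.le]
      unfold th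
      push_cast
      rw [mul_one_div_cancel (by positivity), Real.rpow_one]
    have hRLth : (R * L) ^ th D ≤ R * u := by
      rw [Real.mul_rpow hR0.le hL0.le, huL]
      gcongr
      calc R ^ th D ≤ R ^ (1 : ℝ) := Real.rpow_le_rpow_of_exponent_le (by linarith) (th_le_one D)
        _ = R := Real.rpow_one R
    have hu2 : 1 ≤ u ^ 2 := one_le_pow₀ hu1
    have hu6 : 1 ≤ u ^ 6 := one_le_pow₀ hu1
    set σ : ℝ := L / u ^ 2 with hσ
    set ρ : ℝ := L / u ^ 6 with hρ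
    have hσ0 : 0 < σ := by positivity
    have hσL : σ ≤ L := div_le_self hL0.le hu2
    have hρ1 : 1 ≤ ρ := by
      rw [hρ, le_div_iff₀ (by positivity), one_mul, hL]
      exact pow_le_pow_right₀ hu1 (by omega)
    have hρ0 : 0 < ρ := by linarith
    have hRL : 1 ≤ R * L := by nlinarith
    have hrX1 : ∀ w, 1 ≤ rx R X w := rx_one hR1 hX
    have hrX0 : ∀ w, 0 ≤ rx R X w := nonneg_of_one hrX1
    have hrXL : ∀ w, w ≠ v → rx R X w ≤ R * L := by
      intro w hw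
      unfold rx
      have := hXL w hw
      gcongr
    have hN0 := Nv_pos (a := a) v (pos_of_one hX)
    -- the count
    have hcount : ∀ B : ℝ, 1 ≤ B → (R * L) ^ D ≤ B ^ (D + 1) →
        ((∑ y ∈ BX F G v (rx R X), nw (der F v y) B : ℕ) : ℝ) ≤
          C * (B ^ b * (R ^ S * Nv a v X)) * (R * u) := by
      intro B hB hBL
      rw [sum_nw hE v hrX0 (by linarith)]
      have e4 := htot v (update (rx R X) v B) (R * L) (one_update hrX1 v hB) hRL (by
        intro w hw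
        rw [update_of_ne hw]
        exact hrXL w hw) (by
        rw [update_self]
        exact hBL)
      rw [Nm_upd, Nv_rx, ← hb, ← hS] at e4
      refine e4.trans ?_
      gcongr
    -- the first sum
    have h1 : ((∑ y ∈ BX F G v (rx R X), nw (der F v y) (2 * R * κ + b * (q * σ)) : ℕ) : ℝ) ≤
        C * ((C₁ * κ) ^ b * (R ^ S * Nv a v X)) * (R * u) := by
      have e1 : 2 * R * κ + b * (q * σ) ≤ C₁ * κ := by
        rw [hC₁]
        have h2 : (b : ℝ) * (q * σ) ≤ b * (q * (4 * κ)) := by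
          gcongr
          linarith
        nlinarith
      have e2 : ∑ y ∈ BX F G v (rx R X), nw (der F v y) (2 * R * κ + b * (q * σ)) ≤
          ∑ y ∈ BX F G v (rx R X), nw (der F v y) (C₁ * κ) :=
        Finset.sum_le_sum fun y _ => nw_mono (by positivity) e1
      have e3 : R * L ≤ C₁ * κ := by
        rw [hC₁]
        have : (0 : ℝ) ≤ 4 * (b * q) * κ := by positivity
        nlinarith
      calc ((∑ y ∈ BX F G v (rx R X), nw (der F v y) (2 * R * κ + b * (q * σ)) : ℕ) : ℝ)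
          ≤ ((∑ y ∈ BX F G v (rx R X), nw (der F v y) (C₁ * κ) : ℕ) : ℝ) := by exact_mod_cast e2
        _ ≤ _ := hcount (C₁ * κ) (hRL.trans e3) (by
          calc (R * L) ^ D ≤ (R * L) ^ (D + 1) := pow_le_pow_right₀ hRL (by omega)
            _ ≤ (C₁ * κ) ^ (D + 1) := by gcongr)
    have h2 : ((∑ y ∈ BX F G v (rx R X), nw (der F v y) ρ : ℕ) : ℝ) ≤
        C * (ρ ^ b * (R ^ S * Nv a v X)) * (R * u) := by
      refine hcount ρ hρ1 ?_
      rw [hρ, div_pow, le_div_iff₀ (by positivity), mul_pow, ← pow_mul]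
      have e5 : L ^ (D + 1) = L ^ D * (u ^ (6 * (D + 1)) * u ^ (6 * (D + 1))) := by
        rw [pow_succ]
        congr 1
        rw [← pow_add, hL]
        congr 1
        omega
      rw [e5]
      have e6 : R ^ D ≤ u ^ (6 * (D + 1)) := by
        calc R ^ D ≤ u ^ D := by gcongr
          _ ≤ u ^ (6 * (D + 1)) := pow_le_pow_right₀ hu1 (by omega)
      calc R ^ D * L ^ D * u ^ (6 * (D + 1)) ≤ u ^ (6 * (D + 1)) * L ^ D * u ^ (6 * (D + 1)) := by
            gcongr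
        _ = _ := by ring
    have h3 : ∑ y ∈ BX F G v (rx R X), Wd b (der F v y) q A R σ ρ κ =
        2 ^ (b + 1) * ((κ ^ b)⁻¹ * (((∑ y ∈ BX F G v (rx R X),
          nw (der F v y) (2 * R * κ + b * (q * σ)) : ℕ) : ℝ) * (A * (b * (q * σ)) / κ))) +
        (3 * R) ^ b * 3 ^ (b - 1) * (σ⁻¹ * (ρ ^ (b - 1))⁻¹ *
          ((∑ y ∈ BX F G v (rx R X), nw (der F v y) ρ : ℕ) : ℝ)) := by
      unfold Wd
      rw [Finset.sum_add_distrib]
      push_cast
      congr 1
      · rw [Finset.sum_mul, Finset.mul_sum, Finset.mul_sum]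
      · rw [Finset.mul_sum, Finset.mul_sum]
    rw [h3]
    have h4 : 2 ^ (b + 1) * ((κ ^ b)⁻¹ * (((∑ y ∈ BX F G v (rx R X),
          nw (der F v y) (2 * R * κ + b * (q * σ)) : ℕ) : ℝ) * (A * (b * (q * σ)) / κ))) ≤
        D₁ * Nv a v X / u := by
      have e1 : σ / κ ≤ 4 / u ^ 2 := by
        rw [hσ, div_div, div_le_div_iff₀ (by positivity) (by positivity)]
        nlinarith [sq_nonneg u]
      calc 2 ^ (b + 1) * ((κ ^ b)⁻¹ * (((∑ y ∈ BX F G v (rx R X),
          nw (der F v y) (2 * R * κ + b * (q * σ)) : ℕ) : ℝ) * (A * (b * (q * σ)) / κ)))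
          ≤ 2 ^ (b + 1) * ((κ ^ b)⁻¹ * (C * ((C₁ * κ) ^ b * (R ^ S * Nv a v X)) * (R * u) *
            (A * (b * (q * σ)) / κ))) := by gcongr
        _ = 2 ^ (b + 1) * (A * (b * q)) * (C * C₁ ^ b * R ^ S * R) * (Nv a v X * u) * (σ / κ) := by
            rw [mul_pow]
            field_simp
        _ ≤ 2 ^ (b + 1) * (A * (b * q)) * (C * C₁ ^ b * R ^ S * R) * (Nv a v X * u) *
              (4 / u ^ 2) := by
            gcongr
        _ = D₁ * Nv a v X / u := by
            rw [hD₁]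
            field_simp
    have h5 : (3 * R) ^ b * 3 ^ (b - 1) * (σ⁻¹ * (ρ ^ (b - 1))⁻¹ *
          ((∑ y ∈ BX F G v (rx R X), nw (der F v y) ρ : ℕ) : ℝ)) ≤ D₂ * Nv a v X / u := by
      have e0 : ρ ^ b = ρ ^ (b - 1) * ρ := by
        rw [← pow_succ]
        congr 1
        omega
      have e1 : ρ / σ ≤ 1 / u ^ 2 := by
        rw [hρ, hσ, div_div_div_cancel_left' _ _ hL0.ne',
          div_le_div_iff₀ (by positivity) (by positivity)]
        calc u ^ 2 * u ^ 2 = u ^ 4 := by ring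
          _ ≤ u ^ 6 := pow_le_pow_right₀ hu1 (by norm_num)
          _ = 1 * u ^ 6 := by ring
      calc (3 * R) ^ b * 3 ^ (b - 1) * (σ⁻¹ * (ρ ^ (b - 1))⁻¹ *
          ((∑ y ∈ BX F G v (rx R X), nw (der F v y) ρ : ℕ) : ℝ))
          ≤ (3 * R) ^ b * 3 ^ (b - 1) * (σ⁻¹ * (ρ ^ (b - 1))⁻¹ *
            (C * (ρ ^ b * (R ^ S * Nv a v X)) * (R * u))) := by gcongr
        _ = D₂ * (Nv a v X * u) * (ρ / σ) := by
            rw [hD₂, e0]
            field_simp
        _ ≤ D₂ * (Nv a v X * u) * (1 / u ^ 2) := by gcongr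
        _ = D₂ * Nv a v X / u := by field_simp
    calc _ ≤ D₁ * Nv a v X / u + D₂ * Nv a v X / u := add_le_add h4 h5
      _ = _ := by ring
  choose C' hC' h using key
  refine ⟨∑ v, C' v, Finset.sum_nonneg fun v _ => hC' v, ?_⟩
  intro v X u L κ hu hL hκ hX hXL
  have hu0 : 0 < u := by linarith
  have hN0 := Nv_pos (a := a) v (pos_of_one hX)
  refine (h v X u L κ hu hL hκ hX hXL).trans ?_
  have : C' v ≤ ∑ v, C' v := Finset.single_le_sum (fun v _ => hC' v) (Finset.mem_univ v)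
  gcongr

end Pool.Agent.N852.MM
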