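import Mathlib
import Pool.Agent.N852.MM.Sw

/-!
Systems of multilinear equations: the change of one scale, continued.
-/

namespace Pool.Agent.N852.MM

set_option linter.unusedSectionVars false

open Matrix Module Filter Topology Function
open Pool.Agent.N852 (ic ic_add ic_sub ic_neg Cg)
open Pool.Agent.N852.DD (Bl mem_Bl card_Bl norm_ic_ge Bl_mono zero_mem_Bl dbl Lq mem_Lq gS er cmp
  card_basis lat_sat th th_pos th_le_one pow_th one_le_th)
open Pool.Agent.H548.BL (lat orth mem_lat mem_orth rc sep_card)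

variable {V : Type} [DecidableEq V] [Fintype V] {n : V → ℕ} {k : ℕ}
  {F : Sys n k} {G : V → Tup n ℤ → Prop} {a : V → ℕ} {D : ℕ}

theorem sc_update (X : V → ℝ) (v : V) (κ : ℝ) (y : Tup n ℤ) (Z : Fin (n v) → ℝ) :
    update (sc (update X v κ) y) v Z = update (sc X y) v Z := by
  funext u
  by_cases hu : u = v
  · subst hu
    rw [update_self, update_self]
  · rw [update_of_ne hu, update_of_ne hu]
    unfold sc
    rw [update_of_ne hu]

theorem sc_eq (X : V → ℝ) (y : Tup n ℤ) : sc X y = fun v => (X v)⁻¹ • iT y v := rfl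

theorem rx_update (R : ℝ) (X : V → ℝ) (v : V) (κ : ℝ) :
    rx R (update X v κ) = update (rx R X) v (R * κ) := by
  funext u
  unfold rx
  by_cases hu : u = v
  · subst hu
    rw [update_self, update_self]
  · rw [update_of_ne hu, update_of_ne hu]

/-- A point of the real fibre over the scaled family. -/
theorem inc_fibre {v : V} {X : V → ℝ} {y : Tup n ℤ} (hy : IncN F v y) {Z : Fin (n v) → ℝ}
    (hZ : Z ∈ orth (der F v y)) : Inc F (update (sc X y) v Z) := by
  have h1 : Inc F (update (iT y) v Z) := by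
    rw [inc_update_iff]
    exact ⟨incN_iT.2 hy, mem_orth_der.1 hZ⟩
  have h2 := inc_smul h1 (update (fun u => (X u)⁻¹) v 1)
  convert h2 using 1
  funext u
  by_cases hu : u = v
  · subst hu
    rw [update_self, update_self, update_self, one_smul]
  · rw [update_of_ne hu, update_of_ne hu, update_of_ne hu]
    rfl

/-- **The change of one scale.** -/
theorem sw (hE : Eng F G a D) {Φ : Tup n ℝ → ℝ} {A R : ℝ} (hΦ : WT F Φ A R) {q : ℕ} (hq : q ≠ 0)
    (α : Tup n ℤ) : ∃ C : ℝ, 0 ≤ C ∧ ∀ (v : V) (X : V → ℝ) (K K' L : ℝ), (∀ u, 1 ≤ X u) →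
    1 ≤ K → 1 ≤ K' → 1 ≤ L → (∀ u, u ≠ v → X u ≤ L) → L ≤ 4 * K → L ≤ 4 * K' →
    |TT F G a Φ q α R (update X v K) - TT F G a Φ q α R (update X v K')| ≤ C / L ^ th D := by
  classical
  have hR4 := hΦ.R4
  have hR0 : 0 < R := by linarith
  have hR1 : 1 ≤ R := by linarith
  obtain ⟨C, hC, hWd⟩ := Wd_sum hE hΦ.A0 hΦ.R4 q
  obtain ⟨C₁, hC₁, hdeg⟩ := hE.deg
  obtain ⟨E, hE0, hTT⟩ := TT_le hE hΦ.le_one hR1 (R ^ (12 * (D + 1)))
  obtain ⟨D', hD'⟩ : ∃ D' : ℝ, D' = C₁ * R ^ (∑ v, a v) * 4 ^ (D + 1) := ⟨_, rfl⟩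
  have hD'0 : 0 ≤ D' := by rw [hD']; positivity
  refine ⟨2 * E * R + (2 * C + 2 * D'), by positivity, ?_⟩
  intro v X K K' L hX hK hK' hL hXL hLK hLK'
  have hK0 : 0 < K := by linarith
  have hK0' : 0 < K' := by linarith
  have hL0 : 0 < L := by linarith
  have hX0 := pos_of_one hX
  obtain ⟨u, hu⟩ : ∃ u : ℝ, u = L ^ th D := ⟨_, rfl⟩
  rw [← hu]
  have hLu : L = u ^ (12 * (D + 1)) := by rw [hu, pow_th hL0.le]
  have hu1 : 1 ≤ u := by rw [hu]; exact one_le_th hL D
  have hu0 : 0 < u := by linarith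
  rcases lt_or_ge u R with huR | huR
  · -- bounded `L`
    have hLR : L ≤ R ^ (12 * (D + 1)) := by
      rw [hLu]
      gcongr
    have hb : ∀ κ : ℝ, 1 ≤ κ → |TT F G a Φ q α R (update X v κ)| ≤ E := by
      intro κ hκ
      refine hTT q α v (update X v κ) (one_update hX v hκ) ?_
      intro w hw
      rw [update_of_ne hw]
      exact (hXL w hw).trans hLR
    have h1 := hb K hK
    have h2 := hb K' hK'
    have h3 := abs_sub (TT F G a Φ q α R (update X v K)) (TT F G a Φ q α R (update X v K'))
    have h4 : 2 * E ≤ 2 * E * R / u := by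
      rw [le_div_iff₀ hu0]
      gcongr
    have h5 : 0 ≤ (2 * C + 2 * D') / u := by positivity
    rw [add_div]
    linarith
  · have hRL : 0 ≤ R * L := by positivity
    -- removing the bad families
    have hdegr : ∀ κ : ℝ, 1 ≤ κ → L ≤ 4 * κ →
        |NT F G Φ q α R v (update X v κ) / Nm a (update X v κ) -
        TT F G a Φ q α R (update X v κ)| ≤ D' / u := by
      intro κ hκ hLκ
      have hκ0 : 0 < κ := by linarith
      have hY1 := one_update hX v hκ
      have hN := Nm_pos (a := a) (pos_of_one hY1)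
      have h1 := NN_NT (F := F) (G := G) hΦ.le_one (q := q) (α := α) (R := R) (v := v)
        (X := update X v κ)
      have h2 := hdeg v (rx R (update X v κ)) 4 (rx_one hR1 hY1) (by norm_num) (by
        intro w
        rw [rx_update, update_self]
        by_cases hw : w = v
        · rw [hw, update_self]
          have : 0 < R * κ := by positivity
          linarith
        · rw [update_of_ne hw]
          unfold rx
          have := hXL w hw
          nlinarith)
      have h3 : rx R (update X v κ) v = R * κ := by rw [rx_update, update_self]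
      rw [h3, Nm_rx] at h2
      unfold TT
      rw [← sub_div, abs_div, abs_of_pos hN, div_le_iff₀ hN]
      have e1 : 4 ^ D / (R * κ) ≤ 4 ^ (D + 1) / u := by
        rw [div_le_div_iff₀ (by positivity) hu0, pow_succ]
        have e4 : u ≤ L := by
          rw [hLu]
          exact le_self_pow₀ hu1 (by omega)
        have e5 : u ≤ 4 * (R * κ) := by nlinarith
        calc (4 : ℝ) ^ D * u ≤ 4 ^ D * (4 * (R * κ)) := by gcongr
          _ = _ := by ring
      calc |NT F G Φ q α R v (update X v κ) - NN F G Φ q α R (update X v κ)|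
          ≤ ((TX F G v (rx R (update X v κ)) \ UX F G (rx R (update X v κ))).card : ℝ) := h1
        _ ≤ C₁ * (R ^ (∑ v, a v) * Nm a (update X v κ)) * (4 ^ D / (R * κ)) := h2
        _ ≤ C₁ * (R ^ (∑ v, a v) * Nm a (update X v κ)) * (4 ^ (D + 1) / u) := by gcongr
        _ = D' / u * Nm a (update X v κ) := by
            rw [hD']
            ring
    -- the sums over the fibres
    have hσρ : L / u ^ 6 ≤ L / u ^ 2 := by
      gcongr
      norm_num
    have hNT : ∀ κ : ℝ, 1 ≤ κ → NT F G Φ q α R v (update X v κ) / Nm a (update X v κ) =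
        (∑ y ∈ BX F G v (rx R X), if ∀ u, u ≠ v → Cg q (y u) (α u) then
        gS (lat (der F v y)) q (α v) (fun Z => Φ (update (sc X y) v Z)) R (a v) κ else 0) /
          Nv a v X := by
      intro κ hκ
      have hκ0 : 0 < κ := by linarith
      rw [NT_eq hE hR0.le v (nonneg_of_one (one_update hX v hκ)) (by rw [update_self]; exact hκ0),
        Nm_upd, update_self, rx_update, BX_update, mul_div_mul_left _ _ (by positivity)]
      congr 1
      refine Finset.sum_congr rfl fun y _ => ?_
      simp only [sc_update]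
    have hNv := Nv_pos (a := a) v hX0
    have hsw : |NT F G Φ q α R v (update X v K) / Nm a (update X v K) -
        NT F G Φ q α R v (update X v K') / Nm a (update X v K')| ≤ 2 * C / u := by
      have hσR : ∀ κ : ℝ, 0 < κ → L ≤ 4 * κ → L / u ^ 2 ≤ R * κ := by
        intro κ hκ hLκ
        have : L / u ^ 2 ≤ L := div_le_self hL0.le (one_le_pow₀ hu1)
        nlinarith
      rw [hNT K hK, hNT K' hK', ← sub_div, ← Finset.sum_sub_distrib, abs_div,
        abs_of_pos hNv, div_le_iff₀ hNv]
      refine (Finset.abs_sum_le_sum_abs _ _).trans ?_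
      have hterm : ∀ y ∈ BX F G v (rx R X), |(if ∀ u, u ≠ v → Cg q (y u) (α u) then
          gS (lat (der F v y)) q (α v) (fun Z => Φ (update (sc X y) v Z)) R (a v) K else 0) -
          (if ∀ u, u ≠ v → Cg q (y u) (α u) then
          gS (lat (der F v y)) q (α v) (fun Z => Φ (update (sc X y) v Z)) R (a v) K' else 0)| ≤
          Wd (a v) (der F v y) q A R (L / u ^ 2) (L / u ^ 6) K +
            Wd (a v) (der F v y) q A R (L / u ^ 2) (L / u ^ 6) K' := by
        intro y hy
        rw [mem_BX (rx_nonneg hR0.le (nonneg_of_one hX))] at hy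
        obtain ⟨_, _, hy3, hy4, _⟩ := hy
        by_cases hc : ∀ u, u ≠ v → Cg q (y u) (α u)
        · rw [if_pos hc, if_pos hc]
          refine fibsw (hE.fin hy4) (by have := hE.two v; omega) hq (α v) hΦ.A0 hR0.le
            (fun Z hZ Z' hZ' => ?_) (fun Z hZ hZR => ?_) (fun Z => hΦ.le_one _)
            (by positivity) hσρ hK0 hK0' (hσR K hK0 hLK) (hσR K' hK0' hLK')
          · exact hΦ.lip v (sc X y) Z Z' (inc_fibre hy3 hZ) (inc_fibre hy3 hZ')
          · exact hΦ.supp _ v (inc_fibre hy3 hZ) (by rwa [update_self])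
        · rw [if_neg hc, if_neg hc, sub_zero, abs_zero]
          have hA0 := hΦ.A0
          unfold Wd
          positivity
      refine (Finset.sum_le_sum hterm).trans ?_
      rw [Finset.sum_add_distrib]
      have h1 := hWd v X u L K huR hLu hLK hX hXL
      have h2 := hWd v X u L K' huR hLu hLK' hX hXL
      calc _ ≤ C * Nv a v X / u + C * Nv a v X / u := add_le_add h1 h2
        _ = _ := by ring
    have h1 := hdegr K hK hLK
    have h2 := hdegr K' hK' hLK'
    have h3 : 0 ≤ 2 * E * R / u := by positivity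
    have h4 : (2 * E * R + (2 * C + 2 * D')) / u = 2 * E * R / u + (2 * C / u + 2 * (D' / u)) := by
      ring
    rw [h4]
    rw [abs_le] at h1 h2 hsw ⊢
    constructor <;> linarith [h1.1, h1.2, h2.1, h2.2, hsw.1, hsw.2]

/-- One dyadic step. -/
theorem tstep (hE : Eng F G a D) {Φ : Tup n ℝ → ℝ} {A R : ℝ} (hΦ : WT F Φ A R) {q : ℕ}
    (hq : q ≠ 0) (α : Tup n ℤ) : ∃ C : ℝ, 0 ≤ C ∧ ∀ (X : V → ℝ) (l : ℝ), (∀ u, 1 ≤ X u) →
    1 ≤ l → (∀ u, X u ≤ 2 * l) →
    |TT F G a Φ q α R X - TT F G a Φ q α R (fun u => min (X u) l)| ≤ C / l ^ th D := by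
  classical
  obtain ⟨C, hC, hsw⟩ := sw hE hΦ hq α
  have key : ∀ (S : Finset V) (X : V → ℝ) (l : ℝ), (∀ u, 1 ≤ X u) →
    1 ≤ l → (∀ u, X u ≤ 2 * l) →
    |TT F G a Φ q α R X - TT F G a Φ q α R (fun u => if u ∈ S then min (X u) l else X u)| ≤
      S.card * (C / l ^ th D) := by
    intro S
    induction S using Finset.induction_on with
    | empty =>
      intro X l _ _ _
      simp
    | insert v S hv ih =>
      intro X l hX hl hXl
      have hl0 : 0 < l := by linarith
      have hlth : 0 < l ^ th D := Real.rpow_pos_of_pos hl0 _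
      have h1 := ih X l hX hl hXl
      set Y : V → ℝ := fun u => if u ∈ S then min (X u) l else X u with hY
      have hY1 : ∀ u, 1 ≤ Y u := by
        intro u
        simp only [hY]
        split_ifs
        · exact le_min (hX u) hl
        · exact hX u
      have hY2 : ∀ u, Y u ≤ 2 * l := by
        intro u
        simp only [hY]
        split_ifs
        · exact (min_le_left _ _).trans (hXl u)
        · exact hXl u
      have hYv : Y v = X v := by
        simp only [hY]
        rw [if_neg hv]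
      have e1 : (fun u => if u ∈ insert v S then min (X u) l else X u) =
          update Y v (min (X v) l) := by
        funext u
        by_cases hu : u = v
        · subst hu
          rw [update_self, if_pos (Finset.mem_insert_self _ _)]
        · rw [update_of_ne hu]
          simp only [hY, Finset.mem_insert, hu, false_or]
      have h2 : |TT F G a Φ q α R Y - TT F G a Φ q α R (update Y v (min (X v) l))| ≤
          C / l ^ th D := by
        rcases le_total (X v) l with h | h
        · rw [min_eq_left h, ← hYv, update_eq_self, sub_self, abs_zero]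
          positivity
        · rw [min_eq_right h]
          have h3 := hsw v Y (X v) l (2 * l) hY1 (hX v) hl (by linarith) (fun u _ => hY2 u)
            (by linarith) (by linarith)
          rw [← hYv, update_eq_self] at h3
          refine h3.trans ?_
          apply div_le_div_of_nonneg_left hC hlth
          exact Real.rpow_le_rpow hl0.le (by linarith) (th_pos D).le
      rw [e1, Finset.card_insert_of_notMem hv]
      push_cast
      have h3 := abs_sub_le (TT F G a Φ q α R X) (TT F G a Φ q α R Y)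
        (TT F G a Φ q α R (update Y v (min (X v) l)))
      linarith
  refine ⟨Fintype.card V * C, by positivity, ?_⟩
  intro X l hX hl hXl
  have h1 := key Finset.univ X l hX hl hXl
  simp only [Finset.mem_univ, if_true] at h1
  rw [Finset.card_univ] at h1
  rwa [mul_div_assoc]

/-- **The limit.** -/
theorem TT_lim (hE : Eng F G a D) {Φ : Tup n ℝ → ℝ} {A R : ℝ} (hΦ : WT F Φ A R) {q : ℕ}
    (hq : q ≠ 0) (α : Tup n ℤ) : ∃ c C : ℝ, 0 ≤ C ∧ ∀ (X : V → ℝ) (μ : ℝ), 1 ≤ μ →
    (∀ u, μ ≤ X u) → |TT F G a Φ q α R X - c| ≤ C / μ ^ th D := by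
  classical
  obtain ⟨E, hE0, hst⟩ := tstep hE hΦ hq α
  -- powers of two
  set w : ℕ → ℝ := fun j => TT F G a Φ q α R (fun _ => 2 ^ j) with hw
  set r : ℝ := (2 ^ th D)⁻¹ with hr
  have h2th : 1 < (2 : ℝ) ^ th D := Real.one_lt_rpow (by norm_num) (th_pos D)
  have hr0 : 0 < r := by positivity
  have hr1 : r < 1 := inv_lt_one_of_one_lt₀ h2th
  have h1r : 0 < 1 - r := by linarith
  have hpow : ∀ j : ℕ, ((2 : ℝ) ^ j) ^ th D = (r ^ j)⁻¹ := by
    intro j
    rw [hr, inv_pow, inv_inv, ← Real.rpow_natCast, ← Real.rpow_natCast, ← Real.rpow_mul (by norm_num),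
      ← Real.rpow_mul (by norm_num), mul_comm]
  have hdiag : ∀ s t : ℝ, 1 ≤ s → s ≤ t → t ≤ 2 * s →
      |TT F G a Φ q α R (fun _ => t) - TT F G a Φ q α R (fun _ => s)| ≤ E / s ^ th D := by
    intro s t hs hst' hts
    have h1 := hst (fun _ => t) s (fun _ => hs.trans hst') hs (fun _ => hts)
    simp only [min_eq_right hst'] at h1
    exact h1
  have hw1 : ∀ j, dist (w j) (w (j + 1)) ≤ E * r ^ j := by
    intro j
    have h3 := hdiag (2 ^ j) (2 ^ (j + 1)) (one_le_pow₀ (by norm_num)) (by
      apply pow_le_pow_right₀ (by norm_num); omega) (by rw [pow_succ]; linarith)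
    rw [Real.dist_eq, abs_sub_comm]
    refine h3.trans (le_of_eq ?_)
    rw [hpow, div_inv_eq_mul]
  have hcau := cauchySeq_of_le_geometric r E hr1 hw1
  obtain ⟨c, hc⟩ := cauchySeq_tendsto_of_complete hcau
  have hw2 : ∀ j, dist (w j) c ≤ E * r ^ j / (1 - r) :=
    dist_le_of_le_geometric_of_tendsto r E hr1 hw1 hc
  -- truncation
  have htr : ∀ (X : V → ℝ) (μ : ℝ), 1 ≤ μ → (∀ u, μ ≤ X u) → ∀ N : ℕ,
      |TT F G a Φ q α R (fun u => min (X u) (μ * 2 ^ N)) - TT F G a Φ q α R (fun _ => μ)| ≤
        E / μ ^ th D * ∑ j ∈ Finset.range N, r ^ j := by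
    intro X μ hμ hX N
    have hμ0 : 0 < μ := by linarith
    induction N with
    | zero =>
      simp only [pow_zero, mul_one, Finset.range_zero, Finset.sum_empty, mul_zero]
      have : (fun u => min (X u) μ) = fun _ => μ := by
        funext u
        exact min_eq_right (hX u)
      rw [this, sub_self, abs_zero]
    | succ N ih =>
      have hp : (1 : ℝ) ≤ 2 ^ N := one_le_pow₀ (by norm_num)
      have hl : 1 ≤ μ * 2 ^ N := by nlinarith
      have hμN : μ ≤ μ * 2 ^ N := by nlinarith
      have h1 := hst (fun u => min (X u) (μ * 2 ^ (N + 1))) (μ * 2 ^ N) (by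
        intro u
        refine le_min (hμ.trans (hX u)) ?_
        rw [pow_succ]
        linarith) hl (by
        intro u
        refine (min_le_right _ _).trans (le_of_eq ?_)
        rw [pow_succ]
        ring)
      have e1 : (fun u => min (min (X u) (μ * 2 ^ (N + 1))) (μ * 2 ^ N)) =
          fun u => min (X u) (μ * 2 ^ N) := by
        funext u
        rw [min_assoc, min_eq_right (a := μ * 2 ^ (N + 1))]
        rw [pow_succ]
        nlinarith
      rw [e1] at h1
      have e2 : E / (μ * 2 ^ N) ^ th D = E / μ ^ th D * r ^ N := by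
        rw [Real.mul_rpow hμ0.le (by positivity), hpow]
        field_simp
      rw [e2] at h1
      rw [Finset.sum_range_succ, mul_add]
      have h3 := abs_sub_le (TT F G a Φ q α R (fun u => min (X u) (μ * 2 ^ (N + 1))))
        (TT F G a Φ q α R (fun u => min (X u) (μ * 2 ^ N))) (TT F G a Φ q α R (fun _ => μ))
      linarith
  refine ⟨c, E * (1 - r)⁻¹ + (E / (1 - r) + E) * r⁻¹, by positivity, ?_⟩
  intro X μ hμ1 hX
  have hμ0 : 0 < μ := by linarith
  have hμth : 0 < μ ^ th D := Real.rpow_pos_of_pos hμ0 _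
  -- to the diagonal
  have h3 : |TT F G a Φ q α R X - TT F G a Φ q α R (fun _ => μ)| ≤ E * (1 - r)⁻¹ / μ ^ th D := by
    obtain ⟨N, hN⟩ : ∃ N : ℕ, ∀ u, X u ≤ μ * 2 ^ N := by
      obtain ⟨N, hN⟩ := pow_unbounded_of_one_lt (∑ u, X u) (by norm_num : (1 : ℝ) < 2)
      refine ⟨N, fun u => ?_⟩
      have h4 : X u ≤ ∑ u, X u := Finset.single_le_sum (f := X)
        (fun u _ => by linarith [hX u]) (Finset.mem_univ u)
      have : (0 : ℝ) < 2 ^ N := by positivity
      nlinarith
    have h4 := htr X μ hμ1 hX N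
    have e1 : (fun u => min (X u) (μ * 2 ^ N)) = X := by
      funext u
      exact min_eq_left (hN u)
    rw [e1] at h4
    refine h4.trans ?_
    have h5 : ∑ j ∈ Finset.range N, r ^ j ≤ (1 - r)⁻¹ := by
      rw [← tsum_geometric_of_lt_one hr0.le hr1]
      exact (summable_geometric_of_lt_one hr0.le hr1).sum_le_tsum _ fun j _ => by positivity
    calc E / μ ^ th D * ∑ j ∈ Finset.range N, r ^ j ≤ E / μ ^ th D * (1 - r)⁻¹ := by gcongr
      _ = _ := by ring
  -- to a power of two
  obtain ⟨j, hj1, hj2⟩ := exists_nat_pow_near hμ1 (by norm_num : (1 : ℝ) < 2)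
  have h4 := hdiag (2 ^ j) μ (one_le_pow₀ (by norm_num)) hj1 (by
    rw [pow_succ] at hj2
    linarith)
  rw [hpow, div_inv_eq_mul] at h4
  have h5 := hw2 j
  rw [Real.dist_eq] at h5
  have h6 : r ^ j ≤ r⁻¹ / μ ^ th D := by
    rw [le_div_iff₀ hμth]
    have h7 : μ ^ th D ≤ (2 ^ (j + 1)) ^ th D := Real.rpow_le_rpow hμ0.le hj2.le (th_pos D).le
    rw [hpow] at h7
    calc r ^ j * μ ^ th D ≤ r ^ j * (r ^ (j + 1))⁻¹ := by gcongr
      _ = r⁻¹ := by
        rw [pow_succ]
        field_simp
  have h7 : |TT F G a Φ q α R X - c| ≤ |TT F G a Φ q α R X - TT F G a Φ q α R (fun _ => μ)| +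
      |TT F G a Φ q α R (fun _ => μ) - w j| + |w j - c| := by
    have e1 := abs_sub_le (TT F G a Φ q α R X) (TT F G a Φ q α R (fun _ => μ)) c
    have e2 := abs_sub_le (TT F G a Φ q α R (fun _ => μ)) (w j) c
    linarith
  have h8 : E * r ^ j / (1 - r) + E * r ^ j ≤ (E / (1 - r) + E) * r⁻¹ / μ ^ th D := by
    calc E * r ^ j / (1 - r) + E * r ^ j = (E / (1 - r) + E) * r ^ j := by ring
      _ ≤ (E / (1 - r) + E) * (r⁻¹ / μ ^ th D) := by gcongr
      _ = _ := by ring
  have h9 : |TT F G a Φ q α R (fun _ => μ) - w j| ≤ E * r ^ j := h4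
  calc |TT F G a Φ q α R X - c| ≤ E * (1 - r)⁻¹ / μ ^ th D + E * r ^ j + E * r ^ j / (1 - r) := by
        linarith
    _ ≤ E * (1 - r)⁻¹ / μ ^ th D + (E / (1 - r) + E) * r⁻¹ / μ ^ th D := by linarith
    _ = _ := by rw [add_div]

end Pool.Agent.N852.MM
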