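import Mathlib
import Pool.Agent.N852.MM.Sw2

/-!
Systems of multilinear equations: the limit for continuous weights.
-/

namespace Pool.Agent.N852.MM

set_option linter.unusedSectionVars false

open Matrix Module Filter Topology Function
open Pool.Agent.N852 (ic ic_add ic_sub ic_neg Cg)
open Pool.Agent.N852.DD (th th_pos th_le_one chi chi_nonneg chi_le_one chi_one chi_zero chi_lip
  norm_lip lip_approx)

variable {V : Type} [DecidableEq V] [Fintype V] {n : V → ℕ} {k : ℕ}
  {F : Sys n k} {G : V → Tup n ℤ → Prop} {a : V → ℕ} {D : ℕ}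

/-- The product of the cutoff functions. -/
noncomputable def chp (R : ℝ) (X : Tup n ℝ) : ℝ := ∏ v, chi (‖X v‖ / R)

theorem chp_nonneg (R : ℝ) (X : Tup n ℝ) : 0 ≤ chp R X :=
  Finset.prod_nonneg fun _ _ => chi_nonneg _

theorem chp_le_one (R : ℝ) (X : Tup n ℝ) : chp R X ≤ 1 :=
  Finset.prod_le_one (fun _ _ => chi_nonneg _) fun _ _ => chi_le_one _

theorem chp_one {R : ℝ} (hR : 0 < R) {X : Tup n ℝ} (h : ∀ v, ‖X v‖ ≤ R) : chp R X = 1 :=
  Finset.prod_eq_one fun v _ => chi_one (by rw [div_le_one hR]; exact h v)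

theorem chp_zero {R : ℝ} (hR : 0 < R) {X : Tup n ℝ} (v : V) (h : 2 * R ≤ ‖X v‖) : chp R X = 0 :=
  Finset.prod_eq_zero (Finset.mem_univ v) (chi_zero (by rw [le_div_iff₀ hR]; exact h))

theorem chi_lip_norm {R : ℝ} (hR : 1 ≤ R) {N : ℕ} (X X' : Fin N → ℝ) :
    |chi (‖X‖ / R) - chi (‖X'‖ / R)| ≤ ‖X - X'‖ := by
  have hR0 : 0 < R := by linarith
  refine (chi_lip _ _).trans ?_
  rw [← sub_div, abs_div, abs_of_pos hR0]
  refine le_trans ?_ (norm_lip X X')
  exact div_le_self (abs_nonneg _) hR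

theorem chp_update (R : ℝ) (X : Tup n ℝ) (v : V) (z : Fin (n v) → ℝ) :
    chp R (update X v z) = chi (‖z‖ / R) * ∏ u ∈ Finset.univ.erase v, chi (‖X u‖ / R) := by
  unfold chp
  rw [← Finset.mul_prod_erase Finset.univ _ (Finset.mem_univ v), update_self]
  congr 1
  exact Finset.prod_congr rfl fun u hu => by rw [update_of_ne (Finset.ne_of_mem_erase hu)]

theorem chp_lip {R : ℝ} (hR : 1 ≤ R) (X : Tup n ℝ) (v : V) (z z' : Fin (n v) → ℝ) :
    |chp R (update X v z) - chp R (update X v z')| ≤ ‖z - z'‖ := by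
  have h0 : 0 ≤ ∏ u ∈ Finset.univ.erase v, chi (‖X u‖ / R) :=
    Finset.prod_nonneg fun _ _ => chi_nonneg _
  have h1 : ∏ u ∈ Finset.univ.erase v, chi (‖X u‖ / R) ≤ 1 :=
    Finset.prod_le_one (fun _ _ => chi_nonneg _) fun _ _ => chi_le_one _
  rw [chp_update, chp_update, ← sub_mul, abs_mul, abs_of_nonneg h0]
  calc |chi (‖z‖ / R) - chi (‖z'‖ / R)| * ∏ u ∈ Finset.univ.erase v, chi (‖X u‖ / R)
      ≤ |chi (‖z‖ / R) - chi (‖z'‖ / R)| * 1 := by gcongr
    _ ≤ ‖z - z'‖ := by
      rw [mul_one]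
      exact chi_lip_norm hR z z'

/-- **The upper bound.** -/
theorem UX_le (hE : Eng F G a D) : ∃ C : ℝ, 1 ≤ C ∧ ∀ X : V → ℝ, (∀ v, 1 ≤ X v) →
    ((UX F G X).card : ℝ) ≤ C * Nm a X := by
  classical
  have hWT : WT F (chp (n := n) 1) 1 4 := by
    refine ⟨by norm_num, by norm_num, ?_, ?_, ?_⟩
    · intro v X z z' _ _
      rw [one_mul]
      exact chp_lip le_rfl X v z z'
    · intro X v _ h
      exact chp_zero one_pos v (by linarith)
    · intro X
      rw [abs_of_nonneg (chp_nonneg _ _)]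
      exact chp_le_one _ _
  obtain ⟨c, C, hC, hlim⟩ := TT_lim hE hWT one_ne_zero 0
  refine ⟨|c| + C + 1, by linarith [abs_nonneg c], ?_⟩
  intro X hX
  have hX0 := pos_of_one hX
  have hN := Nm_pos (a := a) hX0
  have h1 := hlim X 1 le_rfl hX
  rw [Real.one_rpow, div_one] at h1
  have h3 : TT F G a (chp 1) 1 0 4 X ≤ |c| + C + 1 := by
    have := (abs_le.1 h1).2
    have := le_abs_self c
    linarith
  unfold TT at h3
  rw [div_le_iff₀ hN] at h3
  refine le_trans ?_ h3
  unfold NN
  have hsub : UX F G X ⊆ UX F G (rx 4 X) := UX_mono (nonneg_of_one hX) fun v => by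
    unfold rx
    linarith [hX0 v]
  rw [← nsmul_one, ← Finset.sum_const]
  refine le_trans (Finset.sum_le_sum fun p hp => ?_) (Finset.sum_le_sum_of_subset_of_nonneg hsub ?_)
  · rw [mem_UX (nonneg_of_one hX)] at hp
    have hc : ∀ v, Cg 1 (p v) ((0 : Tup n ℤ) v) := fun v => ⟨p v, by simp⟩
    rw [if_pos hc]
    refine (chp_one one_pos fun v => ?_).ge
    unfold sc
    have := hX0 v
    rw [norm_smul, norm_inv, Real.norm_of_nonneg this.le, inv_mul_le_iff₀ this, mul_one]
    exact hp.1 v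
  · intro p _ _
    split_ifs
    · exact chp_nonneg _ _
    · exact le_rfl

/-- The continuous weights. -/
structure CW (F : Sys n k) (Φ : Tup n ℝ → ℝ) (R : ℝ) : Prop where
  R4 : 4 ≤ R
  cont : ContinuousOn Φ {X | Inc F X}
  supp : ∀ X v, Inc F X → R < ‖X v‖ → Φ X = 0
  le_one : ∀ X, |Φ X| ≤ 1

theorem NN_radius {Φ : Tup n ℝ → ℝ} {R R' : ℝ} (hR : 0 ≤ R) (hRR : R ≤ R')
    (h : ∀ X v, Inc F X → R < ‖X v‖ → Φ X = 0) {q : ℕ} {α : Tup n ℤ} {X : V → ℝ}
    (hX : ∀ v, 0 < X v) : NN F G Φ q α R X = NN F G Φ q α R' X := by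
  classical
  have hR' : 0 ≤ R' := hR.trans hRR
  have hX0 : ∀ v, 0 ≤ X v := fun v => (hX v).le
  unfold NN
  apply Finset.sum_subset
  · intro p hp
    rw [mem_UX (rx_nonneg hR hX0)] at hp
    rw [mem_UX (rx_nonneg hR' hX0)]
    refine ⟨fun v => (hp.1 v).trans ?_, hp.2⟩
    unfold rx
    have := hX0 v
    gcongr
  · intro p hp hp'
    rw [mem_UX (rx_nonneg hR' hX0)] at hp
    rw [mem_UX (rx_nonneg hR hX0)] at hp'
    split_ifs
    · have hi : Inc F (sc X p) := inc_smul (inc_iT.2 hp.2.1) fun v => (X v)⁻¹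
      by_cases h3 : ∀ v, ‖ic (p v)‖ ≤ rx R X v
      · exact absurd ⟨h3, hp.2⟩ hp'
      · push Not at h3
        obtain ⟨v, hv⟩ := h3
        apply h _ v hi
        unfold sc
        have := hX v
        rw [norm_smul, norm_inv, Real.norm_of_nonneg this.le, ← div_eq_inv_mul, lt_div_iff₀ this]
        exact hv
    · rfl

theorem continuous_ev (i : Fin k) : Continuous fun X : Tup n ℝ => ev F i X := by
  unfold ev
  refine continuous_finsetSum _ fun j _ => continuous_const.mul ?_
  exact continuous_finsetProd _ fun v _ => (continuous_apply (j v)).comp (continuous_apply (v : V))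

theorem inc_closed : IsClosed {X : Tup n ℝ | Inc F X} := by
  have h1 : {X : Tup n ℝ | Inc F X} = ⋂ i : Fin k, {X : Tup n ℝ | ev F i X = 0} := by
    ext p
    rw [Set.mem_iInter]
    rfl
  rw [h1]
  exact isClosed_iInter fun i => isClosed_eq (continuous_ev i) continuous_const

/-- Approximation of a continuous weight. -/
theorem CW.approx {Φ : Tup n ℝ → ℝ} {R : ℝ} (h : CW F Φ R) {η : ℝ}
    (hη : 0 < η) : ∃ (A : ℝ) (Ψ : Tup n ℝ → ℝ), WT F Ψ A (2 * R) ∧
      ∀ X, Inc F X → |Φ X - Ψ X| ≤ η := by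
  have hR4 := h.R4
  have hR0 : 0 < R := by linarith
  have hR1 : 1 ≤ R := by linarith
  set Z : Set (Tup n ℝ) := {X | Inc F X} ∩ Metric.closedBall 0 (2 * R) with hZ
  have hZc : IsCompact Z := (isCompact_closedBall _ _).inter_left inc_closed
  have hdich : ∃ (A : ℝ) (ψ : Tup n ℝ → ℝ), 0 ≤ A ∧ (∀ p q, |ψ p - ψ q| ≤ A * ‖p - q‖) ∧
      ∀ z ∈ Z, |ψ z - Φ z| ≤ η := by
    by_cases hZn : Z.Nonempty
    · exact lip_approx hZc hZn (h.cont.mono Set.inter_subset_left) hη
    · refine ⟨0, 0, le_rfl, fun p q => by simp, fun z hz => absurd ⟨z, hz⟩ hZn⟩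
  obtain ⟨A, ψ, hA, hlip, hap⟩ := hdich
  set ψ' : Tup n ℝ → ℝ := fun p => max (-1) (min 1 (ψ p)) with hψ'
  have hψ'1 : ∀ p, |ψ' p| ≤ 1 := by
    intro p
    rw [abs_le]
    exact ⟨le_max_left _ _, max_le (by norm_num) (min_le_left _ _)⟩
  have hψ'l : ∀ p q, |ψ' p - ψ' q| ≤ A * ‖p - q‖ := by
    intro p q
    have h1 : |ψ' p - ψ' q| ≤ |ψ p - ψ q| := by
      simp only [hψ']
      rw [max_comm (-1), max_comm (-1)]
      have e1 := abs_max_sub_max_le_abs (min 1 (ψ p)) (min 1 (ψ q)) (-1)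
      refine e1.trans ?_
      have e2 := abs_min_sub_min_le_max 1 (ψ p) 1 (ψ q)
      rw [sub_self, abs_zero, max_eq_right (abs_nonneg _)] at e2
      exact e2
    exact h1.trans (hlip p q)
  have hψ'a : ∀ z ∈ Z, |ψ' z - Φ z| ≤ η := by
    intro z hz
    have e1 := hap z hz
    have e2 := h.le_one z
    simp only [hψ']
    rw [abs_le] at e1 e2 ⊢
    constructor
    · have : Φ z - η ≤ min 1 (ψ z) := le_min (by linarith) (by linarith)
      have := le_max_right (-1) (min 1 (ψ z))
      linarith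
    · have : max (-1) (min 1 (ψ z)) ≤ Φ z + η :=
        max_le (by linarith) ((min_le_right _ _).trans (by linarith))
      linarith
  set Ψ : Tup n ℝ → ℝ := fun X => ψ' X * chp R X with hΨ
  refine ⟨A + 1, Ψ, ⟨by positivity, by linarith, ?_, ?_, ?_⟩, ?_⟩
  · intro v X z z' _ _
    simp only [hΨ]
    have e1 : ψ' (update X v z) * chp R (update X v z) -
        ψ' (update X v z') * chp R (update X v z') =
        (ψ' (update X v z) - ψ' (update X v z')) * chp R (update X v z) +
          ψ' (update X v z') * (chp R (update X v z) - chp R (update X v z')) := by ring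
    rw [e1]
    have e2 : |ψ' (update X v z) - ψ' (update X v z')| ≤ A * ‖z - z'‖ := by
      refine (hψ'l _ _).trans (le_of_eq ?_)
      congr 1
      have e3 : update X v z - update X v z' = update (0 : Tup n ℝ) v (z - z') := by
        funext u
        by_cases hu : u = v
        · subst hu
          simp
        · simp [update_of_ne hu]
      rw [e3]
      apply le_antisymm
      · rw [pi_norm_le_iff_of_nonneg (norm_nonneg _)]
        intro u
        by_cases hu : u = v
        · subst hu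
          rw [update_self]
        · rw [update_of_ne hu, Pi.zero_apply, norm_zero]
          exact norm_nonneg _
      · have := norm_le_pi_norm (update (0 : Tup n ℝ) v (z - z')) v
        rwa [update_self] at this
    refine (abs_add_le _ _).trans ?_
    rw [abs_mul, abs_mul, abs_of_nonneg (chp_nonneg _ _)]
    calc |ψ' (update X v z) - ψ' (update X v z')| * chp R (update X v z) +
          |ψ' (update X v z')| * |chp R (update X v z) - chp R (update X v z')|
        ≤ (A * ‖z - z'‖) * 1 + 1 * ‖z - z'‖ := by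
          gcongr
          · exact chp_nonneg _ _
          · exact chp_le_one _ _
          · exact hψ'1 _
          · exact chp_lip hR1 X v z z'
      _ = _ := by ring
  · intro X v _ hX
    simp only [hΨ]
    rw [chp_zero hR0 v hX.le, mul_zero]
  · intro X
    simp only [hΨ]
    rw [abs_mul, abs_of_nonneg (chp_nonneg _ _)]
    exact mul_le_one₀ (hψ'1 _) (chp_nonneg _ _) (chp_le_one _ _)
  · intro X hX
    simp only [hΨ]
    by_cases hZ' : X ∈ Z
    · have e1 := hψ'a _ hZ'
      by_cases hall : ∀ v, ‖X v‖ ≤ R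
      · rw [chp_one hR0 hall, mul_one, abs_sub_comm]
        exact e1
      · push Not at hall
        obtain ⟨v, hv⟩ := hall
        rw [h.supp X v hX hv] at e1 ⊢
        rw [sub_zero] at e1
        rw [zero_sub, abs_neg, abs_mul, abs_of_nonneg (chp_nonneg _ _)]
        calc _ ≤ η * 1 := by
              gcongr
              · exact chp_nonneg _ _
              · exact chp_le_one _ _
          _ = η := mul_one _
    · have e1 : ¬ ∀ v, ‖X v‖ ≤ 2 * R := by
        intro h1
        apply hZ'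
        refine ⟨hX, ?_⟩
        rw [Metric.mem_closedBall, dist_zero_right, pi_norm_le_iff_of_nonneg (by positivity)]
        exact h1
      push Not at e1
      obtain ⟨v, hv⟩ := e1
      rw [chp_zero hR0 v hv.le, h.supp X v hX (by linarith), mul_zero, sub_zero, abs_zero]
      exact hη.le

/-- **The limit for continuous weights.** -/
theorem CW_lim (hE : Eng F G a D) {Φ : Tup n ℝ → ℝ} {R : ℝ} (hΦ : CW F Φ R) {q : ℕ}
    (hq : q ≠ 0) (α : Tup n ℤ) : ∃ c : ℝ, ∀ η : ℝ, 0 < η → ∃ K₀ : ℝ, 1 ≤ K₀ ∧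
      ∀ X : V → ℝ, (∀ v, K₀ ≤ X v) → |TT F G a Φ q α R X - c| ≤ η := by
  classical
  have hR4 := hΦ.R4
  have hR0 : 0 < R := by linarith
  obtain ⟨B, hB, hUX⟩ := UX_le hE
  have hB0 : 0 < B := by linarith
  obtain ⟨E, hE'⟩ : ∃ E : ℝ, E = B * (2 * R) ^ (∑ v, a v) := ⟨_, rfl⟩
  have hE0 : 0 < E := by rw [hE']; positivity
  -- an interval
  have hint : ∀ η : ℝ, 0 < η → ∃ c K₀ : ℝ, 1 ≤ K₀ ∧ ∀ X : V → ℝ, (∀ v, K₀ ≤ X v) →
      |TT F G a Φ q α R X - c| ≤ η := by
    intro η hη
    obtain ⟨A, Ψ, hWT, hap⟩ := hΦ.approx (η := η / (2 * E)) (by positivity)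
    obtain ⟨c, C, hC, hlim⟩ := TT_lim hE hWT hq α
    have htend : Tendsto (fun x : ℝ => C / x ^ th D) atTop (𝓝 0) :=
      Tendsto.div_atTop tendsto_const_nhds (tendsto_rpow_atTop (th_pos D))
    obtain ⟨K₁, hK₁⟩ := eventually_atTop.1
      (htend.eventually (ge_mem_nhds (by positivity : (0 : ℝ) < η / 2)))
    refine ⟨c, max 1 K₁, le_max_left _ _, ?_⟩
    intro X hX
    have hX1 : ∀ v, 1 ≤ X v := fun v => (le_max_left _ _).trans (hX v)
    have hX0 := pos_of_one hX1
    have hN := Nm_pos (a := a) hX0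
    have h1 := hlim X (max 1 K₁) (le_max_left _ _) hX
    have h2 := hK₁ (max 1 K₁) (le_max_right _ _)
    have h3 : |TT F G a Φ q α R X - TT F G a Ψ q α (2 * R) X| ≤ η / 2 := by
      unfold TT
      rw [NN_radius hR0.le (by linarith : R ≤ 2 * R) hΦ.supp hX0, ← sub_div, abs_div,
        abs_of_pos hN, div_le_iff₀ hN]
      unfold NN
      rw [← Finset.sum_sub_distrib]
      refine (Finset.abs_sum_le_sum_abs _ _).trans ?_
      have h4 : ∀ p ∈ UX F G (rx (2 * R) X),
          |(if ∀ v, Cg q (p v) (α v) then Φ (sc X p) else 0) -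
          (if ∀ v, Cg q (p v) (α v) then Ψ (sc X p) else 0)| ≤ η / (2 * E) := by
        intro p hp
        rw [mem_UX (rx_nonneg (by positivity) (nonneg_of_one hX1))] at hp
        split_ifs
        · exact hap _ (inc_smul (inc_iT.2 hp.2.1) _)
        · rw [sub_zero, abs_zero]
          positivity
      refine (Finset.sum_le_sum h4).trans ?_
      rw [Finset.sum_const, nsmul_eq_mul]
      have h5 := hUX (rx (2 * R) X) (rx_one (by linarith) hX1)
      rw [Nm_rx] at h5
      calc ((UX F G (rx (2 * R) X)).card : ℝ) * (η / (2 * E))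
          ≤ (B * ((2 * R) ^ (∑ v, a v) * Nm a X)) * (η / (2 * E)) := by gcongr
        _ = η / 2 * Nm a X := by
          have e3 : B * (2 * R) ^ (∑ v, a v) / E = 1 := by
            rw [hE']
            exact div_self (by positivity)
          calc _ = (B * (2 * R) ^ (∑ v, a v) / E) * (η / 2 * Nm a X) := by ring
            _ = _ := by rw [e3, one_mul]
    have h6 := abs_sub_le (TT F G a Φ q α R X) (TT F G a Ψ q α (2 * R) X) c
    linarith
  -- the limit exists
  have hex : ∃ c : ℝ, Tendsto (fun x : ℝ => TT F G a Φ q α R fun _ => x) atTop (𝓝 c) := by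
    rw [← cauchy_map_iff_exists_tendsto, Metric.cauchy_iff]
    refine ⟨inferInstance, ?_⟩
    intro ε hε
    obtain ⟨c, K₀, hK₀, h⟩ := hint (ε / 3) (by positivity)
    refine ⟨Metric.closedBall c (ε / 3), ?_, ?_⟩
    · rw [Filter.mem_map]
      filter_upwards [eventually_ge_atTop K₀] with x hx
      rw [Set.mem_preimage, Metric.mem_closedBall, Real.dist_eq]
      exact h _ fun _ => hx
    · intro x hx y hy
      rw [Metric.mem_closedBall, Real.dist_eq] at hx hy
      rw [Real.dist_eq]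
      have := abs_sub_le x c y
      rw [abs_sub_comm c y] at this
      linarith
  obtain ⟨c, hc⟩ := hex
  refine ⟨c, ?_⟩
  intro η hη
  obtain ⟨c', K₀, hK₀, h⟩ := hint (η / 2) (by positivity)
  refine ⟨K₀, hK₀, ?_⟩
  intro X hX
  have h1 : |c - c'| ≤ η / 2 := by
    apply le_of_tendsto ((hc.sub_const c').abs)
    filter_upwards [eventually_ge_atTop K₀] with x hx
    exact h _ fun _ => hx
  have h2 := h X hX
  have h3 := abs_sub_le (TT F G a Φ q α R X) c' c
  rw [abs_sub_comm c' c] at h3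
  linarith

end Pool.Agent.N852.MM
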