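import Mathlib
import Pool.Agent.N852.MM.Lim
import Pool.Agent.N852.DD.Met
import Pool.Agent.N852.Loc

/-!
Systems of multilinear equations: local metrics.
-/

namespace Pool.Agent.N852.MM

set_option linter.unusedSectionVars false

open Matrix Module Filter Topology Function
open Pool.Agent.N852 (ic ic_add ic_sub ic_neg Cg om om_nonneg om_le_one om_one om_zero om_cont)
open Pool.Agent.N852.DD (th th_pos th_le_one chi chi_nonneg chi_le_one chi_one chi_zero chi_lip
  norm_lip lip_approx ph ph_nonneg ph_le_one ph_large ph_small ph_cont ph_sum)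

variable {V : Type} [DecidableEq V] [Fintype V] {n : V → ℕ} {k : ℕ}

/-- A local metric on the line bundle of multidegree `a` of the variety `X`. -/
structure LM {K : Type*} [NormedField K] (F : Sys n k) (a : V → ℕ) (h : Tup n K → ℝ) : Prop where
  pos : ∀ x, (∀ v, x v ≠ 0) → Inc F x → 0 < h x
  cont : ContinuousOn h {x | (∀ v, x v ≠ 0) ∧ Inc F x}
  homog : ∀ (c : V → K) x, (∀ v, c v ≠ 0) → (∀ v, x v ≠ 0) → Inc F x →
    h (fun v => c v • x v) = (∏ v, ‖c v‖ ^ a v) * h x

/-- The families of unit vectors. -/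
def UU (K : Type*) [NormedField K] (F : Sys n k) : Set (Tup n K) :=
  {x | (∀ v, ‖x v‖ = 1) ∧ Inc F x}

theorem continuous_ev' {K : Type*} [NormedField K] {F : Sys n k} (i : Fin k) :
    Continuous fun X : Tup n K => ev F i X := by
  unfold ev
  refine continuous_finsetSum _ fun j _ => continuous_const.mul ?_
  exact continuous_finsetProd _ fun v _ => (continuous_apply (j v)).comp (continuous_apply (v : V))

theorem inc_closed' {K : Type*} [NormedField K] (F : Sys n k) :
    IsClosed {x : Tup n K | Inc F x} := by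
  have h1 : {x : Tup n K | Inc F x} = ⋂ i : Fin k, {x : Tup n K | ev F i x = 0} := by
    ext p
    rw [Set.mem_iInter]
    rfl
  rw [h1]
  exact isClosed_iInter fun i => isClosed_eq (continuous_ev' i) continuous_const

theorem UU_compact {K : Type*} [NormedField K] [ProperSpace K] (F : Sys n k) :
    IsCompact (UU K F) := by
  apply Metric.isCompact_of_isClosed_isBounded
  · have h1 : UU K F = (⋂ v, {x : Tup n K | ‖x v‖ = 1}) ∩ {x | Inc F x} := by
      ext x
      rw [Set.mem_inter_iff, Set.mem_iInter]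
      rfl
    rw [h1]
    exact (isClosed_iInter fun v => isClosed_eq (continuous_apply v).norm continuous_const).inter
      (inc_closed' F)
  · apply (Metric.isBounded_closedBall (x := (0 : Tup n K)) (r := 1)).subset
    rintro x ⟨hx, _⟩
    rw [Metric.mem_closedBall, dist_zero_right, pi_norm_le_iff_of_nonneg (by norm_num)]
    exact fun v => (hx v).le

theorem UU_sub {K : Type*} [NormedField K] (F : Sys n k) :
    UU K F ⊆ {x | (∀ v, x v ≠ 0) ∧ Inc F x} := by
  rintro x ⟨hx, h⟩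
  refine ⟨fun v h0 => ?_, h⟩
  have := hx v
  rw [h0, norm_zero] at this
  norm_num at this

/-- Bounds on unit vectors. -/
theorem LM.bounds {K : Type*} [NormedField K] [ProperSpace K]
    {F : Sys n k} {a : V → ℕ} {h : Tup n K → ℝ} (hh : LM F a h) :
    ∃ c C : ℝ, 0 < c ∧ 0 < C ∧ ∀ p ∈ UU K F, c ≤ h p ∧ h p ≤ C := by
  have h1 := hh.cont.mono (UU_sub F)
  obtain ⟨C, hC⟩ := (UU_compact F).exists_bound_of_continuousOn h1
  have h2 : ContinuousOn (fun p : Tup n K => (h p)⁻¹) (UU K F) :=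
    h1.inv₀ fun p hp => (hh.pos _ (UU_sub F hp).1 (UU_sub F hp).2).ne'
  obtain ⟨E, hE⟩ := (UU_compact F).exists_bound_of_continuousOn h2
  refine ⟨(|E| + 1)⁻¹, |C| + 1, by positivity, by positivity, ?_⟩
  intro p hp
  have hpos := hh.pos _ (UU_sub F hp).1 (UU_sub F hp).2
  have h3 := hC p hp
  have h4 := hE p hp
  rw [Real.norm_eq_abs, abs_of_pos hpos] at h3
  rw [Real.norm_eq_abs, abs_of_pos (inv_pos.2 hpos)] at h4
  constructor
  · rw [inv_le_comm₀ (by positivity) hpos]
    linarith [le_abs_self E]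
  · linarith [le_abs_self C]

variable {F : Sys n k} {a : V → ℕ}

/-- The norms of the vectors. -/
noncomputable def nrm (x : Tup n ℝ) : V → ℝ := fun v => ‖x v‖

/-- Bounds for real vectors. -/
theorem LM.real_bounds {h : Tup n ℝ → ℝ} (hh : LM F a h) :
    ∃ c C : ℝ, 0 < c ∧ 0 < C ∧ ∀ x, (∀ v, x v ≠ 0) → Inc F x →
      c * Nm a (nrm x) ≤ h x ∧ h x ≤ C * Nm a (nrm x) := by
  obtain ⟨c, C, hc, hC, hb⟩ := hh.bounds
  refine ⟨c, C, hc, hC, ?_⟩
  intro x hx hi
  have hx0 : ∀ v, 0 < ‖x v‖ := fun v => norm_pos_iff.2 (hx v)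
  have hx1 : ∀ v, ‖x v‖⁻¹ ≠ 0 := fun v => (inv_pos.2 (hx0 v)).ne'
  have h1 := hh.homog (fun v => ‖x v‖⁻¹) x hx1 hx hi
  have h2 := hb (fun v => ‖x v‖⁻¹ • x v) ⟨fun v => by
    rw [norm_smul, norm_inv, norm_norm, inv_mul_cancel₀ (hx0 v).ne'], inc_smul hi _⟩
  rw [h1] at h2
  have hN : 0 < Nm a (nrm x) := Nm_pos hx0
  have h3 : (∏ v, ‖‖x v‖⁻¹‖ ^ a v) * h x = h x / Nm a (nrm x) := by
    have : ∏ v, ‖‖x v‖⁻¹‖ ^ a v = (Nm a (nrm x))⁻¹ := by
      unfold Nm nrm
      rw [← Finset.prod_inv_distrib]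
      refine Finset.prod_congr rfl fun v _ => ?_
      rw [norm_inv, norm_norm, inv_pow]
    rw [this, div_eq_inv_mul]
  rw [h3, le_div_iff₀ hN, div_le_iff₀ hN] at h2
  exact h2

/-- The function, extended by zero. -/
noncomputable def hz (h : Tup n ℝ → ℝ) (x : Tup n ℝ) : ℝ :=
  open Classical in if ∃ v, x v = 0 then 0 else h x

theorem hz_eq {h : Tup n ℝ → ℝ} {x : Tup n ℝ} (hx : ∀ v, x v ≠ 0) : hz h x = h x := by
  unfold hz
  rw [if_neg]
  rintro ⟨v, hv⟩
  exact hx v hv

theorem Nm_zero (ha : ∀ v, 1 ≤ a v) {X : V → ℝ} {v : V} (hv : X v = 0) : Nm a X = 0 := by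
  unfold Nm
  apply Finset.prod_eq_zero (Finset.mem_univ v)
  rw [hv, zero_pow]
  have := ha v
  omega

theorem hz_bounds {h : Tup n ℝ → ℝ} (hh : LM F a h) (ha : ∀ v, 1 ≤ a v) :
    ∃ c C : ℝ, 0 < c ∧ 0 < C ∧ ∀ x, Inc F x →
      c * Nm a (nrm x) ≤ hz h x ∧ hz h x ≤ C * Nm a (nrm x) := by
  obtain ⟨c, C, hc, hC, hb⟩ := hh.real_bounds
  refine ⟨c, C, hc, hC, ?_⟩
  intro x hx
  by_cases h0 : ∃ v, x v = 0
  · obtain ⟨v, hv⟩ := h0
    have h1 : Nm a (nrm x) = 0 := Nm_zero ha (v := v) (by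
      unfold nrm
      rw [hv, norm_zero])
    unfold hz
    rw [if_pos ⟨v, hv⟩, h1, mul_zero, mul_zero]
    exact ⟨le_rfl, le_rfl⟩
  · push Not at h0
    rw [hz_eq h0]
    exact hb x h0 hx

theorem Nm_cont (a : V → ℕ) : Continuous fun x : Tup n ℝ => Nm a (nrm x) := by
  unfold Nm nrm
  exact continuous_finsetProd _ fun v _ => (continuous_apply v).norm.pow _

theorem hz_cont {h : Tup n ℝ → ℝ} (hh : LM F a h) (ha : ∀ v, 1 ≤ a v) :
    ContinuousOn (hz h) {x | Inc F x} := by
  obtain ⟨c, C, hc, hC, hb⟩ := hz_bounds hh ha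
  intro x₀ hi₀
  by_cases hw : ∃ v, x₀ v = 0
  · -- at the boundary
    have h0 : hz h x₀ = 0 := by
      unfold hz
      rw [if_pos hw]
    obtain ⟨v, hv⟩ := hw
    have hN0 : Nm a (nrm x₀) = 0 := Nm_zero ha (v := v) (by
      unfold nrm
      rw [hv, norm_zero])
    change Tendsto (hz h) _ (𝓝 (hz h x₀))
    rw [h0]
    have h1 : Tendsto (fun x : Tup n ℝ => C * Nm a (nrm x)) (𝓝[{x | Inc F x}] x₀) (𝓝 0) := by
      have h3 : Tendsto (fun x : Tup n ℝ => C * Nm a (nrm x)) (𝓝 x₀) (𝓝 (C * Nm a (nrm x₀))) :=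
        ((Nm_cont a).tendsto x₀).const_mul C
      rw [hN0, mul_zero] at h3
      exact h3.mono_left nhdsWithin_le_nhds
    apply squeeze_zero' _ _ h1
    · filter_upwards [self_mem_nhdsWithin] with p hp
      have h2 := (hb p hp).1
      have h4 : 0 ≤ Nm a (nrm p) := Finset.prod_nonneg fun v _ => pow_nonneg (norm_nonneg _) _
      exact le_trans (by positivity) h2
    · filter_upwards [self_mem_nhdsWithin] with p hp
      exact (hb p hp).2
  · push Not at hw
    have h1 : ContinuousWithinAt h {x | (∀ v, x v ≠ 0) ∧ Inc F x} x₀ := hh.cont x₀ ⟨hw, hi₀⟩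
    have hopen : {x : Tup n ℝ | ∀ v, x v ≠ 0} ∈ 𝓝 x₀ := by
      have h2 : {x : Tup n ℝ | ∀ v, x v ≠ 0} = ⋂ v, {x : Tup n ℝ | x v ≠ 0} := by
        ext x
        simp
      rw [h2]
      exact (isOpen_iInter_of_finite fun v =>
        isOpen_ne_fun (continuous_apply v) continuous_const).mem_nhds (Set.mem_iInter.2 hw)
    have h2 : ContinuousWithinAt h ({x | Inc F x} ∩ {x | ∀ v, x v ≠ 0}) x₀ := by
      apply h1.mono
      rintro p ⟨h3, h4⟩
      exact ⟨h4, h3⟩
    rw [continuousWithinAt_inter hopen] at h2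
    apply h2.congr_of_eventuallyEq
    · filter_upwards [mem_nhdsWithin_of_mem_nhds hopen] with p hp
      exact hz_eq hp
    · exact hz_eq hw

/-- The other vertices. -/
abbrev Vo (o : V) : Type := {v : V // v ≠ o}

/-- The weight of a block. -/
noncomputable def PhW (o : V) (h : Tup n ℝ → ℝ) (κ ε : ℝ) (X : Tup n ℝ) : ℝ :=
  (∏ v : Vo o, ph ‖X v‖) * om ε (κ * hz h X)

theorem PhW_CW {o : V} {h : Tup n ℝ → ℝ} (hh : LM F a h) (ha : ∀ v, 1 ≤ a v) {c : ℝ} (hc : 0 < c)
    (hcb : ∀ x, Inc F x → c * Nm a (nrm x) ≤ hz h x)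
    {κ ε R : ℝ} (hκ : 0 < κ) (hε : 0 < ε) (hR : 4 ≤ R)
    (hRκ : 1 + ε ≤ κ * (c * ((1 / 2) ^ (∑ v, a v) * R))) :
    CW F (PhW o h κ ε) R := by
  have hR0 : 0 < R := by linarith
  have hR1 : 1 ≤ R := by linarith
  refine ⟨hR, ?_, ?_, ?_⟩
  · unfold PhW
    apply ContinuousOn.mul
    · refine (continuous_finsetProd _ fun v _ => ?_).continuousOn
      exact ph_cont.comp (continuous_apply (v : V)).norm
    · exact (om_cont ε).comp_continuousOn (continuousOn_const.mul (hz_cont hh ha))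
  · intro X v hX hv
    unfold PhW
    by_cases hall : ∀ u : Vo o, 1 / 2 < ‖X u‖
    · by_cases hvo : v = o
      · rw [om_zero hε, mul_zero]
        refine hRκ.trans ?_
        apply mul_le_mul_of_nonneg_left _ hκ.le
        refine le_trans ?_ (hcb X hX)
        gcongr
        -- the lower bound of the norm
        have h1 : ∀ u, (1 / 2 : ℝ) ^ a u * (if u = o then R else 1) ≤ ‖X u‖ ^ a u := by
          intro u
          by_cases hu : u = o
          · rw [if_pos hu, hu]
            rw [hvo] at hv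
            have e1 : (1 / 2 : ℝ) ^ a o ≤ 1 := pow_le_one₀ (by norm_num) (by norm_num)
            have e2 : R ≤ R ^ a o := le_self_pow₀ hR1 (by have := ha o; omega)
            calc (1 / 2 : ℝ) ^ a o * R ≤ 1 * R ^ a o := by gcongr
              _ = R ^ a o := one_mul _
              _ ≤ ‖X o‖ ^ a o := by gcongr
          · rw [if_neg hu, mul_one]
            have := hall ⟨u, hu⟩
            gcongr
        have h2 := Finset.prod_le_prod (s := Finset.univ)
          (f := fun u => (1 / 2 : ℝ) ^ a u * (if u = o then R else 1)) (fun u _ => by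
            split_ifs <;> positivity) fun u _ => h1 u
        rw [Finset.prod_mul_distrib, Finset.prod_pow_eq_pow_sum, Finset.prod_ite_eq' Finset.univ o,
          if_pos (Finset.mem_univ o)] at h2
        exact h2
      · have h3 : ∏ v : Vo o, ph ‖X v‖ = 0 :=
          Finset.prod_eq_zero (Finset.mem_univ (⟨v, hvo⟩ : Vo o)) (ph_large (by
            simp only
            linarith))
        rw [h3, zero_mul]
    · push Not at hall
      obtain ⟨u, hu⟩ := hall
      have h3 : ∏ v : Vo o, ph ‖X v‖ = 0 := Finset.prod_eq_zero (Finset.mem_univ u) (ph_small hu)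
      rw [h3, zero_mul]
  · intro X
    unfold PhW
    have h1 : 0 ≤ ∏ v : Vo o, ph ‖X v‖ := Finset.prod_nonneg fun v _ => ph_nonneg (norm_nonneg _)
    have h2 : ∏ v : Vo o, ph ‖X v‖ ≤ 1 :=
      Finset.prod_le_one (fun v _ => ph_nonneg (norm_nonneg _)) fun v _ => ph_le_one _
    rw [abs_of_nonneg (mul_nonneg h1 (om_nonneg _ _))]
    exact mul_le_one₀ h2 (om_nonneg _ _) (om_le_one _ _)

end Pool.Agent.N852.MM
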