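import Mathlib
import Pool.Agent.N852.MM.Met
import Pool.Agent.N852.MM.Stm

/-!
Systems of multilinear equations: the simplex of blocks.
-/

namespace Pool.Agent.N852.MM

set_option linter.unusedSectionVars false

open Matrix Module Filter Topology Function
open Pool.Agent.N852 (ic ic_add ic_sub ic_neg Cg om om_nonneg om_le_one om_one om_zero om_cont)
open Pool.Agent.N852.DD (th th_pos th_le_one chi chi_nonneg chi_le_one chi_one chi_zero chi_lip
  norm_lip lip_approx ph ph_nonneg ph_le_one ph_large ph_small ph_cont ph_sum norm_ic_ge)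

/-! ### The simplex -/

section Simplex

variable {ι : Type} [Fintype ι]

open Classical in
/-- The integer points of the simplex. -/
noncomputable def Sx (b : ι → ℕ) (Y : ℝ) : Finset (ι → ℕ) :=
  (Fintype.piFinset fun _ => Finset.range (⌊Y⌋₊ + 1)).filter fun i => ∑ v, (b v : ℝ) * i v ≤ Y

theorem mem_Sx {b : ι → ℕ} (hb : ∀ v, 1 ≤ b v) {Y : ℝ} {i : ι → ℕ} :
    i ∈ Sx b Y ↔ ∑ v, (b v : ℝ) * i v ≤ Y := by
  classical
  unfold Sx
  rw [Finset.mem_filter, Fintype.mem_piFinset]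
  constructor
  · exact fun h => h.2
  · intro h
    refine ⟨fun v => ?_, h⟩
    rw [Finset.mem_range, Nat.lt_succ_iff]
    apply Nat.le_floor
    have h1 : (b v : ℝ) * i v ≤ ∑ v, (b v : ℝ) * i v :=
      Finset.single_le_sum (f := fun v => (b v : ℝ) * i v) (fun v _ => by positivity)
        (Finset.mem_univ v)
    have h2 : (1 : ℝ) ≤ b v := by exact_mod_cast hb v
    have h3 : (0 : ℝ) ≤ i v := Nat.cast_nonneg _
    nlinarith

theorem Sx_le {b : ι → ℕ} {Y : ℝ} {i : ι → ℕ} (h : i ∈ Sx b Y) (v : ι) : i v ≤ ⌊Y⌋₊ := by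
  classical
  unfold Sx at h
  rw [Finset.mem_filter, Fintype.mem_piFinset] at h
  have := h.1 v
  rw [Finset.mem_range] at this
  omega

theorem card_Sx (b : ι → ℕ) (Y : ℝ) : (Sx b Y).card ≤ (⌊Y⌋₊ + 1) ^ Fintype.card ι := by
  classical
  unfold Sx
  refine (Finset.card_filter_le _ _).trans (le_of_eq ?_)
  rw [Fintype.card_piFinset, Finset.prod_const, Finset.card_range, Finset.card_univ]

/-- The number of the integer points of the simplex. -/
theorem Sx_asymp (hS : SimP) (b : ι → ℕ) (hb : ∀ v, 1 ≤ b v) : ∃ l : ℝ, 0 < l ∧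
    Tendsto (fun Y : ℝ => ((Sx b Y).card : ℝ) / Y ^ Fintype.card ι) atTop (𝓝 l) := by
  obtain ⟨l, hl, h⟩ := hS ι b hb
  refine ⟨l, hl, h.congr fun Y => ?_⟩
  congr 2
  rw [← Set.ncard_coe_finset]
  congr 1
  ext i
  rw [Finset.mem_coe, mem_Sx hb]
  rfl

theorem Sx_mono {b : ι → ℕ} (hb : ∀ v, 1 ≤ b v) {Y Y' : ℝ} (h : Y ≤ Y') : Sx b Y ⊆ Sx b Y' := by
  intro i hi
  rw [mem_Sx hb] at hi ⊢
  exact hi.trans h

/-- The number of the integer points of the simplex, as a function of the logarithm. -/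
theorem Sx_log {b : ι → ℕ} {l : ℝ}
    (hS : Tendsto (fun Y : ℝ => ((Sx b Y).card : ℝ) / Y ^ Fintype.card ι) atTop (𝓝 l))
    {Y : ℝ → ℝ} {r : ℝ} (hr : 0 < r) (hY : Tendsto (fun T => Y T / Real.log T) atTop (𝓝 r)) :
    Tendsto (fun T => ((Sx b (Y T)).card : ℝ) / Real.log T ^ Fintype.card ι) atTop
      (𝓝 (l * r ^ Fintype.card ι)) := by
  have hlog := Real.tendsto_log_atTop
  have hY' : Tendsto Y atTop atTop := by
    have h1 : Tendsto (fun T => Y T / Real.log T * Real.log T) atTop atTop :=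
      hY.pos_mul_atTop hr hlog
    apply h1.congr'
    filter_upwards [eventually_gt_atTop 1] with T hT
    exact div_mul_cancel₀ _ (Real.log_pos hT).ne'
  have h2 := (hS.comp hY').mul (hY.pow (Fintype.card ι))
  apply h2.congr'
  filter_upwards [hY'.eventually (eventually_gt_atTop 0)] with T hT
  simp only [Function.comp_apply]
  rw [div_pow]
  field_simp

/-- A lemma on averages. -/
theorem cesaro {b : ι → ℕ} (hb : ∀ v, 1 ≤ b v) {l : ℝ}
    (hS : Tendsto (fun Y : ℝ => ((Sx b Y).card : ℝ) / Y ^ Fintype.card ι) atTop (𝓝 l))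
    {Y : ℝ → ℝ} {r : ℝ} (hr : 0 < r) (hY : Tendsto (fun T => Y T / Real.log T) atTop (𝓝 r))
    {u : ℝ → (ι → ℕ) → ℝ} {c D : ℝ} (hD : ∀ᶠ T in atTop, ∀ i ∈ Sx b (Y T), |u T i| ≤ D)
    (hu : ∀ η : ℝ, 0 < η → ∃ i₀ : ℕ, ∀ᶠ T in atTop, ∀ i : ι → ℕ, (∀ v, i₀ ≤ i v) →
      ∑ v, (b v : ℝ) * i v + i₀ ≤ Y T → |u T i - c| ≤ η) :
    Tendsto (fun T => (∑ i ∈ Sx b (Y T), u T i) / Real.log T ^ Fintype.card ι) atTop
      (𝓝 (c * (l * r ^ Fintype.card ι))) := by
  classical
  set d := Fintype.card ι with hd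
  have hlog := Real.tendsto_log_atTop
  have hN := Sx_log hS hr hY
  rw [← hd] at hN
  set l' := l * r ^ d with hl'
  have h1 : Tendsto (fun T => (∑ i ∈ Sx b (Y T), (u T i - c)) / Real.log T ^ d) atTop
      (𝓝 0) := by
    rw [Metric.tendsto_nhds]
    intro ε hε
    have hl0 : 0 < |l'| + 1 := by positivity
    obtain ⟨i₀, hi₀⟩ := hu (ε / (2 * (|l'| + 1))) (by positivity)
    have hN1 := hN.eventually (ge_mem_nhds (by
      have := le_abs_self l'
      linarith : l' < |l'| + 1))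
    obtain ⟨B, hB⟩ : ∃ B : ℝ, B = ∑ v, (b v : ℝ) * i₀ + i₀ := ⟨_, rfl⟩
    have hYB : Tendsto (fun T => (Y T - B) / Real.log T) atTop (𝓝 r) := by
      have h2 : Tendsto (fun T : ℝ => B / Real.log T) atTop (𝓝 0) :=
        Tendsto.div_atTop tendsto_const_nhds hlog
      have h3 := hY.sub h2
      rw [sub_zero] at h3
      refine h3.congr fun T => ?_
      rw [sub_div]
    have hN2 := Sx_log hS hr hYB
    rw [← hd] at hN2
    have h3 : Tendsto (fun T : ℝ => (D + |c|) * (((Sx b (Y T)).card : ℝ) / Real.log T ^ d -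
        ((Sx b (Y T - B)).card : ℝ) / Real.log T ^ d)) atTop (𝓝 0) := by
      have := (hN.sub hN2).const_mul (D + |c|)
      rwa [sub_self, mul_zero] at this
    have h4 := h3.eventually (gt_mem_nhds (by positivity : (0 : ℝ) < ε / 2))
    have hY' : Tendsto Y atTop atTop := by
      have h1 : Tendsto (fun T => Y T / Real.log T * Real.log T) atTop atTop :=
        hY.pos_mul_atTop hr hlog
      apply h1.congr'
      filter_upwards [eventually_gt_atTop 1] with T hT
      exact div_mul_cancel₀ _ (Real.log_pos hT).ne'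
    filter_upwards [hD, hi₀, hN1, h4, hlog.eventually (eventually_ge_atTop 1),
      hY'.eventually (eventually_ge_atTop 0)] with T hDT hT hNT h4 h5 hY0
    have hlog0 : 0 < Real.log T := by linarith
    have hld : 0 < Real.log T ^ d := by positivity
    rw [dist_zero_right, Real.norm_eq_abs, abs_div, abs_of_pos hld, div_lt_iff₀ hld]
    refine lt_of_le_of_lt (Finset.abs_sum_le_sum_abs _ _) ?_
    have hD0 : 0 ≤ D := (abs_nonneg _).trans (hDT 0 (by
      rw [mem_Sx hb]
      simpa using hY0))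
    -- the good blocks
    set Gd := (Sx b (Y T)).filter fun i => (∀ v, i₀ ≤ i v) ∧ ∑ v, (b v : ℝ) * i v + i₀ ≤ Y T with hGd
    have h6 : ∀ i ∈ Sx b (Y T), |u T i - c| ≤ ε / (2 * (|l'| + 1)) +
        (if ¬ ((∀ v, i₀ ≤ i v) ∧ ∑ v, (b v : ℝ) * i v + i₀ ≤ Y T) then (D + |c|) else 0) := by
      intro i hi
      have h7 : |u T i - c| ≤ D + |c| := by
        have := abs_sub (u T i) c
        have := hDT i hi
        linarith
      have h9 : 0 < ε / (2 * (|l'| + 1)) := by positivity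
      by_cases h10 : (∀ v, i₀ ≤ i v) ∧ ∑ v, (b v : ℝ) * i v + i₀ ≤ Y T
      · rw [if_neg (not_not.2 h10), add_zero]
        exact hT i h10.1 h10.2
      · rw [if_pos h10]
        linarith
    refine lt_of_le_of_lt (Finset.sum_le_sum h6) ?_
    rw [Finset.sum_add_distrib, Finset.sum_const, nsmul_eq_mul, ← Finset.sum_filter,
      Finset.sum_const, nsmul_eq_mul]
    have h7 : ((Sx b (Y T - B)).card : ℝ) ≤ Gd.card := by
      have h8 : (Sx b (Y T - B)).card ≤ Gd.card := by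
        apply Finset.card_le_card_of_injOn (fun i v => i v + i₀)
        · intro i hi
          rw [Finset.mem_coe, mem_Sx hb] at hi
          have h9 : ∑ v, (b v : ℝ) * ((i v + i₀ : ℕ) : ℝ) =
              ∑ v, (b v : ℝ) * i v + ∑ v, (b v : ℝ) * i₀ := by
            rw [← Finset.sum_add_distrib]
            refine Finset.sum_congr rfl fun v _ => ?_
            push_cast
            ring
          have h10 : (0 : ℝ) ≤ i₀ := Nat.cast_nonneg _
          rw [Finset.mem_coe, hGd, Finset.mem_filter, mem_Sx hb, h9]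
          refine ⟨by linarith, fun v => Nat.le_add_left _ _, by linarith⟩
        · intro i _ j _ hij
          funext v
          have := congrFun hij v
          simp only at this
          omega
      exact_mod_cast h8
    have h8 : (((Sx b (Y T)).filter fun i =>
        ¬ ((∀ v, i₀ ≤ i v) ∧ ∑ v, (b v : ℝ) * i v + i₀ ≤ Y T)).card : ℝ) =
        (Sx b (Y T)).card - Gd.card := by
      have := Finset.card_filter_add_card_filter_not (s := Sx b (Y T))
        (fun i => (∀ v, i₀ ≤ i v) ∧ ∑ v, (b v : ℝ) * i v + i₀ ≤ Y T)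
      rw [← this]
      push_cast
      ring
    rw [h8]
    have h9 : 0 ≤ D + |c| := by positivity
    have h11 : ((Sx b (Y T)).card : ℝ) ≤ (|l'| + 1) * Real.log T ^ d := by
      rwa [div_le_iff₀ hld] at hNT
    have h12 : ((Sx b (Y T)).card : ℝ) * (ε / (2 * (|l'| + 1))) ≤ ε / 2 * Real.log T ^ d := by
      calc ((Sx b (Y T)).card : ℝ) * (ε / (2 * (|l'| + 1))) ≤
            ((|l'| + 1) * Real.log T ^ d) * (ε / (2 * (|l'| + 1))) := by gcongr
        _ = _ := by field_simp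
    have h13 : (((Sx b (Y T)).card : ℝ) - Gd.card) * (D + |c|) ≤
        (((Sx b (Y T)).card : ℝ) - (Sx b (Y T - B)).card) * (D + |c|) := by gcongr
    have h14 : (((Sx b (Y T)).card : ℝ) - (Sx b (Y T - B)).card) * (D + |c|) <
        ε / 2 * Real.log T ^ d := by
      rw [← sub_div, ← mul_div_assoc, div_lt_iff₀ hld] at h4
      linarith
    linarith
  have h3 := h1.add (hN.const_mul c)
  rw [zero_add] at h3
  refine h3.congr fun T => ?_
  rw [Finset.sum_sub_distrib, Finset.sum_const, nsmul_eq_mul]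
  ring

end Simplex

/-! ### The scales -/

variable {V : Type} [DecidableEq V] [Fintype V] {n : V → ℕ} {k : ℕ}

/-- The weights of the other vertices. -/
def bo (a : V → ℕ) (o : V) : Vo o → ℕ := fun v => a v

/-- The product of the scales of the other vertices. -/
noncomputable def Qo (a : V → ℕ) (o : V) (i : Vo o → ℕ) : ℝ := ∏ v : Vo o, ((2 : ℝ) ^ i v) ^ a v

theorem Qo_pos (a : V → ℕ) (o : V) (i : Vo o → ℕ) : 0 < Qo a o i :=
  Finset.prod_pos fun v _ => by positivity

/-- The scale of the distinguished vertex. -/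
noncomputable def Lo (a : V → ℕ) (o : V) (T : ℝ) (i : Vo o → ℕ) : ℝ :=
  (T / Qo a o i) ^ (1 / (a o : ℝ))

theorem Lo_pow {a : V → ℕ} {o : V} (ha : a o ≠ 0) {T : ℝ} (hT : 0 ≤ T) (i : Vo o → ℕ) :
    (Lo a o T i) ^ a o = T / Qo a o i := by
  have := Qo_pos a o i
  unfold Lo
  rw [← Real.rpow_natCast, ← Real.rpow_mul (by positivity), one_div,
    inv_mul_cancel₀ (by exact_mod_cast ha), Real.rpow_one]

theorem Lo_pos {a : V → ℕ} {o : V} {T : ℝ} (hT : 0 < T) (i : Vo o → ℕ) : 0 < Lo a o T i := by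
  have := Qo_pos a o i
  unfold Lo
  positivity

/-- The scales of a block. -/
noncomputable def Xs (a : V → ℕ) (o : V) (T : ℝ) (i : Vo o → ℕ) : V → ℝ :=
  fun v => if h : v = o then Lo a o T i else 2 ^ i ⟨v, h⟩

theorem Xs_o (a : V → ℕ) (o : V) (T : ℝ) (i : Vo o → ℕ) : Xs a o T i o = Lo a o T i := by
  unfold Xs
  rw [dif_pos rfl]

theorem Xs_v (a : V → ℕ) (o : V) (T : ℝ) (i : Vo o → ℕ) (v : Vo o) : Xs a o T i v = 2 ^ i v := by
  unfold Xs
  rw [dif_neg v.2]

theorem Xs_pos {a : V → ℕ} {o : V} {T : ℝ} (hT : 0 < T) (i : Vo o → ℕ) (v : V) :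
    0 < Xs a o T i v := by
  unfold Xs
  split_ifs
  · exact Lo_pos hT i
  · positivity

theorem Nm_split (a : V → ℕ) (o : V) (X : V → ℝ) : Nm a X = X o ^ a o * ∏ v : Vo o, X v ^ a v :=
  Fintype.prod_eq_mul_prod_subtype_ne (fun v => X v ^ a v) o

theorem Nm_Xs {a : V → ℕ} {o : V} (ha : a o ≠ 0) {T : ℝ} (hT : 0 ≤ T) (i : Vo o → ℕ) :
    Nm a (Xs a o T i) = T := by
  have := Qo_pos a o i
  rw [Nm_split a o, Xs_o, Lo_pow ha hT]
  simp only [Xs_v]
  change T / Qo a o i * Qo a o i = T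
  field_simp

/-- The bound for the blocks. -/
noncomputable def YT (b : ℕ) (R T : ℝ) : ℝ := Real.logb 2 (R ^ b * T)

theorem Qo_eq (a : V → ℕ) (o : V) (i : Vo o → ℕ) :
    Qo a o i = 2 ^ (∑ v : Vo o, (bo a o v : ℝ) * i v) := by
  unfold Qo
  rw [Real.rpow_sum_of_pos (by norm_num)]
  refine Finset.prod_congr rfl fun v _ => ?_
  unfold bo
  rw [mul_comm, Real.rpow_mul (by norm_num), Real.rpow_natCast, Real.rpow_natCast]

theorem Qo_le {a : V → ℕ} {o : V} {R T : ℝ} (hR : 0 < R) (hT : 0 < T) (i : Vo o → ℕ) (s : ℝ) :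
    ∑ v : Vo o, (bo a o v : ℝ) * i v + s ≤ YT (a o) R T ↔ Qo a o i * 2 ^ s ≤ R ^ a o * T := by
  unfold YT
  rw [Real.le_logb_iff_rpow_le (by norm_num) (by positivity), Qo_eq,
    Real.rpow_add (by norm_num)]

theorem Qo_le' {a : V → ℕ} {o : V} {R T : ℝ} (hR : 0 < R) (hT : 0 < T) (i : Vo o → ℕ) :
    ∑ v : Vo o, (bo a o v : ℝ) * i v ≤ YT (a o) R T ↔ Qo a o i ≤ R ^ a o * T := by
  have := Qo_le (a := a) (o := o) hR hT i 0
  rwa [add_zero, Real.rpow_zero, mul_one] at this

theorem Lo_ge {a : V → ℕ} {o : V} (ha : a o ≠ 0) {R T K : ℝ} (hR : 0 < R) (hT : 0 < T)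
    (i : Vo o → ℕ) (h : Qo a o i * (R * K) ^ a o ≤ R ^ a o * T) :
    K ≤ Lo a o T i := by
  have hQ := Qo_pos a o i
  apply le_of_pow_le_pow_left₀ ha (Lo_pos hT i).le
  rw [Lo_pow ha hT.le, le_div_iff₀ hQ]
  rw [mul_pow] at h
  have h2 : R ^ a o * (K ^ a o * Qo a o i) ≤ R ^ a o * T := by linarith
  exact le_of_mul_le_mul_left h2 (by positivity)

theorem Lo_one {a : V → ℕ} {o : V} (ha : a o ≠ 0) {R T : ℝ} (hR : 0 < R) (hT : 0 < T)
    (i : Vo o → ℕ) (h : Qo a o i ≤ R ^ a o * T) : 1 ≤ R * Lo a o T i := by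
  have h1 := Lo_ge ha hR hT (K := 1 / R) i (by
    rw [mul_one_div_cancel hR.ne', one_pow, mul_one]
    exact h)
  rwa [div_le_iff₀' hR] at h1

theorem Lo_lt {a : V → ℕ} {o : V} (ha : a o ≠ 0) {R T : ℝ} (hT : 0 < T)
    (i : Vo o → ℕ) (h : R ^ a o * T < Qo a o i) : R * Lo a o T i < 1 := by
  have hQ := Qo_pos a o i
  have h4 : (R * Lo a o T i) ^ a o < 1 ^ a o := by
    rw [mul_pow, Lo_pow ha hT.le, one_pow, ← mul_div_assoc, div_lt_one hQ]
    exact h
  exact lt_of_pow_lt_pow_left₀ (a o) (by norm_num) h4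

theorem YT_asymp (b : ℕ) {R : ℝ} (hR : 0 < R) :
    Tendsto (fun T : ℝ => YT b R T / Real.log T) atTop (𝓝 (1 / Real.log 2)) := by
  have hl2 : 0 < Real.log 2 := Real.log_pos (by norm_num)
  have h1 : Tendsto (fun T : ℝ => Real.log (R ^ b) / Real.log T) atTop (𝓝 0) :=
    Tendsto.div_atTop tendsto_const_nhds Real.tendsto_log_atTop
  have h2 := (h1.add_const 1).div_const (Real.log 2)
  rw [zero_add] at h2
  apply h2.congr'
  filter_upwards [eventually_gt_atTop 1] with T hT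
  have hlog : 0 < Real.log T := Real.log_pos hT
  unfold YT Real.logb
  rw [Real.log_mul (by positivity) (by positivity)]
  field_simp

end Pool.Agent.N852.MM
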