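import Mathlib
import Pool.Agent.N852.MM.Hyp

/-!
Systems of multilinear equations: the sums over the hyperbolic region.
-/

namespace Pool.Agent.N852.MM

set_option linter.unusedSectionVars false

open Matrix Module Filter Topology Function
open Pool.Agent.N852 (ic ic_add ic_sub ic_neg Cg om om_nonneg om_le_one om_one om_zero om_cont)
open Pool.Agent.N852.DD (th th_pos th_le_one chi chi_nonneg chi_le_one chi_one chi_zero chi_lip
  norm_lip lip_approx ph ph_nonneg ph_le_one ph_large ph_small ph_cont ph_sum norm_ic_ge)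

variable {V : Type} [DecidableEq V] [Fintype V] {n : V → ℕ} {k : ℕ}
  {F : Sys n k} {G : V → Tup n ℤ → Prop} {a : V → ℕ} {D : ℕ}

/-- The basic height. -/
noncomputable def HH (a : V → ℕ) (x : Tup n ℤ) : ℝ := Nm a fun v => ‖ic (x v)‖

open Classical in
/-- The good solutions of bounded height. -/
noncomputable def FU (F : Sys n k) (G : V → Tup n ℤ → Prop) (a : V → ℕ) (T : ℝ) :
    Finset (Tup n ℤ) :=
  (UX F G fun _ => T).filter fun x => HH a x ≤ T

theorem Eng.pos (hE : Eng F G a D) (v : V) : 1 ≤ a v := by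
  have := hE.two v
  omega

theorem Eng.ne0 (hE : Eng F G a D) (v : V) : a v ≠ 0 := by
  have := hE.two v
  omega

theorem norm_le_HH (ha : ∀ v, 1 ≤ a v) {x : Tup n ℤ} (hx : ∀ v, x v ≠ 0) (v : V) :
    ‖ic (x v)‖ ≤ HH a x := by
  unfold HH
  rw [Nm_split a v]
  have e1 := norm_ic_ge (hx v)
  have e2 : ‖ic (x v)‖ ≤ ‖ic (x v)‖ ^ a v := le_self_pow₀ e1 (by have := ha v; omega)
  have e3 : 1 ≤ ∏ u : Vo v, ‖ic (x u)‖ ^ a u := by
    apply Finset.prod_induction _ (fun x : ℝ => 1 ≤ x) (fun x y hx hy => by nlinarith) le_rfl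
    intro u _
    exact one_le_pow₀ (norm_ic_ge (hx u))
  calc ‖ic (x v)‖ ≤ ‖ic (x v)‖ ^ a v := e2
    _ = ‖ic (x v)‖ ^ a v * 1 := (mul_one _).symm
    _ ≤ _ := by gcongr

theorem HH_ge {x : Tup n ℤ} (hx : ∀ v, x v ≠ 0) : 1 ≤ HH a x :=
  one_le_Nm fun v => norm_ic_ge (hx v)

theorem HH_nonneg (x : Tup n ℤ) : 0 ≤ HH a x :=
  Finset.prod_nonneg fun _ _ => pow_nonneg (norm_nonneg _) _

theorem mem_FU (hE : Eng F G a D) {T : ℝ} (hT : 0 ≤ T) {x : Tup n ℤ} :
    x ∈ FU F G a T ↔ Inc F x ∧ (∀ u, G u x) ∧ HH a x ≤ T := by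
  unfold FU
  rw [Finset.mem_filter, mem_UX fun _ => hT]
  constructor
  · rintro ⟨⟨-, h1, h2⟩, h4⟩
    exact ⟨h1, h2, h4⟩
  · rintro ⟨h1, h2, h4⟩
    exact ⟨⟨fun v => (norm_le_HH hE.pos (hE.ne x h2) v).trans h4, h1, h2⟩, h4⟩

theorem ic_ne {N : ℕ} {x : Fin N → ℤ} (hx : x ≠ 0) : ic x ≠ 0 := by
  intro h
  have := norm_ic_ge hx
  rw [h, norm_zero] at this
  linarith

open Classical in
/-- The weighted number of solutions. -/
noncomputable def WW (F : Sys n k) (G : V → Tup n ℤ → Prop) (a : V → ℕ) (h : Tup n ℝ → ℝ)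
    (κ ε : ℝ) (q : ℕ) (α : Tup n ℤ) (R T : ℝ) : ℝ :=
  ∑ x ∈ FU F G a (R * T), if ∀ v, Cg q (x v) (α v) then om ε (κ * (h (iT x) / T)) else 0

theorem PhW_eq {o : V} {h : Tup n ℝ → ℝ} (hh : LM F a h) (ha : a o ≠ 0) {κ ε : ℝ}
    {x : Tup n ℤ} (hi : Inc F x) (hx : ∀ v, x v ≠ 0) {T : ℝ} (hT : 0 < T) (i : Vo o → ℕ) :
    PhW o h κ ε (sc (Xs a o T i) x) =
      (∏ v : Vo o, ph (‖ic (x v)‖ / 2 ^ i v)) * om ε (κ * (h (iT x) / T)) := by
  have hX := Xs_pos (a := a) (o := o) hT i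
  have hx' : ∀ v, iT x v ≠ 0 := fun v => ic_ne (hx v)
  have hs : ∀ v, sc (Xs a o T i) x v ≠ 0 := fun v =>
    smul_ne_zero (inv_pos.2 (hX v)).ne' (hx' v)
  unfold PhW
  rw [hz_eq hs]
  have h1 : h (sc (Xs a o T i) x) = h (iT x) / T := by
    have h2 := hh.homog (fun v => (Xs a o T i v)⁻¹) (iT x) (fun v => (inv_pos.2 (hX v)).ne') hx'
      (inc_iT.2 hi)
    have h3 : ∏ v, ‖(Xs a o T i v)⁻¹‖ ^ a v = T⁻¹ := by
      rw [← Nm_Xs ha hT.le i]
      conv_rhs => unfold Nm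
      rw [← Finset.prod_inv_distrib]
      refine Finset.prod_congr rfl fun v _ => ?_
      rw [norm_inv, Real.norm_of_nonneg, inv_pow, Nm_Xs ha hT.le i]
      · have := hX v
        rw [Nm_Xs ha hT.le i]
        exact this.le
    rw [h3] at h2
    rw [div_eq_inv_mul]
    exact h2
  rw [h1]
  congr 1
  refine Finset.prod_congr rfl fun v _ => ?_
  unfold sc
  rw [Xs_v, norm_smul, norm_inv, norm_pow, Real.norm_ofNat, div_eq_inv_mul]

theorem blk_eq (hE : Eng F G a D) {o : V} {h : Tup n ℝ → ℝ} (hh : LM F a h) {c : ℝ}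
    (hcb : ∀ x, Inc F x → c * Nm a (nrm x) ≤ hz h x)
    {κ ε R R' : ℝ} (hκ : 0 < κ) (hε : 0 < ε) (hc : 0 < c) (hR : 0 ≤ R) (hRc : 1 + ε ≤ κ * (c * R))
    (hCW : CW F (PhW o h κ ε) R') {q : ℕ} (α : Tup n ℤ) {T : ℝ} (hT : 0 < T)
    (i : Vo o → ℕ) : (open Classical in ∑ x ∈ FU F G a (R * T), if ∀ v, Cg q (x v) (α v) then
      (∏ v : Vo o, ph (‖ic (x v)‖ / 2 ^ i v)) * om ε (κ * (h (iT x) / T)) else 0) =
      NN F G (PhW o h κ ε) q α R' (Xs a o T i) := by
  classical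
  have hR' : 0 ≤ R' := by linarith [hCW.R4]
  have hX := Xs_pos (a := a) (o := o) hT i
  have hX0 : ∀ v, 0 ≤ Xs a o T i v := fun v => (hX v).le
  have hRT : 0 ≤ R * T := by positivity
  unfold NN
  apply Finset.sum_congr_of_eq_on_inter
  · intro p hp hp'
    rw [mem_FU hE hRT] at hp
    rw [mem_UX (rx_nonneg hR' hX0)] at hp'
    split_ifs
    · rw [← PhW_eq hh (hE.ne0 o) hp.1 (hE.ne p hp.2.1) hT i]
      have hi : Inc F (sc (Xs a o T i) p) := inc_smul (inc_iT.2 hp.1) fun v => (Xs a o T i v)⁻¹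
      by_cases h3 : ∀ v, ‖ic (p v)‖ ≤ rx R' (Xs a o T i) v
      · exact absurd ⟨h3, hp.1, hp.2.1⟩ hp'
      · push Not at h3
        obtain ⟨v, hv⟩ := h3
        apply hCW.supp _ v hi
        unfold sc
        have := hX v
        rw [norm_smul, norm_inv, Real.norm_of_nonneg this.le, ← div_eq_inv_mul, lt_div_iff₀ this]
        exact hv
    · rfl
  · intro p hp hp'
    rw [mem_UX (rx_nonneg hR' hX0)] at hp
    rw [mem_FU hE hRT] at hp'
    obtain ⟨-, hi, h1⟩ := hp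
    have hne := hE.ne p h1
    split_ifs
    · rw [PhW_eq hh (hE.ne0 o) hi hne hT i]
      have h3 : R * T < HH a p := by
        by_contra hcon
        exact hp' ⟨hi, h1, not_lt.1 hcon⟩
      have h4 := hcb (iT p) (inc_iT.2 hi)
      rw [hz_eq (x := iT p) fun v => ic_ne (hne v)] at h4
      rw [om_zero hε, mul_zero]
      refine hRc.trans ?_
      apply mul_le_mul_of_nonneg_left _ hκ.le
      rw [le_div_iff₀ hT]
      calc c * R * T = c * (R * T) := by ring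
        _ ≤ c * HH a p := by gcongr
        _ ≤ _ := h4
    · rfl
  · intro p hp _
    rw [mem_FU hE hRT] at hp
    split_ifs
    · rw [PhW_eq hh (hE.ne0 o) hp.1 (hE.ne p hp.2.1) hT i]
    · rfl

/-- The decomposition into blocks. -/
theorem WW_blocks (hE : Eng F G a D) {o : V} {h : Tup n ℝ → ℝ} (hh : LM F a h) {c : ℝ}
    (hcb : ∀ x, Inc F x → c * Nm a (nrm x) ≤ hz h x)
    {κ ε R R' : ℝ} (hκ : 0 < κ) (hε : 0 < ε) (hc : 0 < c) (hR : 0 ≤ R) (hRc : 1 + ε ≤ κ * (c * R))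
    (hCW : CW F (PhW o h κ ε) R') {q : ℕ} (α : Tup n ℤ) {T : ℝ} (hT : 0 < T) :
    WW F G a h κ ε q α R T = ∑ i ∈ Sx (bo a o) (YT (a o) R' T),
      NN F G (PhW o h κ ε) q α R' (Xs a o T i) := by
  classical
  have hR' : 0 < R' := by linarith [hCW.R4]
  have hbo : ∀ v, 1 ≤ bo a o v := fun v => hE.pos v
  obtain ⟨I, hI⟩ := pow_unbounded_of_one_lt (R * T) (by norm_num : (1 : ℝ) < 2)
  obtain ⟨J, hJ⟩ : ∃ J : ℕ, J = max I (⌊YT (a o) R' T⌋₊) := ⟨_, rfl⟩
  have hI1 : I ≤ J := by rw [hJ]; exact le_max_left _ _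
  have hI2 : ⌊YT (a o) R' T⌋₊ ≤ J := by rw [hJ]; exact le_max_right _ _
  have h2I : R * T ≤ 2 ^ J := hI.le.trans (pow_le_pow_right₀ (by norm_num) hI1)
  have hRT : 0 ≤ R * T := by positivity
  have h1 : WW F G a h κ ε q α R T =
      ∑ i ∈ Fintype.piFinset fun _ : Vo o => Finset.range (J + 1),
      NN F G (PhW o h κ ε) q α R' (Xs a o T i) := by
    have h2 : ∀ i, NN F G (PhW o h κ ε) q α R' (Xs a o T i) =
        ∑ x ∈ FU F G a (R * T), if ∀ v, Cg q (x v) (α v) then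
          (∏ v : Vo o, ph (‖ic (x v)‖ / 2 ^ i v)) * om ε (κ * (h (iT x) / T)) else 0 := by
      intro i
      rw [← blk_eq hE hh hcb hκ hε hc hR hRc hCW α hT i]
    rw [Finset.sum_congr rfl fun i _ => h2 i, Finset.sum_comm]
    unfold WW
    refine Finset.sum_congr rfl fun p hp => ?_
    by_cases hcl : ∀ v, Cg q (p v) (α v)
    · simp only [if_pos hcl]
      rw [← Finset.sum_mul]
      rw [mem_FU hE hRT] at hp
      obtain ⟨h3, h4, h6⟩ := hp
      have hne := hE.ne p h4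
      have e1 : ∑ i ∈ Fintype.piFinset fun _ : Vo o => Finset.range (J + 1),
          ∏ v : Vo o, ph (‖ic (p v)‖ / 2 ^ i v) = 1 := by
        rw [← Finset.prod_univ_sum (fun _ : Vo o => Finset.range (J + 1))
          (fun (v : Vo o) (j : ℕ) => ph (‖ic (p v)‖ / 2 ^ j))]
        apply Finset.prod_eq_one
        intro v _
        exact ph_sum (norm_ic_ge (hne v)) (((norm_le_HH hE.pos hne v).trans h6).trans h2I)
      rw [e1, one_mul]
    · simp only [if_neg hcl, Finset.sum_const_zero]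
  rw [h1]
  symm
  apply Finset.sum_subset
  · intro i hi
    rw [Fintype.mem_piFinset]
    intro v
    have := Sx_le hi v
    rw [Finset.mem_range]
    omega
  · intro i _ hi
    rw [mem_Sx hbo, Qo_le' hR' hT, not_le] at hi
    have h2 := Lo_lt (hE.ne0 o) hT i hi
    unfold NN
    apply Finset.sum_eq_zero
    intro p hp
    have hX := Xs_pos (a := a) (o := o) hT i
    rw [mem_UX (rx_nonneg hR'.le fun v => (hX v).le)] at hp
    have h3 := norm_ic_ge (hE.ne p hp.2.2 o)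
    have h4 := hp.1 o
    unfold rx at h4
    rw [Xs_o] at h4
    linarith

/-- **The asymptotic formula for the weighted number of solutions.** -/
theorem WW_asymp (hE : Eng F G a D) (hS : SimP) (o : V) {h : Tup n ℝ → ℝ} (hh : LM F a h)
    {c₀ : ℝ} (hc₀ : 0 < c₀) (hcb : ∀ x, Inc F x → c₀ * Nm a (nrm x) ≤ hz h x)
    {κ ε R : ℝ} (hκ : 0 < κ) (hε : 0 < ε) (hR : 0 ≤ R) (hRc : 1 + ε ≤ κ * (c₀ * R))
    {q : ℕ} (hq : q ≠ 0) (α : Tup n ℤ) :
    ∃ c : ℝ, Tendsto (fun T : ℝ => WW F G a h κ ε q α R T /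
      (T * Real.log T ^ Fintype.card (Vo o))) atTop (𝓝 c) := by
  classical
  -- the radius
  obtain ⟨R', hR'⟩ : ∃ R' : ℝ, R' = max 4 ((1 + ε) / (κ * (c₀ * (1 / 2) ^ (∑ v, a v)))) := ⟨_, rfl⟩
  have hR'4 : 4 ≤ R' := by rw [hR']; exact le_max_left _ _
  have hR'0 : 0 < R' := by linarith
  have hR'1 : 1 ≤ R' := by linarith
  have hR'c : 1 + ε ≤ κ * (c₀ * ((1 / 2) ^ (∑ v, a v) * R')) := by
    have h1 : (1 + ε) / (κ * (c₀ * (1 / 2) ^ (∑ v, a v))) ≤ R' := by
      rw [hR']; exact le_max_right _ _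
    rw [div_le_iff₀ (by positivity)] at h1
    calc 1 + ε ≤ R' * (κ * (c₀ * (1 / 2) ^ (∑ v, a v))) := h1
      _ = _ := by ring
  have hbo : ∀ v, 1 ≤ bo a o v := fun v => hE.pos v
  have hCW := PhW_CW (o := o) hh hE.pos hc₀ hcb hκ hε hR'4 hR'c
  obtain ⟨c, hc⟩ := CW_lim hE hCW hq α
  obtain ⟨B, hB, hUX⟩ := UX_le hE
  have hB0 : 0 < B := by linarith
  obtain ⟨l, hl, hSl⟩ := Sx_asymp hS (bo a o) hbo
  have hl2 : 0 < Real.log 2 := Real.log_pos (by norm_num)
  refine ⟨c * (l * (1 / Real.log 2) ^ Fintype.card (Vo o)), ?_⟩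
  set u : ℝ → (Vo o → ℕ) → ℝ := fun T i =>
    NN F G (PhW o h κ ε) q α R' (Xs a o T i) / T with hu
  have hkey := cesaro (b := bo a o) hbo hSl (Y := YT (a o) R') (r := 1 / Real.log 2)
    (by positivity) (YT_asymp (a o) hR'0) (u := u) (c := c) (D := B * R' ^ (∑ v, a v)) ?_ ?_
  · apply hkey.congr'
    filter_upwards [eventually_gt_atTop 1] with T hT
    have hT0 : 0 < T := by linarith
    rw [WW_blocks hE hh hcb hκ hε hc₀ hR hRc hCW α hT0]
    simp only [hu]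
    rw [← Finset.sum_div, div_div]
  · -- boundedness
    filter_upwards [eventually_ge_atTop 1] with T hT
    intro i hi
    have hT0 : 0 < T := by linarith
    rw [mem_Sx hbo, Qo_le' hR'0 hT0] at hi
    have hX := Xs_pos (a := a) (o := o) hT0 i
    have h2 := Lo_one (hE.ne0 o) hR'0 hT0 i hi
    have h3 : ∀ v, 1 ≤ rx R' (Xs a o T i) v := by
      intro v
      unfold rx
      by_cases hv : v = o
      · rw [hv, Xs_o]
        exact h2
      · have h4 := Xs_v a o T i ⟨v, hv⟩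
        simp only at h4
        rw [h4]
        have : (1 : ℝ) ≤ 2 ^ i ⟨v, hv⟩ := one_le_pow₀ (by norm_num)
        nlinarith
    have h5 := hUX _ h3
    rw [Nm_rx, Nm_Xs (hE.ne0 o) hT0.le] at h5
    simp only [hu]
    rw [abs_div, abs_of_pos hT0, div_le_iff₀ hT0]
    refine (NN_le hCW.le_one).trans (h5.trans (le_of_eq ?_))
    ring
  · -- convergence
    intro η hη
    obtain ⟨K₀, hK₀, hlim⟩ := hc η hη
    obtain ⟨i₀, hi₀⟩ := pow_unbounded_of_one_lt (max K₀ ((R' * K₀) ^ a o))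
      (by norm_num : (1 : ℝ) < 2)
    refine ⟨i₀, ?_⟩
    filter_upwards [eventually_ge_atTop 1] with T hT
    intro i hi hiJ
    have hT0 : 0 < T := by linarith
    rw [Qo_le hR'0 hT0, Real.rpow_natCast] at hiJ
    have hQ := Qo_pos a o i
    have h3 : K₀ ≤ Lo a o T i := by
      apply Lo_ge (hE.ne0 o) hR'0 hT0 i
      refine le_trans ?_ hiJ
      gcongr
      exact (le_max_right _ _).trans hi₀.le
    have h4 := hlim (Xs a o T i) (by
      intro v
      by_cases hv : v = o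
      · rw [hv, Xs_o]
        exact h3
      · have h4 := Xs_v a o T i ⟨v, hv⟩
        simp only at h4
        rw [h4]
        calc K₀ ≤ 2 ^ i₀ := (le_max_left _ _).trans hi₀.le
          _ ≤ 2 ^ i ⟨v, hv⟩ := pow_le_pow_right₀ (by norm_num) (hi ⟨v, hv⟩))
    unfold TT at h4
    rw [Nm_Xs (hE.ne0 o) hT0.le] at h4
    exact h4

/-- **The upper bound for the hyperbolic region.** -/
theorem FU_le (hE : Eng F G a D) (o : V) : ∃ C : ℝ, 1 ≤ C ∧ ∀ T : ℝ, 1 ≤ T →
    ((FU F G a T).card : ℝ) ≤ C * T * (1 + Real.log T) ^ Fintype.card (Vo o) := by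
  classical
  obtain ⟨B, hB, hUX⟩ := UX_le hE
  have hB0 : 0 < B := by linarith
  have hbo : ∀ v, 1 ≤ bo a o v := fun v => hE.pos v
  refine ⟨B * 2 ^ (∑ v, a v) * 2 ^ Fintype.card (Vo o), ?_, ?_⟩
  · have h1 : (1 : ℝ) ≤ 2 ^ (∑ v, a v) := one_le_pow₀ (by norm_num)
    have h2 : (1 : ℝ) ≤ 2 ^ Fintype.card (Vo o) := one_le_pow₀ (by norm_num)
    have h3 : 1 ≤ B * 2 ^ (∑ v, a v) := by nlinarith
    nlinarith
  intro T hT
  have hT0 : 0 < T := by linarith
  have hlog : 0 ≤ Real.log T := Real.log_nonneg hT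
  have hcov : FU F G a T ⊆ (Sx (bo a o) (YT (a o) 1 T)).biUnion fun i =>
      UX F G (rx 2 (Xs a o T i)) := by
    intro p hp
    rw [mem_FU hE hT0.le] at hp
    obtain ⟨h1, h2, h4⟩ := hp
    have hne := hE.ne p h2
    have hex : ∀ v : Vo o, ∃ i : ℕ, (2 : ℝ) ^ i ≤ ‖ic (p v)‖ ∧ ‖ic (p v)‖ < 2 ^ (i + 1) := fun v =>
      exists_nat_pow_near (norm_ic_ge (hne v)) (by norm_num)
    choose i hi1 hi2 using hex
    have hQ := Qo_pos a o i
    have hL := Lo_pos (a := a) (o := o) hT0 i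
    unfold HH at h4
    rw [Nm_split a o] at h4
    have h5 : Qo a o i * ‖ic (p o)‖ ^ a o ≤ T := by
      refine le_trans ?_ h4
      rw [mul_comm]
      apply mul_le_mul_of_nonneg_left _ (by positivity)
      unfold Qo
      exact Finset.prod_le_prod (fun v _ => by positivity) fun v _ => by
        have := hi1 v
        gcongr
    have e1 := norm_ic_ge (hne o)
    have h6 : ‖ic (p o)‖ ≤ Lo a o T i := by
      apply le_of_pow_le_pow_left₀ (n := a o) (hE.ne0 o) hL.le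
      rw [Lo_pow (hE.ne0 o) hT0.le, le_div_iff₀ hQ, mul_comm]
      exact h5
    rw [Finset.mem_biUnion]
    refine ⟨i, ?_, ?_⟩
    · rw [mem_Sx hbo, Qo_le' one_pos hT0, one_pow, one_mul]
      have : 1 ≤ ‖ic (p o)‖ ^ a o := one_le_pow₀ e1
      nlinarith
    · have hX0 : ∀ v, 0 ≤ Xs a o T i v := fun v => (Xs_pos hT0 i v).le
      rw [mem_UX (rx_nonneg (by norm_num) hX0)]
      refine ⟨fun v => ?_, h1, h2⟩
      unfold rx
      by_cases hv : v = o
      · rw [hv, Xs_o]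
        linarith
      · have h7 := Xs_v a o T i ⟨v, hv⟩
        simp only at h7
        rw [h7]
        have h8 := hi2 ⟨v, hv⟩
        rw [pow_succ] at h8
        simp only at h8
        linarith
  have h1 : ((FU F G a T).card : ℝ) ≤ ∑ i ∈ Sx (bo a o) (YT (a o) 1 T),
      ((UX F G (rx 2 (Xs a o T i))).card : ℝ) := by
    have h2 := (Finset.card_le_card hcov).trans Finset.card_biUnion_le
    exact_mod_cast h2
  have h2 : ∀ i ∈ Sx (bo a o) (YT (a o) 1 T),
      ((UX F G (rx 2 (Xs a o T i))).card : ℝ) ≤ B * 2 ^ (∑ v, a v) * T := by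
    intro i hi
    rw [mem_Sx hbo, Qo_le' one_pos hT0] at hi
    have h4 := Lo_one (hE.ne0 o) one_pos hT0 i hi
    rw [one_mul] at h4
    have h5 : ∀ v, 1 ≤ rx 2 (Xs a o T i) v := by
      intro v
      unfold rx
      by_cases hv : v = o
      · rw [hv, Xs_o]
        linarith
      · have h7 := Xs_v a o T i ⟨v, hv⟩
        simp only at h7
        rw [h7]
        have : (1 : ℝ) ≤ 2 ^ i ⟨v, hv⟩ := one_le_pow₀ (by norm_num)
        linarith
    have h6 := hUX _ h5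
    rw [Nm_rx, Nm_Xs (hE.ne0 o) hT0.le] at h6
    linarith
  have h3 : ((Sx (bo a o) (YT (a o) 1 T)).card : ℝ) ≤
      (2 * (1 + Real.log T)) ^ Fintype.card (Vo o) := by
    have h4 : (Sx (bo a o) (YT (a o) 1 T)).card ≤
        (⌊YT (a o) 1 T⌋₊ + 1) ^ Fintype.card (Vo o) := card_Sx _ _
    have h5 : (⌊YT (a o) 1 T⌋₊ : ℝ) ≤ YT (a o) 1 T := by
      apply Nat.floor_le
      unfold YT
      rw [one_pow, one_mul]
      exact Real.logb_nonneg (by norm_num) hT
    have h7 : YT (a o) 1 T ≤ 2 * Real.log T := by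
      unfold YT
      rw [one_pow, one_mul]
      unfold Real.logb
      rw [div_le_iff₀ (Real.log_pos (by norm_num))]
      have := Real.log_two_gt_d9
      nlinarith
    calc ((Sx (bo a o) (YT (a o) 1 T)).card : ℝ)
        ≤ (((⌊YT (a o) 1 T⌋₊ + 1) ^ Fintype.card (Vo o) : ℕ) : ℝ) := by exact_mod_cast h4
      _ = ((⌊YT (a o) 1 T⌋₊ : ℝ) + 1) ^ Fintype.card (Vo o) := by push_cast; rfl
      _ ≤ (2 * (1 + Real.log T)) ^ Fintype.card (Vo o) := by
        gcongr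
        linarith
  calc ((FU F G a T).card : ℝ) ≤ ∑ i ∈ Sx (bo a o) (YT (a o) 1 T),
      ((UX F G (rx 2 (Xs a o T i))).card : ℝ) := h1
    _ ≤ ∑ i ∈ Sx (bo a o) (YT (a o) 1 T), B * 2 ^ (∑ v, a v) * T := Finset.sum_le_sum h2
    _ = ((Sx (bo a o) (YT (a o) 1 T)).card : ℝ) * (B * 2 ^ (∑ v, a v) * T) := by
        rw [Finset.sum_const, nsmul_eq_mul]
    _ ≤ (2 * (1 + Real.log T)) ^ Fintype.card (Vo o) * (B * 2 ^ (∑ v, a v) * T) := by gcongr
    _ = _ := by
        rw [mul_pow]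
        ring

end Pool.Agent.N852.MM
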