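import Mathlib
import Pool.Agent.N852.MM.Hyp2
import Pool.Agent.N852.DD.NP
import Pool.Agent.N852.DD.Low2

/-!
Systems of multilinear equations: non-primitive vectors, and the lower bound.
-/

namespace Pool.Agent.N852.MM

set_option linter.unusedSectionVars false

open Matrix Module Filter Topology Function
open Pool.Agent.N852 (ic ic_add ic_sub ic_neg Cg om om_nonneg om_le_one om_one om_zero
  om_cont Prm sum_tail_sq exists_prim)
open Pool.Agent.N852.DD (th th_pos th_le_one chi chi_nonneg chi_le_one chi_one chi_zero chi_lip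
  norm_lip lip_approx ph ph_nonneg ph_le_one ph_large ph_small ph_cont ph_sum norm_ic_ge ic_smul)

variable {V : Type} [DecidableEq V] [Fintype V] {n : V → ℕ} {k : ℕ}
  {F : Sys n k} {G : V → Tup n ℤ → Prop} {a : V → ℕ} {D : ℕ}

theorem FU_le' (hE : Eng F G a D) (o : V) : ∃ C : ℝ, 1 ≤ C ∧ ∀ T T' : ℝ, 1 ≤ T → 0 ≤ T' →
    T' ≤ T → ((FU F G a T').card : ℝ) ≤ C * T' * (1 + Real.log T) ^ Fintype.card (Vo o) := by
  obtain ⟨C, hC, h⟩ := FU_le hE o
  refine ⟨C, hC, ?_⟩
  intro T T' hT hT' hTT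
  have hlog : 0 ≤ Real.log T := Real.log_nonneg hT
  rcases lt_or_ge T' 1 with h1 | h1
  · have : FU F G a T' = ∅ := by
      rw [Finset.eq_empty_iff_forall_notMem]
      intro p hp
      rw [mem_FU hE hT'] at hp
      have := HH_ge (a := a) (hE.ne p hp.2.1)
      linarith [hp.2.2]
    rw [this, Finset.card_empty, Nat.cast_zero]
    positivity
  · refine (h T' h1).trans ?_
    have h2 : Real.log T' ≤ Real.log T := Real.log_le_log (by linarith) hTT
    have h3 : 0 ≤ Real.log T' := Real.log_nonneg h1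
    gcongr

theorem inc_of_smul {x : Tup n ℤ} {c : V → ℤ} (hc : ∀ v, c v ≠ 0)
    (h : Inc F fun v => c v • x v) : Inc F x := by
  intro i
  have h1 := h i
  rw [ev_smul, mul_eq_zero] at h1
  exact h1.resolve_left (Finset.prod_ne_zero_iff.2 fun v _ => hc v)

theorem HH_smul (x : Tup n ℤ) (c : V → ℤ) :
    HH a (fun v => c v • x v) = Nm a (fun v => |(c v : ℝ)|) * HH a x := by
  unfold HH
  rw [← Nm_mul]
  congr 1
  funext v
  rw [ic_smul, norm_smul, Real.norm_eq_abs]

theorem update_smul_eq (x : Tup n ℤ) (v : V) (d : ℤ) (y : Fin (n v) → ℤ) (h : x v = d • y) :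
    x = fun u => (update (1 : V → ℤ) v d) u • (update x v y) u := by
  funext u
  by_cases hu : u = v
  · subst hu
    rw [update_self, update_self, h]
  · rw [update_of_ne hu, update_of_ne hu, Pi.one_apply, one_smul]

/-- **Families with one vector which is divisible by a large number.** -/
theorem np (hE : Eng F G a D) (o : V) : ∃ C : ℝ, 1 ≤ C ∧ ∀ (v : V) (T : ℝ) (P : ℕ)
    (S : Finset (Tup n ℤ)), 1 ≤ T → 1 ≤ P →
    (∀ x ∈ S, Inc F x ∧ (∀ u, G u x) ∧ HH a x ≤ T ∧
      ∃ (d : ℕ) (y : Fin (n v) → ℤ), P < d ∧ x v = (d : ℤ) • y) →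
    (S.card : ℝ) ≤ C * T * (1 + Real.log T) ^ Fintype.card (Vo o) / P := by
  classical
  obtain ⟨C, hC, hFU⟩ := FU_le' hE o
  refine ⟨C, hC, ?_⟩
  intro v T P S hT hP hS
  have hT0 : 0 < T := by linarith
  have hlog : 0 ≤ Real.log T := Real.log_nonneg hT
  have hP0 : (0 : ℝ) < P := by exact_mod_cast hP
  have hex : ∀ p : Tup n ℤ, ∃ (d : ℕ) (y : Fin (n v) → ℤ), p ∈ S → P < d ∧ p v = (d : ℤ) • y := by
    intro p
    by_cases hp : p ∈ S
    · obtain ⟨_, _, _, d, x, h⟩ := hS p hp
      exact ⟨d, x, fun _ => h⟩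
    · exact ⟨0, 0, fun h => absurd h hp⟩
  choose d y hdx using hex
  set x : Tup n ℤ → Tup n ℤ := fun p => update p v (y p) with hx
  have heq : ∀ p ∈ S, p = fun u => (update (1 : V → ℤ) v (d p : ℤ)) u • x p u := fun p hp =>
    update_smul_eq p v (d p) (y p) (hdx p hp).2
  have hcne : ∀ p ∈ S, ∀ u, (update (1 : V → ℤ) v (d p : ℤ)) u ≠ 0 := by
    intro p hp u
    by_cases hu : u = v
    · subst hu
      rw [update_self]
      have := (hdx p hp).1
      exact_mod_cast (by omega : d p ≠ 0)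
    · rw [update_of_ne hu]
      exact one_ne_zero
  have hNm : ∀ p, Nm a (fun u => |((update (1 : V → ℤ) v (d p : ℤ) u : ℤ) : ℝ)|) =
      (d p : ℝ) ^ a v := by
    intro p
    have h1 : (fun u => |((update (1 : V → ℤ) v (d p : ℤ) u : ℤ) : ℝ)|) =
        update (1 : V → ℝ) v (d p : ℝ) := by
      funext u
      by_cases hu : u = v
      · subst hu
        rw [update_self, update_self]
        simp
      · rw [update_of_ne hu, update_of_ne hu]
        simp
    rw [h1, Nm_upd]
    unfold Nv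
    simp
  have hjx : ∀ p ∈ S, (∀ u, G u (x p)) ∧ Inc F (x p) ∧ HH a p = (d p : ℝ) ^ a v * HH a (x p) := by
    intro p hp
    obtain ⟨h1, h2, h3, _⟩ := hS p hp
    have h4 := heq p hp
    have h5 := hcne p hp
    refine ⟨fun u => ?_, ?_, ?_⟩
    · have h6 := h2 u
      rw [h4] at h6
      exact (hE.scal u (x p) _ h5).1 h6
    · rw [h4] at h1
      exact inc_of_smul h5 h1
    · conv_lhs => rw [h4]
      rw [HH_smul, hNm]
  have hmaps : ∀ p ∈ S, d p ∈ Finset.Icc (P + 1) ⌊T⌋₊ := by
    intro p hp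
    obtain ⟨h1, h2, h3, _⟩ := hS p hp
    obtain ⟨h5, h6⟩ := hdx p hp
    rw [Finset.mem_Icc]
    refine ⟨h5, Nat.le_floor ?_⟩
    have h7 := (hjx p hp).2.2
    have h8 : 1 ≤ HH a (x p) := HH_ge (hE.ne _ (hjx p hp).1)
    have h9 : (1 : ℝ) ≤ d p := by exact_mod_cast (by omega : 1 ≤ d p)
    have h10 : (d p : ℝ) ≤ (d p : ℝ) ^ a v := le_self_pow₀ h9 (hE.ne0 v)
    have h11 : (d p : ℝ) ^ a v ≤ HH a p := by
      rw [h7]
      exact le_mul_of_one_le_right (by positivity) h8
    linarith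
  rw [Finset.card_eq_sum_card_fiberwise hmaps]
  push_cast
  have hone : ∀ e ∈ Finset.Icc (P + 1) ⌊T⌋₊,
      ((S.filter fun p => d p = e).card : ℝ) ≤
        C * T * (1 + Real.log T) ^ Fintype.card (Vo o) * (1 / (e : ℝ)) ^ 2 := by
    intro e he
    rw [Finset.mem_Icc] at he
    have he0 : (0 : ℝ) < e := by exact_mod_cast (by omega : 0 < e)
    have he1 : (1 : ℝ) ≤ e := by exact_mod_cast (by omega : 1 ≤ e)
    have h1 : (S.filter fun p => d p = e).card ≤ (FU F G a (T / (e : ℝ) ^ a v)).card := by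
      apply Finset.card_le_card_of_injOn x
      · intro p hp
        rw [Finset.mem_coe, Finset.mem_filter] at hp
        rw [Finset.mem_coe, mem_FU hE (by positivity)]
        have h2 := hS p hp.1
        have h3 := hjx p hp.1
        refine ⟨h3.2.1, h3.1, ?_⟩
        rw [le_div_iff₀ (by positivity), mul_comm, ← hp.2, ← h3.2.2]
        exact h2.2.2.1
      · intro p hp p' hp' h
        rw [Finset.mem_coe, Finset.mem_filter] at hp hp'
        rw [heq p hp.1, heq p' hp'.1, h, hp.2, hp'.2]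
    have h3 : T / (e : ℝ) ^ a v ≤ T * (1 / (e : ℝ)) ^ 2 := by
      rw [div_eq_mul_one_div, _root_.one_div_pow]
      gcongr
      exact hE.two v
    have h4 : T / (e : ℝ) ^ a v ≤ T := div_le_self hT0.le (one_le_pow₀ he1)
    have h5 := hFU T (T / (e : ℝ) ^ a v) hT (by positivity) h4
    calc ((S.filter fun p => d p = e).card : ℝ) ≤ ((FU F G a (T / (e : ℝ) ^ a v)).card : ℝ) := by
          exact_mod_cast h1
      _ ≤ C * (T / (e : ℝ) ^ a v) * (1 + Real.log T) ^ Fintype.card (Vo o) := h5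
      _ ≤ C * (T * (1 / (e : ℝ)) ^ 2) * (1 + Real.log T) ^ Fintype.card (Vo o) := by gcongr
      _ = _ := by ring
  calc ∑ e ∈ Finset.Icc (P + 1) ⌊T⌋₊, ((S.filter fun p => d p = e).card : ℝ)
      ≤ ∑ e ∈ Finset.Icc (P + 1) ⌊T⌋₊,
          C * T * (1 + Real.log T) ^ Fintype.card (Vo o) * (1 / (e : ℝ)) ^ 2 :=
        Finset.sum_le_sum hone
    _ = C * T * (1 + Real.log T) ^ Fintype.card (Vo o) *
          ∑ e ∈ Finset.Icc (P + 1) ⌊T⌋₊, (1 / (e : ℝ)) ^ 2 := by
        rw [Finset.mul_sum]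
    _ ≤ C * T * (1 + Real.log T) ^ Fintype.card (Vo o) * (1 / P) := by
        gcongr
        exact sum_tail_sq P _ hP
    _ = _ := by ring

/-! ### The lower bound -/

/-- **The lower bound for boxes.** -/
theorem low_box (hE : Eng F G a D) : ∃ c K₀ : ℝ, 0 < c ∧ 1 ≤ K₀ ∧
    ∀ X : V → ℝ, (∀ v, K₀ ≤ X v) → c * Nm a X ≤ ((UX F G X).card : ℝ) := by
  classical
  obtain ⟨c, K₀, hc, hK₀, hlow⟩ := hE.low
  have hWT : WT F (chp (n := n) 1) 1 4 := by
    refine ⟨by norm_num, by norm_num, ?_, ?_, ?_⟩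
    · intro v X z z' _ _
      rw [one_mul]
      exact chp_lip le_rfl X v z z'
    · intro X v _ h
      exact chp_zero one_pos v (by linarith)
    · intro X
      rw [abs_of_nonneg (chp_nonneg _ _)]
      exact chp_le_one _ _
  obtain ⟨c', C, hC, hlim⟩ := TT_lim hE hWT one_ne_zero 0
  -- comparison with the number of solutions
  have hcg : ∀ (p : Tup n ℤ) v, Cg 1 (p v) ((0 : Tup n ℤ) v) := fun p v => ⟨p v, by simp⟩
  have hlo : ∀ X : V → ℝ, (∀ v, 1 ≤ X v) → ((UX F G X).card : ℝ) ≤ NN F G (chp 1) 1 0 4 X := by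
    intro X hX
    have hX0 := pos_of_one hX
    unfold NN
    have hsub : UX F G X ⊆ UX F G (rx 4 X) := UX_mono (nonneg_of_one hX) fun v => by
      unfold rx
      linarith [hX0 v]
    rw [← nsmul_one, ← Finset.sum_const]
    refine le_trans (Finset.sum_le_sum fun p hp => ?_)
      (Finset.sum_le_sum_of_subset_of_nonneg hsub ?_)
    · rw [mem_UX (nonneg_of_one hX)] at hp
      rw [if_pos (hcg p)]
      refine (chp_one one_pos fun v => ?_).ge
      unfold sc
      have := hX0 v
      rw [norm_smul, norm_inv, Real.norm_of_nonneg this.le, inv_mul_le_iff₀ this, mul_one]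
      exact hp.1 v
    · intro p _ _
      split_ifs
      · exact chp_nonneg _ _
      · exact le_rfl
  have hhi : ∀ X : V → ℝ, (∀ v, 1 ≤ X v) → NN F G (chp 1) 1 0 4 X ≤ ((UX F G (rx 2 X)).card : ℝ) := by
    intro X hX
    have hX0 := pos_of_one hX
    have hX0' := nonneg_of_one hX
    unfold NN
    have h1 : ∀ p ∈ UX F G (rx 4 X), (if ∀ v, Cg 1 (p v) ((0 : Tup n ℤ) v) then
        chp 1 (sc X p) else 0) ≤ if p ∈ UX F G (rx 2 X) then (1 : ℝ) else 0 := by
      intro p hp
      rw [if_pos (hcg p)]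
      rw [mem_UX (rx_nonneg (by norm_num) hX0')] at hp
      by_cases h2 : p ∈ UX F G (rx 2 X)
      · rw [if_pos h2]
        exact chp_le_one _ _
      · rw [if_neg h2]
        rw [mem_UX (rx_nonneg (by norm_num) hX0')] at h2
        have h3 : ∃ v, rx 2 X v < ‖ic (p v)‖ := by
          by_contra h4
          push Not at h4
          exact h2 ⟨h4, hp.2⟩
        obtain ⟨v, hv⟩ := h3
        refine (chp_zero one_pos v ?_).le
        unfold sc
        unfold rx at hv
        have := hX0 v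
        rw [norm_smul, norm_inv, Real.norm_of_nonneg this.le, ← div_eq_inv_mul, le_div_iff₀ this]
        linarith
    refine (Finset.sum_le_sum h1).trans ?_
    rw [Finset.sum_ite_mem, Finset.sum_const, nsmul_eq_mul, mul_one]
    exact_mod_cast Finset.card_le_card Finset.inter_subset_right
  have hcc : c ≤ c' := by
    have h1 : Tendsto (fun x : ℝ => TT F G a (chp 1) 1 0 4 fun _ => x) atTop (𝓝 c') := by
      rw [tendsto_iff_dist_tendsto_zero]
      have h2 : Tendsto (fun x : ℝ => C / x ^ th D) atTop (𝓝 0) :=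
        Tendsto.div_atTop tendsto_const_nhds (tendsto_rpow_atTop (th_pos D))
      refine squeeze_zero' (Eventually.of_forall fun _ => dist_nonneg) ?_ h2
      filter_upwards [eventually_ge_atTop 1] with x hx
      rw [Real.dist_eq]
      exact hlim _ x hx fun _ => le_rfl
    apply ge_of_tendsto h1
    filter_upwards [eventually_ge_atTop K₀] with x hx
    have hx1 : 1 ≤ x := hK₀.trans hx
    unfold TT
    rw [le_div_iff₀ (Nm_pos fun _ => by linarith)]
    exact (hlow x hx).trans (hlo _ fun _ => hx1)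
  have hc'0 : 0 < c' := by linarith
  have htend : Tendsto (fun x : ℝ => C / x ^ th D) atTop (𝓝 0) :=
    Tendsto.div_atTop tendsto_const_nhds (tendsto_rpow_atTop (th_pos D))
  obtain ⟨K₁, hK₁⟩ := eventually_atTop.1
    (htend.eventually (ge_mem_nhds (by positivity : (0 : ℝ) < c' / 2)))
  refine ⟨c' / 2 / 2 ^ (∑ v, a v), 2 * max 1 K₁, by positivity, by
    have : 1 ≤ max 1 K₁ := le_max_left _ _
    linarith, ?_⟩
  intro X hX
  set Y : V → ℝ := fun v => X v / 2 with hY
  have hYK : ∀ v, max 1 K₁ ≤ Y v := by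
    intro v
    simp only [hY]
    rw [le_div_iff₀ (by norm_num), mul_comm]
    exact hX v
  have hY1 : ∀ v, 1 ≤ Y v := fun v => (le_max_left _ _).trans (hYK v)
  have hXY : rx 2 Y = X := by
    funext v
    unfold rx
    simp only [hY]
    ring
  have h1 := hlim Y (max 1 K₁) (le_max_left _ _) hYK
  have h2 := hK₁ (max 1 K₁) (le_max_right _ _)
  have h3 : c' / 2 ≤ TT F G a (chp 1) 1 0 4 Y := by
    have := (abs_le.1 h1).1
    linarith
  have hN := Nm_pos (a := a) (pos_of_one hY1)
  unfold TT at h3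
  rw [le_div_iff₀ hN] at h3
  have h4 := h3.trans (hhi Y hY1)
  rw [hXY] at h4
  refine le_trans (le_of_eq ?_) h4
  rw [← hXY, Nm_rx]
  field_simp

/-- **The lower bound for the hyperbolic region.** -/
theorem low_FU (hE : Eng F G a D) (hS : SimP) (o : V) : ∃ c T₀ : ℝ, 0 < c ∧ ∀ T : ℝ, T₀ ≤ T →
    c * (T * Real.log T ^ Fintype.card (Vo o)) ≤ ((FU F G a T).card : ℝ) := by
  classical
  obtain ⟨c, K₀, hc, hK₀, hlow⟩ := low_box hE
  obtain ⟨B, hB, hUX⟩ := UX_le hE
  have hB0 : 0 < B := by linarith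
  have hK0 : 0 < K₀ := by linarith
  have hbo : ∀ v, 1 ≤ bo a o v := fun v => hE.pos v
  obtain ⟨l, hl, hSl⟩ := Sx_asymp hS (bo a o) hbo
  set d := Fintype.card (Vo o) with hd
  -- the ratio
  obtain ⟨g, hg⟩ := pow_unbounded_of_one_lt (2 * d * B / c) (by norm_num : (1 : ℝ) < 2)
  obtain ⟨i₁, hi₁⟩ := pow_unbounded_of_one_lt K₀ (by norm_num : (1 : ℝ) < 2)
  obtain ⟨s, hs⟩ : ∃ s : ℕ, s = g + i₁ + 1 := ⟨_, rfl⟩
  have hs0 : 0 < s := by omega
  have hgs : 2 * d * B / c ≤ 2 ^ s := hg.le.trans (pow_le_pow_right₀ (by norm_num) (by omega))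
  have his : K₀ ≤ 2 ^ s := hi₁.le.trans (pow_le_pow_right₀ (by norm_num) (by omega))
  have hsR : (0 : ℝ) < s := by exact_mod_cast hs0
  have hl2 : 0 < Real.log 2 := Real.log_pos (by norm_num)
  -- the blocks
  obtain ⟨S₁, hS₁⟩ : ∃ S₁ : ℝ, S₁ = ∑ v : Vo o, (bo a o v : ℝ) := ⟨_, rfl⟩
  set Y : ℝ → ℝ := fun T => YT (a o) (1 / K₀) T / s - S₁ with hY
  have hYlim : Tendsto (fun T => Y T / Real.log T) atTop (𝓝 (1 / Real.log 2 / s)) := by
    have h1 := (YT_asymp (a o) (by positivity : 0 < 1 / K₀)).div_const (s : ℝ)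
    have h2 : Tendsto (fun T : ℝ => S₁ / Real.log T) atTop (𝓝 0) :=
      Tendsto.div_atTop tendsto_const_nhds Real.tendsto_log_atTop
    have h3 := h1.sub h2
    rw [sub_zero] at h3
    refine h3.congr fun T => ?_
    simp only [hY]
    ring
  have hN := Sx_log hSl (by positivity) hYlim
  rw [← hd] at hN
  set l' := l * (1 / Real.log 2 / s) ^ d with hl'
  have hl'0 : 0 < l' := by positivity
  obtain ⟨T₁, hT₁⟩ := eventually_atTop.1 ((hN.eventually
    (le_mem_nhds (by linarith : l' / 2 < l'))).and (eventually_ge_atTop 2))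
  refine ⟨c / 2 * (l' / 2), T₁, by positivity, ?_⟩
  intro T hT
  obtain ⟨h1, hT2⟩ := hT₁ T hT
  have hT0 : 0 < T := by linarith
  have hlogT : 0 < Real.log T := Real.log_pos (by linarith)
  -- the shells
  set I : (Vo o → ℕ) → (Vo o → ℕ) := fun j v => s * (j v + 1) with hI
  set Sh : (Vo o → ℕ) → Finset (Tup n ℤ) := fun j =>
    UX F G (Xs a o T (I j)) \ (Finset.univ : Finset (Vo o)).biUnion fun v =>
      UX F G (update (Xs a o T (I j)) v (2 ^ (s * j v))) with hSh
  have hcond : ∀ j ∈ Sx (bo a o) (Y T), K₀ ≤ Lo a o T (I j) := by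
    intro j hj
    rw [mem_Sx hbo] at hj
    have h2 : ∑ v : Vo o, (bo a o v : ℝ) * (I j v : ℕ) ≤ YT (a o) (1 / K₀) T := by
      have h3 : ∑ v : Vo o, (bo a o v : ℝ) * (I j v : ℕ) =
          s * (∑ v : Vo o, (bo a o v : ℝ) * j v + S₁) := by
        rw [hS₁, ← Finset.sum_add_distrib, Finset.mul_sum]
        refine Finset.sum_congr rfl fun v _ => ?_
        simp only [hI]
        push_cast
        ring
      rw [h3]
      simp only [hY] at hj
      have h4 : ∑ v : Vo o, (bo a o v : ℝ) * j v + S₁ ≤ YT (a o) (1 / K₀) T / s := by linarith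
      rw [le_div_iff₀ hsR] at h4
      linarith
    rw [Qo_le' (by positivity) hT0] at h2
    have h5 := Lo_ge (hE.ne0 o) (R := 1 / K₀) (by positivity) hT0 (K := K₀) (I j) (by
      rw [one_div_mul_cancel hK0.ne', one_pow, mul_one]
      exact h2)
    exact h5
  have hX1 : ∀ j ∈ Sx (bo a o) (Y T), ∀ v, K₀ ≤ Xs a o T (I j) v := by
    intro j hj v
    by_cases hv : v = o
    · rw [hv, Xs_o]
      exact hcond j hj
    · have h4 := Xs_v a o T (I j) ⟨v, hv⟩
      simp only at h4
      rw [h4]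
      calc K₀ ≤ 2 ^ s := his
        _ ≤ 2 ^ (I j ⟨v, hv⟩) := by
          apply pow_le_pow_right₀ (by norm_num)
          simp only [hI]
          exact Nat.le_mul_of_pos_right _ (by omega)
  have hsize : ∀ j ∈ Sx (bo a o) (Y T), c / 2 * T ≤ ((Sh j).card : ℝ) := by
    intro j hj
    have e4 := hlow _ (hX1 j hj)
    rw [Nm_Xs (hE.ne0 o) hT0.le] at e4
    have hXK := hX1 j hj
    have hX1' : ∀ v, 1 ≤ Xs a o T (I j) v := fun v => hK₀.trans (hXK v)
    have e5 : ∀ v : Vo o, ((UX F G (update (Xs a o T (I j)) v (2 ^ (s * j v)))).card : ℝ) ≤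
        B * (T / 2 ^ s) := by
      intro v
      refine (hUX _ (one_update hX1' v (one_le_pow₀ (by norm_num)))).trans ?_
      gcongr
      have e6 := Nm_update a (Xs a o T (I j)) v (2 ^ (s * j v))
      rw [Nm_Xs (hE.ne0 o) hT0.le, Xs_v] at e6
      have e7 : (2 : ℝ) ^ (I j v) = 2 ^ s * 2 ^ (s * j v) := by
        rw [← pow_add]
        congr 1
        simp only [hI]
        ring
      rw [e7, mul_pow] at e6
      have e8 : (0 : ℝ) < (2 ^ (s * j v)) ^ a v := by positivity
      have e9 : Nm a (update (Xs a o T (I j)) v (2 ^ (s * j v))) * (2 ^ s) ^ a v = T := by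
        apply mul_right_cancel₀ e8.ne'
        rw [← e6]
        ring
      have e10 : (2 : ℝ) ^ s ≤ (2 ^ s) ^ a v :=
        le_self_pow₀ (one_le_pow₀ (by norm_num)) (hE.ne0 v)
      have e11 := Nm_pos (a := a) (pos_of_one (one_update hX1' v
        (one_le_pow₀ (by norm_num) : (1 : ℝ) ≤ 2 ^ (s * j v))))
      rw [le_div_iff₀ (by positivity)]
      calc Nm a (update (Xs a o T (I j)) v (2 ^ (s * j v))) * 2 ^ s
          ≤ Nm a (update (Xs a o T (I j)) v (2 ^ (s * j v))) * (2 ^ s) ^ a v := by gcongr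
        _ = T := e9
    have e6 : (((Finset.univ : Finset (Vo o)).biUnion fun v =>
        UX F G (update (Xs a o T (I j)) v (2 ^ (s * j v)))).card : ℝ) ≤ c / 2 * T := by
      calc _ ≤ ((∑ v : Vo o, (UX F G (update (Xs a o T (I j)) v (2 ^ (s * j v)))).card : ℕ) : ℝ) := by
            exact_mod_cast Finset.card_biUnion_le
        _ = ∑ v : Vo o, ((UX F G (update (Xs a o T (I j)) v (2 ^ (s * j v)))).card : ℝ) := by
            push_cast
            rfl
        _ ≤ ∑ v : Vo o, B * (T / 2 ^ s) := Finset.sum_le_sum fun v _ => e5 v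
        _ = d * (B * (T / 2 ^ s)) := by
            rw [Finset.sum_const, Finset.card_univ, nsmul_eq_mul]
        _ ≤ c / 2 * T := by
            rw [div_le_iff₀ hc] at hgs
            have : (d : ℝ) * (B * (T / 2 ^ s)) = (2 * d * B) * T / (2 * 2 ^ s) := by
              field_simp
            rw [this, div_le_iff₀ (by positivity)]
            calc 2 * (d : ℝ) * B * T ≤ (2 ^ s * c) * T := by gcongr
              _ = _ := by ring
    simp only [hSh]
    have e7 := Finset.le_card_sdiff ((Finset.univ : Finset (Vo o)).biUnion fun v =>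
        UX F G (update (Xs a o T (I j)) v (2 ^ (s * j v)))) (UX F G (Xs a o T (I j)))
    have e8 : ((UX F G (Xs a o T (I j))).card : ℝ) ≤
        ((UX F G (Xs a o T (I j)) \ (Finset.univ : Finset (Vo o)).biUnion fun v =>
        UX F G (update (Xs a o T (I j)) v (2 ^ (s * j v)))).card : ℝ) +
        (((Finset.univ : Finset (Vo o)).biUnion fun v =>
        UX F G (update (Xs a o T (I j)) v (2 ^ (s * j v)))).card : ℝ) := by
      have : (UX F G (Xs a o T (I j))).card ≤
        (UX F G (Xs a o T (I j)) \ (Finset.univ : Finset (Vo o)).biUnion fun v =>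
        UX F G (update (Xs a o T (I j)) v (2 ^ (s * j v)))).card +
        ((Finset.univ : Finset (Vo o)).biUnion fun v =>
        UX F G (update (Xs a o T (I j)) v (2 ^ (s * j v)))).card := by omega
      exact_mod_cast this
    linarith
  have hdis : ∀ i ∈ Sx (bo a o) (Y T), ∀ j ∈ Sx (bo a o) (Y T), i ≠ j →
      Disjoint (Sh i) (Sh j) := by
    have hlt : ∀ i j : Vo o → ℕ, (∃ v, i v < j v) → Disjoint (Sh i) (Sh j) := by
      rintro i j ⟨v, hij⟩
      rw [Finset.disjoint_left]
      intro p hp hp'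
      simp only [hSh, Finset.mem_sdiff, Finset.mem_biUnion, Finset.mem_univ, true_and,
        not_exists] at hp hp'
      have hXi := Xs_pos (a := a) (o := o) hT0 (I i)
      have hXj := Xs_pos (a := a) (o := o) hT0 (I j)
      have h2 := hp.1
      have h3 := hp'.1
      rw [mem_UX fun v => (hXi v).le] at h2
      rw [mem_UX fun v => (hXj v).le] at h3
      apply hp'.2 v
      rw [mem_UX (update_nonneg (fun v => (hXj v).le) v (by positivity))]
      refine ⟨fun u => ?_, h3.2⟩
      by_cases hu : u = v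
      · rw [hu, update_self]
        refine (h2.1 v).trans ?_
        rw [Xs_v]
        apply pow_le_pow_right₀ (by norm_num)
        simp only [hI]
        exact Nat.mul_le_mul_left _ hij
      · rw [update_of_ne hu]
        exact h3.1 u
    intro i _ j _ hij
    obtain ⟨v, hv⟩ := Function.ne_iff.1 hij
    rcases lt_or_gt_of_ne hv with h | h
    · exact hlt i j ⟨v, h⟩
    · exact (hlt j i ⟨v, h⟩).symm
  have hsub : (Sx (bo a o) (Y T)).biUnion Sh ⊆ FU F G a T := by
    intro p hp
    rw [Finset.mem_biUnion] at hp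
    obtain ⟨i, _, hp⟩ := hp
    simp only [hSh, Finset.mem_sdiff] at hp
    have hXi := Xs_pos (a := a) (o := o) hT0 (I i)
    have h2 := hp.1
    rw [mem_UX fun v => (hXi v).le] at h2
    rw [mem_FU hE hT0.le]
    refine ⟨h2.2.1, h2.2.2, ?_⟩
    calc HH a p ≤ Nm a (Xs a o T (I i)) := Finset.prod_le_prod
          (fun v _ => pow_nonneg (norm_nonneg _) _) fun v _ =>
          pow_le_pow_left₀ (norm_nonneg _) (h2.1 v) _
      _ = T := Nm_Xs (hE.ne0 o) hT0.le (I i)
  have h4 : ((Sx (bo a o) (Y T)).card : ℝ) * (c / 2 * T) ≤ ((FU F G a T).card : ℝ) := by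
    calc ((Sx (bo a o) (Y T)).card : ℝ) * (c / 2 * T) = ∑ i ∈ Sx (bo a o) (Y T), c / 2 * T := by
          rw [Finset.sum_const, nsmul_eq_mul]
      _ ≤ ∑ i ∈ Sx (bo a o) (Y T), ((Sh i).card : ℝ) := Finset.sum_le_sum hsize
      _ = (((Sx (bo a o) (Y T)).biUnion Sh).card : ℝ) := by
          rw [Finset.card_biUnion hdis]
          push_cast
          rfl
      _ ≤ _ := by exact_mod_cast Finset.card_le_card hsub
  have h5 : l' / 2 * Real.log T ^ d ≤ ((Sx (bo a o) (Y T)).card : ℝ) := by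
    rwa [le_div_iff₀ (by positivity)] at h1
  calc c / 2 * (l' / 2) * (T * Real.log T ^ d) = (l' / 2 * Real.log T ^ d) * (c / 2 * T) := by ring
    _ ≤ ((Sx (bo a o) (Y T)).card : ℝ) * (c / 2 * T) := by gcongr
    _ ≤ _ := h4

end Pool.Agent.N852.MM
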