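import Mathlib
import Pool.Agent.N852.MM.NP
import Pool.Agent.N852.MM.Conv
import Pool.Agent.N852.RepN

/-!
Systems of multilinear equations: the asymptotic formula for all good primitive families.
-/

namespace Pool.Agent.N852.MM

set_option linter.unusedSectionVars false

open Matrix Module Filter Topology Function
open Pool.Agent.N852 (ic ic_add ic_sub ic_neg Cg Prm exists_prim om om_nonneg om_le_one om_one
  om_zero md BQ md_mem cg_md eq_md AL AL_congr AL_prm AL_large Cg.symm Cg.trans Cg.dvd)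

variable {V : Type} [DecidableEq V] [Fintype V] {n : V → ℕ} {k : ℕ}
  {F : Sys n k} {G : V → Tup n ℤ → Prop} {a : V → ℕ} {D : ℕ}

/-- The primitive solutions. -/
def PS (F : Sys n k) (x : Tup n ℤ) : Prop := (∀ v, Prm (x v)) ∧ Inc F x

/-- Congruent families. -/
def CgT (q : ℕ) (x y : Tup n ℤ) : Prop := ∀ v, Cg q (x v) (y v)

theorem CgT.symm {q : ℕ} {x y : Tup n ℤ} (h : CgT q x y) : CgT q y x := fun v => (h v).symm

theorem CgT.trans {q : ℕ} {x y z : Tup n ℤ} (h : CgT q x y) (h' : CgT q y z) : CgT q x z :=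
  fun v => (h v).trans (h' v)

theorem CgT.dvd {q q' : ℕ} {x y : Tup n ℤ} (h : CgT q x y) (hq : q' ∣ q) : CgT q' x y :=
  fun v => (h v).dvd hq

/-- A function of the primitive solutions which can be approximated by functions of residue
classes. -/
structure CA (F : Sys n k) (φ : Tup n ℤ → ℝ) : Prop where
  low : ∃ c : ℝ, 0 < c ∧ ∀ x, PS F x → c ≤ φ x
  apx : ∀ ε : ℝ, 0 < ε → ∃ q : ℕ, q ≠ 0 ∧ ∀ x x', PS F x → PS F x' → CgT q x x' →
    φ x ≤ (1 + ε) * φ x'

open Classical in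
/-- The value on a class. -/
noncomputable def kap (F : Sys n k) (φ : Tup n ℤ → ℝ) (q : ℕ) (c ε : ℝ) (α : Tup n ℤ) : ℝ :=
  if h : ∃ p : Tup n ℤ, PS F p ∧ CgT q p α then φ h.choose / (1 + ε) else c

theorem kap_low {φ : Tup n ℤ → ℝ} {q : ℕ} {c ε : ℝ} {α : Tup n ℤ} (hε : 0 < ε) (hε1 : ε ≤ 1)
    (hc0 : 0 < c) (hc : ∀ x, PS F x → c ≤ φ x) : c / 2 ≤ kap F φ q c ε α := by
  unfold kap
  split_ifs with h
  · have h1 := h.choose_spec
    have h2 := hc _ h1.1
    rw [div_le_div_iff₀ (by norm_num) (by linarith)]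
    nlinarith
  · linarith

theorem kap_spec {φ : Tup n ℤ → ℝ} {q : ℕ} {c ε : ℝ} (hε : 0 < ε)
    (hq : ∀ x x', PS F x → PS F x' → CgT q x x' → φ x ≤ (1 + ε) * φ x')
    {x α : Tup n ℤ} (hx : PS F x) (ha : CgT q x α) :
    kap F φ q c ε α ≤ φ x ∧ φ x ≤ (1 + ε) ^ 2 * kap F φ q c ε α := by
  have hex : ∃ p : Tup n ℤ, PS F p ∧ CgT q p α := ⟨x, hx, ha⟩
  have h1 := hex.choose_spec
  unfold kap
  rw [dif_pos hex]
  obtain ⟨h2, h5⟩ := h1
  have h7 := hq _ _ h2 hx (h5.trans ha.symm)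
  have h8 := hq _ _ hx h2 (ha.trans h5.symm)
  constructor
  · rw [div_le_iff₀ (by linarith)]
    linarith
  · have : (1 + ε) ^ 2 * (φ hex.choose / (1 + ε)) = (1 + ε) * φ hex.choose := by
      field_simp
    rw [this]
    exact h8

/-- The families counted. -/
def AS (F : Sys n k) (G : V → Tup n ℤ → Prop) (φ : Tup n ℤ → ℝ) (h : Tup n ℝ → ℝ) (T : ℝ) :
    Set (Tup n ℤ) :=
  {x | PS F x ∧ (∀ u, G u x) ∧ φ x * h (iT x) ≤ T}

/-- The reduced residues. -/
def mdT (q : ℕ) (x : Tup n ℤ) : Tup n ℤ := fun v => md q (x v)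

theorem cgT_md (q : ℕ) (x : Tup n ℤ) : CgT q x (mdT q x) := fun v => cg_md q (x v)

open Classical in
/-- The residue classes without small common divisors. -/
noncomputable def BA (n : V → ℕ) (q P : ℕ) : Finset (Tup n ℤ) :=
  Fintype.piFinset fun v => (BQ (n v) q).filter (AL P)

/-- The total weighted count. -/
noncomputable def TS (F : Sys n k) (G : V → Tup n ℤ → Prop) (a : V → ℕ) (h : Tup n ℝ → ℝ)
    (κ : Tup n ℤ → ℝ) (ε : ℝ) (q P : ℕ) (R T : ℝ) : ℝ :=
  ∑ α ∈ BA n q P, WW F G a h (κ α) ε q α R T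

open Classical in
theorem TS_eq {h : Tup n ℝ → ℝ} {κ : Tup n ℤ → ℝ} {ε R : ℝ}
    {q P : ℕ} (hq : q ≠ 0) (hP : ∀ p : ℕ, p.Prime → p ≤ P → p ∣ q) {T : ℝ} :
    TS F G a h κ ε q P R T = ∑ x ∈ FU F G a (R * T), if ∀ v, AL P (x v) then
      om ε (κ (mdT q x) * (h (iT x) / T)) else 0 := by
  unfold TS WW
  rw [Finset.sum_comm]
  refine Finset.sum_congr rfl fun p _ => ?_
  have hmem : ∀ α : Tup n ℤ, α ∈ BA n q P ↔ ∀ v, α v ∈ BQ (n v) q ∧ AL P (α v) := by
    intro α
    unfold BA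
    rw [Fintype.mem_piFinset]
    exact forall_congr' fun v => Finset.mem_filter
  by_cases hA1 : ∀ v, AL P (p v)
  · rw [if_pos hA1, Finset.sum_eq_single (mdT q p)]
    · have h3 : ∀ v, Cg q (p v) (mdT q p v) := cgT_md q p
      rw [if_pos h3]
    · intro α hα hne
      rw [if_neg]
      intro h3
      apply hne
      funext v
      exact eq_md ((hmem α).1 hα v).1 (h3 v)
    · intro h3
      exact absurd ((hmem _).2 fun v => ⟨md_mem hq (p v), AL_congr hP (cg_md q (p v)) (hA1 v)⟩) h3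
  · rw [if_neg hA1]
    apply Finset.sum_eq_zero
    intro α hα
    rw [if_neg]
    intro h3
    exact hA1 fun v => AL_congr hP (h3 v).symm ((hmem α).1 hα v).2

theorem AS_sub (hE : Eng F G a D) {φ : Tup n ℤ → ℝ} {h : Tup n ℝ → ℝ} {c₁ c₀ R : ℝ}
    (hc1 : 0 < c₁) (hc0 : 0 < c₀) (hc : ∀ x, PS F x → c₁ ≤ φ x)
    (hcb : ∀ x, Inc F x → c₀ * Nm a (nrm x) ≤ hz h x)
    (hR : 1 ≤ c₁ * c₀ * R) {T : ℝ} (hT : 0 < T) :
    ∀ p ∈ AS F G φ h T, p ∈ FU F G a (R * T) := by
  have hR0 : 0 < R := by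
    by_contra hcon
    rw [not_lt] at hcon
    have : c₁ * c₀ * R ≤ 0 := mul_nonpos_of_nonneg_of_nonpos (by positivity) hcon
    linarith
  rintro p ⟨h1, h4, h6⟩
  rw [mem_FU hE (by positivity)]
  refine ⟨h1.2, h4, ?_⟩
  have h7 := hc p h1
  have h8 := hcb (iT p) (inc_iT.2 h1.2)
  rw [hz_eq (x := iT p) fun v => ic_ne (h1.1 v).ne] at h8
  have h9 : 0 ≤ HH a p := HH_nonneg p
  have h8' : c₀ * HH a p ≤ h (iT p) := h8
  have h10 : c₁ * (c₀ * HH a p) ≤ T := by
    calc c₁ * (c₀ * HH a p) ≤ φ p * (c₀ * HH a p) := by gcongr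
      _ ≤ φ p * h (iT p) := by
        apply mul_le_mul_of_nonneg_left h8'
        linarith
      _ ≤ T := h6
  have h11 : c₁ * c₀ * HH a p ≤ c₁ * c₀ * (R * T) := by
    calc c₁ * c₀ * HH a p ≤ 1 * T := by linarith
      _ ≤ (c₁ * c₀ * R) * T := by gcongr
      _ = _ := by ring
  exact le_of_mul_le_mul_left h11 (by positivity)

/-- **All families.** -/
theorem total (hE : Eng F G a D) (hS : SimP) (o : V) {φ : Tup n ℤ → ℝ} (hφ : CA F φ)
    {h : Tup n ℝ → ℝ} (hh : LM F a h) :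
    ∃ c : ℝ, Tendsto (fun T : ℝ => ((AS F G φ h T).ncard : ℝ) /
      (T ^ 1 * Real.log T ^ Fintype.card (Vo o))) atTop (𝓝 c) := by
  classical
  obtain ⟨c₁, hc1, hc⟩ := hφ.low
  obtain ⟨c₀, CF, hc0, hCF, hb⟩ := hz_bounds hh hE.pos
  have hcb : ∀ x, Inc F x → c₀ * Nm a (nrm x) ≤ hz h x := fun x hx => (hb x hx).1
  obtain ⟨C₁, hC₁, hnp⟩ := np hE o
  set d := Fintype.card (Vo o) with hd
  obtain ⟨R, hR⟩ : ∃ R : ℝ, R = max 1 (4 / (c₁ * c₀)) := ⟨_, rfl⟩
  have hR1 : 1 ≤ R := by rw [hR]; exact le_max_left _ _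
  have hR0 : 0 < R := by linarith
  have hR4 : 4 ≤ c₁ * c₀ * R := by
    have h1 : 4 / (c₁ * c₀) ≤ R := by rw [hR]; exact le_max_right _ _
    rw [div_le_iff₀ (by positivity)] at h1
    linarith
  have hAS : ∀ T : ℝ, 0 < T → ∀ p ∈ AS F G φ h T, p ∈ FU F G a (R * T) := fun T hT =>
    AS_sub hE hc1 hc0 hc hcb (by linarith) hT
  have hfin : ∀ T : ℝ, 0 < T → (AS F G φ h T).Finite := fun T hT =>
    (FU F G a (R * T)).finite_toSet.subset (hAS T hT)
  apply conv_crit 1 d (fun T => ((AS F G φ h T).ncard : ℝ)) (fun T => Nat.cast_nonneg _)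
  intro ε hε
  obtain ⟨ε₁, hε₁⟩ : ∃ ε₁ : ℝ, ε₁ = min 1 (ε / 7) := ⟨_, rfl⟩
  have he0 : 0 < ε₁ := by rw [hε₁]; positivity
  have he1 : ε₁ ≤ 1 := by rw [hε₁]; exact min_le_left _ _
  have he2 : 7 * ε₁ ≤ ε := by
    have : ε₁ ≤ ε / 7 := by rw [hε₁]; exact min_le_right _ _
    linarith
  obtain ⟨q₀, hq0, hapx⟩ := hφ.apx ε₁ he0
  obtain ⟨m, hm⟩ : ∃ m : ℝ, m = (Fintype.card V : ℝ) := ⟨_, rfl⟩
  have hm0 : 0 ≤ m := by rw [hm]; positivity
  obtain ⟨P, hPdef⟩ := exists_nat_gt (max 2 (2 ^ d * (m * C₁) * R / ε))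
  have hP2' : (2 : ℝ) < P := lt_of_le_of_lt (le_max_left _ _) hPdef
  have hPε' : 2 ^ d * (m * C₁) * R / ε < P := lt_of_le_of_lt (le_max_right _ _) hPdef
  have hP2 : 2 ≤ P := by exact_mod_cast hP2'.le
  have hP0 : (0 : ℝ) < P := by linarith
  obtain ⟨q, hqdef⟩ : ∃ q : ℕ, q = q₀ * P.factorial := ⟨_, rfl⟩
  have hq : q ≠ 0 := by rw [hqdef]; exact mul_ne_zero hq0 (Nat.factorial_ne_zero P)
  have hPq : ∀ p : ℕ, p.Prime → p ≤ P → p ∣ q := by
    intro p hp hpP
    rw [hqdef]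
    exact Dvd.dvd.mul_left (hp.dvd_factorial.2 hpP) q₀
  have hqq : ∀ x x', PS F x → PS F x' → CgT q x x' → φ x ≤ (1 + ε₁) * φ x' := by
    intro x x' h1 h2 h7
    exact hapx x x' h1 h2 (h7.dvd (by rw [hqdef]; exact Dvd.intro _ rfl))
  have hκ : ∀ α, c₁ / 2 ≤ kap F φ q c₁ ε₁ α := fun α => kap_low he0 he1 hc1 hc
  have hκ0 : ∀ α, 0 < kap F φ q c₁ ε₁ α := fun α => by
    have := hκ α
    linarith
  have hκR : ∀ α, 1 + ε₁ ≤ kap F φ q c₁ ε₁ α * (c₀ * R) := by
    intro α
    have h1 : c₁ / 2 * (c₀ * R) ≤ kap F φ q c₁ ε₁ α * (c₀ * R) := by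
      have := hκ α
      gcongr
    nlinarith
  have hlim := fun α => WW_asymp hE hS o hh hc0 hcb (hκ0 α) he0 hR0.le (hκR α) hq α
  choose c hcl using hlim
  refine ⟨(1 + ε₁) ^ 3, TS F G a h (kap F φ q c₁ ε₁) ε₁ q P R,
    ∑ α ∈ BA n q P, c α, ?_, ?_, ?_, ?_⟩
  · exact one_le_pow₀ (by linarith)
  · nlinarith [mul_nonneg he0.le he0.le, mul_nonneg (mul_nonneg he0.le he0.le) he0.le]
  · have h1 : (fun T : ℝ => TS F G a h (kap F φ q c₁ ε₁) ε₁ q P R T / (T ^ 1 * Real.log T ^ d)) =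
        fun T : ℝ => ∑ α ∈ BA n q P,
          WW F G a h (kap F φ q c₁ ε₁ α) ε₁ q α R T / (T * Real.log T ^ d) := by
      funext T
      unfold TS
      rw [pow_one, Finset.sum_div]
    rw [h1]
    exact tendsto_finsetSum _ fun α _ => hcl α
  · have hlogR : ∀ᶠ T : ℝ in atTop, 1 + Real.log R ≤ Real.log T :=
      Real.tendsto_log_atTop.eventually (eventually_ge_atTop _)
    filter_upwards [eventually_ge_atTop 4, hlogR] with T hT hlR
    have hT0 : 0 < T := by linarith
    have hlog : 0 < Real.log T := Real.log_pos (by linarith)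
    rw [TS_eq hq hPq]
    constructor
    · -- the lower inequality
      have h1 : AS F G φ h T =
          ((FU F G a (R * T)).filter fun p => p ∈ AS F G φ h T : Finset _) := by
        ext p
        rw [Finset.mem_coe, Finset.mem_filter]
        exact ⟨fun h => ⟨hAS T hT0 p h, h⟩, fun h => h.2⟩
      have h2 : ((AS F G φ h T).ncard : ℝ) =
          ∑ p ∈ FU F G a (R * T), if p ∈ AS F G φ h T then 1 else 0 := by
        rw [Finset.sum_boole, ← Set.ncard_coe_finset, ← h1]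
      rw [h2]
      refine Finset.sum_le_sum fun p hp => ?_
      by_cases hpF : p ∈ AS F G φ h T
      · rw [if_pos hpF]
        obtain ⟨h3, h4, h8⟩ := hpF
        rw [if_pos fun v => AL_prm (h3.1 v), om_one he0]
        have h9 := (kap_spec he0 hqq h3 (cgT_md q p) (c := c₁)).1
        have h10 : 0 < h (iT p) := hh.pos _ (fun v => ic_ne (h3.1 v).ne) (inc_iT.2 h3.2)
        rw [← mul_div_assoc, div_le_one hT0]
        refine le_trans ?_ h8
        gcongr
      · rw [if_neg hpF]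
        split_ifs
        · exact om_nonneg _ _
        · exact le_rfl
    · -- the upper inequality
      set l : ℝ := (1 + ε₁) ^ 3 with hl
      set NPv : V → Tup n ℤ → Prop := fun v p =>
        ∃ (e : ℕ) (y : Fin (n v) → ℤ), P < e ∧ p v = (e : ℤ) • y with hNPv
      have hpt : ∀ p ∈ FU F G a (R * T), (if ∀ v, AL P (p v) then
          om ε₁ (kap F φ q c₁ ε₁ (mdT q p) * (h (iT p) / T)) else 0) ≤
          (if p ∈ AS F G φ h (l * T) then 1 else 0) + ∑ v, (if NPv v p then (1 : ℝ) else 0) := by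
        intro p hp
        rw [mem_FU hE (by positivity)] at hp
        obtain ⟨h1, h2, h4⟩ := hp
        have hx := hE.ne p h2
        have hnn1 : (0 : ℝ) ≤ if p ∈ AS F G φ h (l * T) then 1 else 0 := by
          split_ifs <;> norm_num
        have hnn2 : (0 : ℝ) ≤ ∑ v, (if NPv v p then (1 : ℝ) else 0) :=
          Finset.sum_nonneg fun v _ => by split_ifs <;> norm_num
        by_cases hA : ∀ v, AL P (p v)
        swap
        · rw [if_neg hA]
          linarith
        rw [if_pos hA]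
        set ω := om ε₁ (kap F φ q c₁ ε₁ (mdT q p) * (h (iT p) / T)) with hω
        have hω1 : ω ≤ 1 := om_le_one _ _
        by_cases hp1 : ∀ v, Prm (p v)
        swap
        · push Not at hp1
          obtain ⟨v, hv⟩ := hp1
          obtain ⟨e, z, he, -, hez⟩ := AL_large (hx v) (hA v) hv
          have hN : NPv v p := ⟨e, z, he, hez⟩
          have h5 : (if NPv v p then (1 : ℝ) else 0) ≤ ∑ v, (if NPv v p then (1 : ℝ) else 0) :=
            Finset.single_le_sum (f := fun v => if NPv v p then (1 : ℝ) else 0)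
              (fun v _ => by split_ifs <;> norm_num) (Finset.mem_univ v)
          rw [if_pos hN] at h5
          linarith
        by_cases h0 : ω = 0
        · rw [h0]
          linarith
        have hPS : PS F p := ⟨hp1, h1⟩
        have hpF : p ∈ AS F G φ h (l * T) := by
          refine ⟨hPS, h2, ?_⟩
          have h5 : kap F φ q c₁ ε₁ (mdT q p) * (h (iT p) / T) < 1 + ε₁ := by
            by_contra hcon
            rw [not_lt] at hcon
            exact h0 (om_zero he0 hcon)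
          have h8 := (kap_spec he0 hqq hPS (cgT_md q p)
            (c := c₁)).2
          have h9 : 0 < h (iT p) := hh.pos _ (fun v => ic_ne (hx v)) (inc_iT.2 h1)
          rw [← mul_div_assoc, div_lt_iff₀ hT0] at h5
          calc φ p * h (iT p)
              ≤ ((1 + ε₁) ^ 2 * kap F φ q c₁ ε₁ (mdT q p)) * h (iT p) := by
                gcongr
            _ = (1 + ε₁) ^ 2 * (kap F φ q c₁ ε₁ (mdT q p) * h (iT p)) := by
                ring
            _ ≤ (1 + ε₁) ^ 2 * ((1 + ε₁) * T) := by gcongr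
            _ = l * T := by rw [hl]; ring
        rw [if_pos hpF]
        linarith
      refine (Finset.sum_le_sum hpt).trans ?_
      rw [Finset.sum_add_distrib, Finset.sum_boole, Finset.sum_comm]
      have hl0 : 0 < l := by rw [hl]; positivity
      have h1 : (((FU F G a (R * T)).filter fun p => p ∈ AS F G φ h (l * T)).card : ℝ) ≤
          ((AS F G φ h (l * T)).ncard : ℝ) := by
        rw [← Set.ncard_coe_finset]
        exact_mod_cast Set.ncard_le_ncard (fun p hp => (Finset.mem_filter.1 (Finset.mem_coe.1 hp)).2)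
          (hfin _ (by positivity))
      have hRT : 1 ≤ R * T := by nlinarith
      have h2 : ∀ v, ∑ p ∈ FU F G a (R * T), (if NPv v p then (1 : ℝ) else 0) ≤
          C₁ * (R * T) * (1 + Real.log (R * T)) ^ d / P := by
        intro v
        rw [Finset.sum_boole]
        exact hnp v (R * T) P ((FU F G a (R * T)).filter (NPv v)) hRT (by omega) (by
          intro p hp
          rw [Finset.mem_filter, mem_FU hE (by positivity)] at hp
          exact ⟨hp.1.1, hp.1.2.1, hp.1.2.2, hp.2⟩)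
      have h3 : ∑ v, ∑ p ∈ FU F G a (R * T), (if NPv v p then (1 : ℝ) else 0) ≤
          m * (C₁ * (R * T) * (1 + Real.log (R * T)) ^ d / P) := by
        refine (Finset.sum_le_sum fun v _ => h2 v).trans (le_of_eq ?_)
        rw [Finset.sum_const, Finset.card_univ, nsmul_eq_mul, hm]
      have h4 : m * (C₁ * (R * T) * (1 + Real.log (R * T)) ^ d / P) ≤
          ε * (T ^ 1 * Real.log T ^ d) := by
        rw [← mul_div_assoc, div_le_iff₀ hP0, pow_one]
        rw [div_lt_iff₀ hε] at hPε'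
        have h5 : 1 + Real.log (R * T) ≤ 2 * Real.log T := by
          rw [Real.log_mul hR0.ne' hT0.ne']
          linarith
        have h6 : 0 ≤ 1 + Real.log (R * T) := by
          have := Real.log_nonneg hRT
          linarith
        calc m * (C₁ * (R * T) * (1 + Real.log (R * T)) ^ d) ≤
              m * (C₁ * (R * T) * (2 * Real.log T) ^ d) := by gcongr
          _ = (2 ^ d * (m * C₁) * R) * (T * Real.log T ^ d) := by rw [mul_pow]; ring
          _ ≤ (P * ε) * (T * Real.log T ^ d) := by gcongr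
          _ = _ := by ring
      linarith

end Pool.Agent.N852.MM
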