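import Mathlib
import Pool.Agent.N852.MM.Fin

/-!
Systems of multilinear equations: the asymptotic formula with a positive constant.
-/

namespace Pool.Agent.N852.MM

set_option linter.unusedSectionVars false

open Matrix Module Filter Topology Function
open Pool.Agent.N852 (ic ic_add ic_sub ic_neg Cg Prm exists_prim prm_iff prm_neg Rep.prm rep_or)
open Pool.Agent.N852.DD (norm_ic_ge ic_smul)
open Pool.Agent.H548.WM (Rep)

variable {V : Type} [DecidableEq V] [Fintype V] {n : V → ℕ} {k : ℕ}
  {F : Sys n k} {G : V → Tup n ℤ → Prop} {a : V → ℕ} {D : ℕ}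

open Classical in
/-- The primitive families. -/
noncomputable def FP (F : Sys n k) (G : V → Tup n ℤ → Prop) (a : V → ℕ) (T : ℝ) :
    Finset (Tup n ℤ) :=
  (FU F G a T).filter fun x => ∀ v, Prm (x v)

/-- **The lower bound for primitive families.** -/
theorem low_FP (hE : Eng F G a D) (hS : SimP) (o : V) : ∃ c T₀ : ℝ, 0 < c ∧ ∀ T : ℝ, T₀ ≤ T →
    c * (T * Real.log T ^ Fintype.card (Vo o)) ≤ ((FP F G a T).card : ℝ) := by
  classical
  obtain ⟨c, T₀, hc, hlow⟩ := low_FU hE hS o
  obtain ⟨C₁, hC₁, hnp⟩ := np hE o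
  set d := Fintype.card (Vo o) with hd
  obtain ⟨m, hm⟩ : ∃ m : ℝ, m = (Fintype.card V : ℝ) := ⟨_, rfl⟩
  have hm0 : 0 ≤ m := by rw [hm]; positivity
  obtain ⟨P, hP⟩ := exists_nat_gt (2 ^ d * 2 * (m * C₁) / c)
  have hP0 : (0 : ℝ) < P := lt_of_le_of_lt (by positivity) hP
  have hP1 : 1 ≤ P := by
    by_contra h
    have : P = 0 := by omega
    rw [this] at hP0
    simp at hP0
  refine ⟨c / (2 * (P : ℝ) ^ Fintype.card V), max T₀ 3, by positivity, ?_⟩
  intro T hT
  have hT1 : T₀ ≤ T := (le_max_left _ _).trans hT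
  have hT3 : 3 ≤ T := (le_max_right _ _).trans hT
  have hT0 : 0 < T := by linarith
  have hlogT : 1 ≤ Real.log T := by
    rw [Real.le_log_iff_exp_le hT0]
    have := Real.exp_one_lt_d9
    linarith
  set B : V → Finset (Tup n ℤ) := fun v => (FU F G a T).filter fun p =>
    ∃ (e : ℕ) (y : Fin (n v) → ℤ), P < e ∧ p v = (e : ℤ) • y with hB
  have h1 : ∀ v, ((B v).card : ℝ) ≤ C₁ * T * (1 + Real.log T) ^ d / P := by
    intro v
    refine hnp v T P (B v) (by linarith) hP1 ?_
    intro p hp
    simp only [hB] at hp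
    rw [Finset.mem_filter, mem_FU hE hT0.le] at hp
    exact ⟨hp.1.1, hp.1.2.1, hp.1.2.2, hp.2⟩
  set W := (Fintype.piFinset fun _ : V => Finset.range P) ×ˢ FP F G a T with hW
  set f : (V → ℕ) × Tup n ℤ → Tup n ℤ := fun w v => ((w.1 v + 1 : ℕ) : ℤ) • w.2 v with hf
  have hcov : FU F G a T ⊆ W.image f ∪ Finset.univ.biUnion B := by
    intro p hp
    have hp' := (mem_FU hE hT0.le).1 hp
    obtain ⟨h3, h4, h6⟩ := hp'
    have hne := hE.ne p h4
    have hex : ∀ v, ∃ (g : ℕ) (z : Fin (n v) → ℤ), 1 ≤ g ∧ Prm z ∧ p v = (g : ℤ) • z :=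
      fun v => exists_prim (hne v)
    choose g z hg hz hgz using hex
    by_cases hgP : ∃ v, P < g v
    · obtain ⟨v, hv⟩ := hgP
      apply Finset.mem_union_right
      rw [Finset.mem_biUnion]
      refine ⟨v, Finset.mem_univ v, ?_⟩
      simp only [hB]
      rw [Finset.mem_filter]
      exact ⟨hp, g v, z v, hv, hgz v⟩
    push Not at hgP
    apply Finset.mem_union_left
    rw [Finset.mem_image]
    have hg0 : ∀ v, ((g v : ℕ) : ℤ) ≠ 0 := fun v => by
      have := hg v
      exact_mod_cast (by omega : g v ≠ 0)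
    have hpz : p = fun v => ((g v : ℕ) : ℤ) • z v := funext hgz
    refine ⟨(fun v => g v - 1, z), ?_, ?_⟩
    · rw [hW, Finset.mem_product, Fintype.mem_piFinset]
      refine ⟨fun v => ?_, ?_⟩
      · rw [Finset.mem_range]
        simp only
        have := hgP v
        have := hg v
        omega
      unfold FP
      rw [Finset.mem_filter, mem_FU hE hT0.le]
      refine ⟨⟨?_, fun u => ?_, ?_⟩, hz⟩
      · rw [hpz] at h3
        exact inc_of_smul hg0 h3
      · have h7 := h4 u
        rw [hpz] at h7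
        exact (hE.scal u z _ hg0).1 h7
      · refine le_trans ?_ h6
        rw [hpz, HH_smul]
        have h8 : 1 ≤ Nm a (fun v => |((((g v : ℕ) : ℤ)) : ℝ)|) := one_le_Nm fun v => by
          rw [Int.cast_natCast, abs_of_nonneg (Nat.cast_nonneg _)]
          exact_mod_cast hg v
        have h9 : 0 ≤ HH a z := HH_nonneg z
        simp only
        nlinarith
    · rw [hpz]
      funext v
      simp only [hf]
      have e1 : g v - 1 + 1 = g v := by
        have := hg v
        omega
      rw [e1]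
  have h3 : ((FU F G a T).card : ℝ) ≤ (P : ℝ) ^ Fintype.card V * (FP F G a T).card +
      ∑ v, ((B v).card : ℝ) := by
    have h4 := (Finset.card_le_card hcov).trans ((Finset.card_union_le _ _).trans
      (Nat.add_le_add Finset.card_image_le Finset.card_biUnion_le))
    rw [hW, Finset.card_product, Fintype.card_piFinset, Finset.prod_const, Finset.card_range,
      Finset.card_univ] at h4
    have h5 : ((FU F G a T).card : ℝ) ≤
        ((P ^ Fintype.card V * (FP F G a T).card + ∑ v, (B v).card : ℕ) : ℝ) := by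
      exact_mod_cast h4
    push_cast at h5
    exact h5
  have h4 := hlow T hT1
  have h5 : ∑ v, ((B v).card : ℝ) ≤ c / 2 * (T * Real.log T ^ d) := by
    have h6 : ∑ v, ((B v).card : ℝ) ≤ m * (C₁ * T * (1 + Real.log T) ^ d / P) := by
      refine (Finset.sum_le_sum fun v _ => h1 v).trans (le_of_eq ?_)
      rw [Finset.sum_const, Finset.card_univ, nsmul_eq_mul, hm]
    refine h6.trans ?_
    rw [← mul_div_assoc, div_le_iff₀ hP0]
    rw [div_lt_iff₀ hc] at hP
    have h7 : 1 + Real.log T ≤ 2 * Real.log T := by linarith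
    calc m * (C₁ * T * (1 + Real.log T) ^ d) ≤ m * (C₁ * T * (2 * Real.log T) ^ d) := by gcongr
      _ = (2 ^ d * 2 * (m * C₁)) / 2 * (T * Real.log T ^ d) := by rw [mul_pow]; ring
      _ ≤ (P * c) / 2 * (T * Real.log T ^ d) := by gcongr
      _ = _ := by ring
  have h6 : c / 2 * (T * Real.log T ^ d) ≤ (P : ℝ) ^ Fintype.card V * (FP F G a T).card := by
    linarith
  have h7 : c / (2 * (P : ℝ) ^ Fintype.card V) * (T * Real.log T ^ d) =
      (c / 2 * (T * Real.log T ^ d)) / (P : ℝ) ^ Fintype.card V := by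
    field_simp
  rw [h7, div_le_iff₀ (by positivity)]
  linarith

/-! ### Signs -/

/-- The change of the sign of one vector. -/
def ngv {R : Type*} [Ring R] (v : V) (x : Tup n R) : Tup n R := update x v (-x v)

theorem ngv_eq {R : Type*} [Ring R] (v : V) (x : Tup n R) :
    ngv v x = fun u => (update (1 : V → R) v (-1)) u • x u := by
  funext u
  unfold ngv
  by_cases hu : u = v
  · subst hu
    rw [update_self, update_self, neg_one_smul]
  · rw [update_of_ne hu, update_of_ne hu, Pi.one_apply, one_smul]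

theorem ngv_ngv {R : Type*} [Ring R] (v : V) (x : Tup n R) : ngv v (ngv v x) = x := by
  unfold ngv
  rw [update_self, update_idem, neg_neg, update_eq_self]

theorem ngv_self {R : Type*} [Ring R] (v : V) (x : Tup n R) : ngv v x v = -x v := by
  unfold ngv
  rw [update_self]

theorem ngv_of_ne {R : Type*} [Ring R] {u v : V} (h : u ≠ v) (x : Tup n R) : ngv v x u = x u := by
  unfold ngv
  rw [update_of_ne h]

/-- **All signs.** -/
theorem signs {A : Set (Tup n ℤ)} (hA : A.Finite) (hprm : ∀ p ∈ A, ∀ v, Prm (p v))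
    (h1 : ∀ v p, p ∈ A → ngv v p ∈ A) :
    A.ncard = 2 ^ Fintype.card V * {p | p ∈ A ∧ ∀ v, Rep (p v)}.ncard := by
  classical
  set S := hA.toFinset with hS
  have hmem : ∀ p, p ∈ S ↔ p ∈ A := fun p => by rw [hS, Set.Finite.mem_toFinset]
  have hAc : A.ncard = S.card := Set.ncard_eq_toFinset_card _ hA
  have hR : {p | p ∈ A ∧ ∀ v, Rep (p v)}.ncard = (S.filter fun p => ∀ v, Rep (p v)).card := by
    rw [← Set.ncard_coe_finset]
    congr 1
    ext p
    rw [Finset.mem_coe, Finset.mem_filter, hmem]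
    rfl
  have key : ∀ U : Finset V, S.card = 2 ^ U.card * (S.filter fun p => ∀ v ∈ U, Rep (p v)).card := by
    intro U
    induction U using Finset.induction_on with
    | empty => simp
    | insert v U hv ih =>
      have e1 : (S.filter fun p => ∀ u ∈ U, Rep (p u)).card =
          2 * (S.filter fun p => ∀ u ∈ insert v U, Rep (p u)).card := by
        rw [← Finset.card_filter_add_card_filter_not
          (s := S.filter fun p => ∀ u ∈ U, Rep (p u)) (fun p => Rep (p v))]
        have e2 : (S.filter fun p => ∀ u ∈ U, Rep (p u)).filter (fun p => Rep (p v)) =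
            S.filter fun p => ∀ u ∈ insert v U, Rep (p u) := by
          ext p
          simp only [Finset.mem_filter, Finset.mem_insert, forall_eq_or_imp]
          tauto
        have e3 : ((S.filter fun p => ∀ u ∈ U, Rep (p u)).filter fun p => ¬ Rep (p v)).card =
            ((S.filter fun p => ∀ u ∈ U, Rep (p u)).filter fun p => Rep (p v)).card := by
          apply Finset.card_bij (fun p _ => ngv v p)
          · intro p hp
            rw [Finset.mem_filter, Finset.mem_filter, hmem] at hp ⊢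
            refine ⟨⟨h1 v p hp.1.1, fun u hu => ?_⟩, ?_⟩
            · have huv : u ≠ v := fun h => hv (h ▸ hu)
              rw [ngv_of_ne huv]
              exact hp.1.2 u hu
            · rw [ngv_self]
              rcases rep_or (hprm p hp.1.1 v) with ⟨a1, a2⟩ | ⟨a1, a2⟩
              · exact absurd a1 hp.2
              · exact a2
          · intro p _ q _ h
            rw [← ngv_ngv v p, h, ngv_ngv]
          · intro p hp
            rw [Finset.mem_filter, Finset.mem_filter, hmem] at hp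
            refine ⟨ngv v p, ?_, ngv_ngv v p⟩
            rw [Finset.mem_filter, Finset.mem_filter, hmem]
            refine ⟨⟨h1 v p hp.1.1, fun u hu => ?_⟩, ?_⟩
            · have huv : u ≠ v := fun h => hv (h ▸ hu)
              rw [ngv_of_ne huv]
              exact hp.1.2 u hu
            · rw [ngv_self]
              rcases rep_or (hprm p hp.1.1 v) with ⟨a1, a2⟩ | ⟨a1, a2⟩
              · exact a2
              · exact absurd hp.2 a1
        rw [e3, e2]
        ring
      rw [ih, e1, Finset.card_insert_of_notMem hv, pow_succ]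
      ring
  have h2 := key Finset.univ
  simp only [Finset.mem_univ, true_imp_iff] at h2
  rw [hAc, hR, h2, Finset.card_univ]

/-- The points counted. -/
def RS (F : Sys n k) (G : V → Tup n ℤ → Prop) (φ : Tup n ℤ → ℝ) (h : Tup n ℝ → ℝ) (B : ℝ) :
    Set (Tup n ℤ) :=
  {x | (∀ v, Rep (x v)) ∧ Inc F x ∧ (∀ u, G u x) ∧ φ x * h (iT x) ≤ B}

theorem iT_ngv (v : V) (x : Tup n ℤ) : iT (ngv v x) = ngv v (iT x) := by
  unfold ngv
  rw [iT_update, ic_neg]
  rfl

theorem LM.ngv {h : Tup n ℝ → ℝ} (hh : LM F a h) (v : V) {x : Tup n ℝ} (hx : ∀ v, x v ≠ 0)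
    (hi : Inc F x) : h (ngv v x) = h x := by
  have h1 := hh.homog (update (1 : V → ℝ) v (-1)) x (by
    intro u
    by_cases hu : u = v
    · subst hu
      rw [update_self]
      norm_num
    · rw [update_of_ne hu]
      exact one_ne_zero) hx hi
  rw [ngv_eq, h1]
  have h2 : ∏ u, ‖update (1 : V → ℝ) v (-1) u‖ ^ a u = 1 := by
    apply Finset.prod_eq_one
    intro u _
    by_cases hu : u = v
    · subst hu
      rw [update_self]
      simp
    · rw [update_of_ne hu]
      simp
  rw [h2, one_mul]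

theorem AS_signs (hE : Eng F G a D) {φ : Tup n ℤ → ℝ} {h : Tup n ℝ → ℝ} (hh : LM F a h)
    (hs : ∀ v x, PS F x → φ (ngv v x) = φ x) (T : ℝ) :
    ∀ v p, p ∈ AS F G φ h T → ngv v p ∈ AS F G φ h T := by
  rintro v x ⟨h1, h2, h3⟩
  have hc : ∀ u, (update (1 : V → ℤ) v (-1)) u ≠ 0 := by
    intro u
    by_cases hu : u = v
    · subst hu
      rw [update_self]
      norm_num
    · rw [update_of_ne hu]
      exact one_ne_zero
  refine ⟨⟨fun u => ?_, ?_⟩, fun u => ?_, ?_⟩
  · by_cases hu : u = v
    · subst hu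
      rw [ngv_self]
      exact prm_neg.2 (h1.1 u)
    · rw [ngv_of_ne hu]
      exact h1.1 u
  · rw [ngv_eq]
    exact inc_smul h1.2 _
  · rw [ngv_eq]
    exact (hE.scal u x _ hc).2 (h2 u)
  · rw [hs v x h1, iT_ngv, hh.ngv v (x := iT x) (fun u => ic_ne (h1.1 u).ne) (inc_iT.2 h1.2)]
    exact h3

/-- **The asymptotic formula.** -/
theorem main_abs (hE : Eng F G a D) (hS : SimP) (o : V) {φ : Tup n ℤ → ℝ} (hφ : CA F φ)
    {h : Tup n ℝ → ℝ} (hh : LM F a h)
    (hup : ∃ C : ℝ, 0 < C ∧ ∀ x, PS F x → φ x ≤ C)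
    (hs : ∀ v x, PS F x → φ (ngv v x) = φ x) :
    ∃ c : ℝ, 0 < c ∧ Tendsto (fun B : ℝ => ((RS F G φ h B).ncard : ℝ) /
      (B * Real.log B ^ Fintype.card (Vo o))) atTop (𝓝 c) := by
  classical
  obtain ⟨c, hclim⟩ := total hE hS o hφ hh
  obtain ⟨c₁, hc1, hc⟩ := hφ.low
  obtain ⟨c₀, CF, hc0, hCF, hb⟩ := hz_bounds hh hE.pos
  have hcb : ∀ x, Inc F x → c₀ * Nm a (nrm x) ≤ hz h x := fun x hx => (hb x hx).1
  set d := Fintype.card (Vo o) with hd
  set N : ℝ := 2 ^ Fintype.card V with hN
  have hN0 : 0 < N := by positivity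
  have hfin : ∀ T : ℝ, 0 < T → (AS F G φ h T).Finite := fun T hT =>
    (FU F G a (1 / (c₁ * c₀) * T)).finite_toSet.subset
      (AS_sub hE hc1 hc0 hc hcb (by field_simp; exact le_rfl) hT)
  have hRA : ∀ B : ℝ, 0 < B → ((RS F G φ h B).ncard : ℝ) * N = ((AS F G φ h B).ncard : ℝ) := by
    intro B hB
    have hsg := AS_signs hE hh hs B
    have h1 := signs (hfin B hB) (fun p hp => hp.1.1) hsg
    have h2 : {p | p ∈ AS F G φ h B ∧ ∀ v, Rep (p v)} = RS F G φ h B := by
      ext p
      constructor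
      · rintro ⟨⟨h3, h4, h5⟩, h9⟩
        exact ⟨h9, h3.2, h4, h5⟩
      · rintro ⟨h9, h3, h4, h5⟩
        exact ⟨⟨⟨fun v => Rep.prm (h9 v), h3⟩, h4, h5⟩, h9⟩
    rw [h2] at h1
    rw [h1]
    push_cast
    ring
  have hlim : Tendsto (fun B : ℝ => ((RS F G φ h B).ncard : ℝ) / (B * Real.log B ^ d)) atTop
      (𝓝 (c / N)) := by
    have h2 := hclim.div_const N
    apply h2.congr'
    filter_upwards [eventually_gt_atTop 1] with B hB
    have hB0 : 0 < B := by linarith
    have hlogB : 0 < Real.log B := Real.log_pos hB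
    rw [← hRA B hB0]
    field_simp
  refine ⟨c / N, ?_, hlim⟩
  -- positivity
  obtain ⟨c₂, T₀, hc2, hlow⟩ := low_FP hE hS o
  obtain ⟨Cφ, hCφ, hφup⟩ := hup
  set C : ℝ := Cφ * CF with hC
  have hC0 : 0 < C := by positivity
  have hsub : ∀ B : ℝ, 0 < B → ((FP F G a (B / C) : Finset _) : Set (Tup n ℤ)) ⊆
      AS F G φ h B := by
    intro B hB p hp
    unfold FP at hp
    rw [Finset.mem_coe, Finset.mem_filter, mem_FU hE (by positivity)] at hp
    obtain ⟨⟨h1, h2, h4⟩, h5⟩ := hp
    have hPS : PS F p := ⟨h5, h1⟩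
    refine ⟨hPS, h2, ?_⟩
    have h7 := hφup p hPS
    have h8 := (hb (iT p) (inc_iT.2 h1)).2
    rw [hz_eq (x := iT p) fun v => ic_ne (h5 v).ne] at h8
    have h9 := hh.pos (iT p) (fun v => ic_ne (h5 v).ne) (inc_iT.2 h1)
    rw [le_div_iff₀ hC0] at h4
    have h8' : h (iT p) ≤ CF * HH a p := h8
    calc φ p * h (iT p) ≤ Cφ * h (iT p) := by gcongr
      _ ≤ Cφ * (CF * HH a p) := by gcongr
      _ = HH a p * C := by rw [hC]; ring
      _ ≤ B := h4
  have hge : c₂ / (2 ^ d * C) ≤ c := by
    apply ge_of_tendsto hclim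
    filter_upwards [eventually_ge_atTop (max (max (C * T₀) (C ^ 2)) 2)] with B hB
    have hB1 : C * T₀ ≤ B := (le_max_left _ _).trans ((le_max_left _ _).trans hB)
    have hB2 : C ^ 2 ≤ B := (le_max_right _ _).trans ((le_max_left _ _).trans hB)
    have hB3 : 2 ≤ B := (le_max_right _ _).trans hB
    have hB0 : 0 < B := by linarith
    have hlogB : 0 < Real.log B := Real.log_pos (by linarith)
    have h1 := hlow (B / C) (by rw [le_div_iff₀ hC0]; linarith)
    have h2 : ((FP F G a (B / C)).card : ℝ) ≤ ((AS F G φ h B).ncard : ℝ) := by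
      rw [← Set.ncard_coe_finset]
      exact_mod_cast Set.ncard_le_ncard (hsub B hB0) (hfin B hB0)
    have h3 : Real.log B / 2 ≤ Real.log (B / C) := by
      rw [Real.log_div hB0.ne' hC0.ne']
      have h4 := Real.log_le_log (by positivity) hB2
      rw [Real.log_pow] at h4
      push_cast at h4
      linarith
    rw [pow_one, div_le_div_iff₀ (by positivity) (by positivity)]
    have h5 : c₂ * ((B / C) * (Real.log B / 2) ^ d) ≤ ((AS F G φ h B).ncard : ℝ) := by
      refine le_trans ?_ (h1.trans h2)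
      gcongr
    calc c₂ * (B * Real.log B ^ d) = c₂ * ((B / C) * (Real.log B / 2) ^ d) * (2 ^ d * C) := by
          rw [div_pow]
          field_simp
      _ ≤ ((AS F G φ h B).ncard : ℝ) * (2 ^ d * C) := by gcongr
  have : 0 < c := lt_of_lt_of_le (by positivity) hge
  positivity

end Pool.Agent.N852.MM
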