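import Mathlib
import Pool.Agent.N852.MM.MainR
import Pool.Agent.N852.DD.PadicR

/-!
Systems of multilinear equations: local metrics at finite places are approximated by functions of
residue classes.
-/

namespace Pool.Agent.N852.MM

set_option linter.unusedSectionVars false

open Matrix Module Filter Topology Function
open Pool.Agent.N852 (ic Cg Prm pc pc_norm pc_sub qc nr nr_spec nr_rep nr_inj nr_surj mulHeight_nr)
open Pool.Agent.N852.DD (li_smul)
open Pool.Agent.H548.WM (Rep)

variable {V : Type} [DecidableEq V] [Fintype V] {n : V → ℕ} {k : ℕ}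
  {F : Sys n k} {G : V → Tup n ℤ → Prop} {a : V → ℕ} {D : ℕ}

theorem CA_one (F : Sys n k) : CA F fun _ => 1 := by
  refine ⟨⟨1, one_pos, fun _ _ => le_rfl⟩, fun ε hε => ⟨1, one_ne_zero, ?_⟩⟩
  intro x x' _ _ _
  linarith

theorem CA_mul {φ ψ : Tup n ℤ → ℝ} (hφ : CA F φ) (hψ : CA F ψ) : CA F fun x => φ x * ψ x := by
  obtain ⟨m₁, hm1, h1⟩ := hφ.low
  obtain ⟨m₂, hm2, h2⟩ := hψ.low
  refine ⟨⟨m₁ * m₂, by positivity, fun x hx => ?_⟩, fun ε hε => ?_⟩
  · have h3 := h1 x hx
    have h4 := h2 x hx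
    exact mul_le_mul h3 h4 hm2.le (by linarith)
  · obtain ⟨ε₁, hε₁⟩ : ∃ ε₁ : ℝ, ε₁ = min 1 (ε / 3) := ⟨_, rfl⟩
    have he0 : 0 < ε₁ := by rw [hε₁]; positivity
    have he1 : ε₁ ≤ 1 := by rw [hε₁]; exact min_le_left _ _
    have he2 : 3 * ε₁ ≤ ε := by
      have : ε₁ ≤ ε / 3 := by rw [hε₁]; exact min_le_right _ _
      linarith
    obtain ⟨q₁, hq1, h3⟩ := hφ.apx ε₁ he0
    obtain ⟨q₂, hq2, h4⟩ := hψ.apx ε₁ he0
    refine ⟨q₁ * q₂, mul_ne_zero hq1 hq2, ?_⟩
    intro x x' hx hx' hxx
    have h5 := h3 x x' hx hx' (hxx.dvd (Dvd.intro _ rfl))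
    have h6 := h4 x x' hx hx' (hxx.dvd (Dvd.intro_left _ rfl))
    have h7 := h1 x hx
    have h8 := h2 x hx
    have h9 := h1 x' hx'
    have h10 := h2 x' hx'
    have h11 : 0 < φ x' * ψ x' := mul_pos (by linarith) (by linarith)
    calc φ x * ψ x ≤ ((1 + ε₁) * φ x') * ((1 + ε₁) * ψ x') :=
          mul_le_mul h5 h6 (by linarith) (by nlinarith)
      _ = (1 + ε₁) ^ 2 * (φ x' * ψ x') := by ring
      _ ≤ (1 + ε) * (φ x' * ψ x') := by
        apply mul_le_mul_of_nonneg_right _ h11.le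
        nlinarith

theorem CA_prod {ι : Type*} (S : Finset ι) (φ : ι → Tup n ℤ → ℝ)
    (h : ∀ i ∈ S, CA F (φ i)) : CA F fun x => ∏ i ∈ S, φ i x := by
  classical
  induction S using Finset.induction_on with
  | empty => simpa using CA_one F
  | insert i S hi ih =>
    have h1 := CA_mul (h i (Finset.mem_insert_self i S))
      (ih fun j hj => h j (Finset.mem_insert_of_mem hj))
    have h2 : (fun x => ∏ j ∈ insert i S, φ j x) = fun x => φ i x * ∏ j ∈ S, φ j x := by
      funext x
      rw [Finset.prod_insert hi]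
    rw [h2]
    exact h1

theorem inc_map_iff {K : Type*} [Field K] [CharZero K] {x : Tup n ℤ} :
    Inc F (fun v l => ((x v l : ℤ) : K)) ↔ Inc F x := by
  unfold Inc
  refine forall_congr' fun i => ?_
  have h := ev_map (F := F) (Int.castRingHom K) i x
  have h' : ev F i (fun v l => ((x v l : ℤ) : K)) = ((ev F i x : ℤ) : K) := h
  rw [h']
  exact_mod_cast Iff.rfl

variable {p : ℕ} [hp : Fact p.Prime]

/-- The `p`-adic family. -/
noncomputable def pT (p : ℕ) [Fact p.Prime] (x : Tup n ℤ) : Tup n ℚ_[p] := fun v => pc p (x v)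

theorem pT_inc {x : Tup n ℤ} (h : Inc F x) : Inc F (pT p x) := inc_map_iff.2 h

theorem pT_mem {x : Tup n ℤ} (hx : PS F x) : pT p x ∈ UU ℚ_[p] F :=
  ⟨fun v => pc_norm (hx.1 v), pT_inc hx.2⟩

/-- **Local metrics at finite places.** -/
theorem CA_padic {h : Tup n ℚ_[p] → ℝ} (hh : LM F a h) : CA F fun x => h (pT p x) := by
  obtain ⟨c, C, hc, hC, hb⟩ := hh.bounds
  refine ⟨⟨c, hc, fun x hx => (hb _ (pT_mem hx)).1⟩, fun ε hε => ?_⟩
  have h1 := hh.cont.mono (UU_sub F)
  have hposU : ∀ q ∈ UU ℚ_[p] F, 0 < h q := fun q hq => lt_of_lt_of_le hc (hb q hq).1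
  have h2 : ContinuousOn (fun q : Tup n ℚ_[p] => Real.log (h q)) (UU ℚ_[p] F) :=
    h1.log fun q hq => (hposU q hq).ne'
  have h3 := (UU_compact (K := ℚ_[p]) F).uniformContinuousOn_of_continuous h2
  rw [Metric.uniformContinuousOn_iff] at h3
  obtain ⟨δ, hδ, h4⟩ := h3 (Real.log (1 + ε)) (Real.log_pos (by linarith))
  have hp1 : (1 : ℝ) < p := by exact_mod_cast hp.out.one_lt
  obtain ⟨e, he⟩ := exists_pow_lt_of_lt_one hδ (inv_lt_one_of_one_lt₀ hp1)
  have he' : (p : ℝ) ^ (-e : ℤ) < δ := by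
    rw [_root_.zpow_neg, zpow_natCast, ← inv_pow]
    exact he
  refine ⟨p ^ e, pow_ne_zero _ hp.out.ne_zero, ?_⟩
  intro x x' hx hx' hxx
  have hU := pT_mem (p := p) hx
  have hU' := pT_mem (p := p) hx'
  have h5 := h4 _ hU _ hU' (by
    rw [dist_pi_lt_iff hδ]
    intro v
    rw [dist_eq_norm]
    exact lt_of_le_of_lt (pc_sub (hxx v)) he')
  rw [Real.dist_eq] at h5
  have h6 := (abs_lt.1 h5).2
  have h7 := hposU _ hU
  have h8 := hposU _ hU'
  have h9 : Real.log (h (pT p x)) < Real.log ((1 + ε) * h (pT p x')) := by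
    rw [Real.log_mul (by linarith) h8.ne']
    linarith
  exact ((Real.log_lt_log_iff h7 (by positivity)).1 h9).le

/-! ### The bad loci over the rational numbers -/

/-- The rational family. -/
def qT (x : Tup n ℤ) : Tup n ℚ := fun v => qc (x v)

theorem GI_iff (v : V) (x : Tup n ℤ) : GI F v x ↔ LinearIndependent ℚ (der F v (qT x)) := by
  unfold GI
  have h2 : LinearIndependent ℝ (der F v (iT x)) ↔ LinearIndependent ℤ (der F v x) := by
    rw [← linearIndependent_algebraMap_comp_iff (R := ℤ) (S := ℝ)]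
    have : der F v (iT x) = fun i => algebraMap ℤ ℝ ∘ der F v x i := by
      funext i
      exact dd_iT i.1 v x
    rw [this]
  have h3 : LinearIndependent ℚ (der F v (qT x)) ↔ LinearIndependent ℤ (der F v x) := by
    rw [← linearIndependent_algebraMap_comp_iff (R := ℤ) (S := ℚ)]
    have : der F v (qT x) = fun i => algebraMap ℤ ℚ ∘ der F v x i := by
      funext i
      exact dd_map (Int.castRingHom ℚ) i.1 v x
    rw [this]
  rw [h2, h3]

/-- Linear independence does not change under nonzero factors. -/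
theorem li_units {ι W K : Type*} [Field K] [AddCommGroup W] [Module K W] {w : ι → W}
    {c : ι → K} (hc : ∀ i, c i ≠ 0) :
    LinearIndependent K (fun i => c i • w i) ↔ LinearIndependent K w := by
  constructor
  · intro h
    have h1 := h.units_smul fun i => (Units.mk0 (c i) (hc i))⁻¹
    have h2 : ((fun i => (Units.mk0 (c i) (hc i))⁻¹) • fun i => c i • w i) = w := by
      funext i
      simp only [Pi.smul_apply', Units.smul_def, Units.val_inv_eq_inv_val, Units.val_mk0, smul_smul]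
      rw [inv_mul_cancel₀ (hc i), one_smul]
    rwa [h2] at h1
  · intro h
    exact h.units_smul fun i => Units.mk0 (c i) (hc i)

theorem der_smul_li {K : Type*} [Field K] (v : V) (x : Tup n K) {c : V → K} (hc : ∀ u, c u ≠ 0) :
    LinearIndependent K (der F v fun u => c u • x u) ↔ LinearIndependent K (der F v x) := by
  have h : der F v (fun u => c u • x u) =
      fun i => (∏ u ∈ (F.e i.1).erase v, c u) • der F v x i := by
    funext i
    exact dd_smul i.1 i.2 c x
  rw [h]
  exact li_units fun i => Finset.prod_ne_zero_iff.2 fun u _ => hc u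

theorem GI_smul (v : V) (x : Tup n ℤ) (c : V → ℤ) (hc : ∀ u, c u ≠ 0) :
    GI F v (fun u => c u • x u) ↔ GI F v x := by
  unfold GI
  have h : iT (fun u => c u • x u) = fun u => (c u : ℝ) • iT x u := by
    funext u
    unfold iT
    rw [Pool.Agent.N852.DD.ic_smul]
  rw [h]
  exact der_smul_li v (iT x) fun u => by exact_mod_cast hc u

theorem GI_update (v : V) (x : Tup n ℤ) (z : Fin (n v) → ℤ) :
    GI F v (update x v z) ↔ GI F v x := by
  unfold GI
  rw [iT_update, der_update]

/-- The partial derivatives vanish if one of the other vectors vanishes. -/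
theorem dd_zero {K : Type*} [CommRing K] {i : Fin k} {v u : V} (hu : u ∈ F.e i) (huv : u ≠ v)
    {x : Tup n K} (hx : x u = 0) : dd F i v x = 0 := by
  funext l
  unfold dd
  have h1 : update (update x v (Pi.single l 1)) u 0 = update x v (Pi.single l 1) := by
    funext t
    by_cases ht : t = u
    · subst ht
      rw [update_self, update_of_ne huv, hx]
    · rw [update_of_ne ht]
  rw [← h1, ev_update hu]
  simp

theorem GI_ne (h2 : ∀ i, 2 ≤ (F.e i).card) (h1 : ∀ v, ∃ i, v ∈ F.e i) (x : Tup n ℤ)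
    (hx : ∀ u, GI F u x) (v : V) : x v ≠ 0 := by
  intro h0
  obtain ⟨i, hi⟩ := h1 v
  obtain ⟨u, hu, huv⟩ := Finset.exists_mem_ne (by have := h2 i; omega : 1 < (F.e i).card) v
  have h3 := (hx u).ne_zero ⟨i, hu⟩
  apply h3
  apply dd_zero hi (Ne.symm huv)
  unfold iT
  rw [h0]
  exact ic_zero

end Pool.Agent.N852.MM
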