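import Mathlib
import Pool.Agent.N852.MM.PadicR
import Pool.Agent.N852.Adel

/-!
Systems of multilinear equations: the asymptotic formula for the rational points and all adelic
heights.
-/

namespace Pool.Agent.N852.MM

set_option linter.unusedSectionVars false

open Matrix Module Filter Topology Function
open Pool.Agent.N852 (ic ic_neg norm_ic Cg Prm pc pc_norm pc_sub qc qc_ne nr nr_spec nr_rep nr_inj
  nr_surj mulHeight_nr emb emb_smul_qc pc_neg Rep.prm)
open Pool.Agent.H548.WM (Rep ht)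

variable {V : Type} [DecidableEq V] [Fintype V] {n : V → ℕ} {k : ℕ}
  {F : Sys n k} {G : V → Tup n ℤ → Prop} {a : V → ℕ} {D : ℕ}

/-- Positive continuous functions on `X(K)`. -/
structure LF {K : Type*} [NormedField K] (F : Sys n k) (φ : Tup n K → ℝ) : Prop where
  continuous : ContinuousOn φ {x | (∀ v, x v ≠ 0) ∧ Inc F x}
  positive : ∀ x, (∀ v, x v ≠ 0) → Inc F x → 0 < φ x
  invariant : ∀ x, (∀ v, x v ≠ 0) → Inc F x → ∀ c : V → K, (∀ v, c v ≠ 0) →
    φ (fun v => c v • x v) = φ x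

theorem LF.lm {K : Type*} [NormedField K] {φ : Tup n K → ℝ} (h : LF F φ) (a : V → ℕ) :
    LM F a fun x => (∏ v, ‖x v‖ ^ a v) * φ x := by
  refine ⟨fun x hx hi => ?_, ?_, ?_⟩
  · have h1 : 0 < ∏ v, ‖x v‖ ^ a v := Finset.prod_pos fun v _ => pow_pos (norm_pos_iff.2 (hx v)) _
    exact mul_pos h1 (h.positive x hx hi)
  · refine ContinuousOn.mul ?_ h.continuous
    exact (continuous_finsetProd _ fun v _ => (continuous_apply v).norm.pow _).continuousOn
  · intro c x hc hx hi
    rw [h.invariant x hx hi c hc, ← mul_assoc, ← Finset.prod_mul_distrib]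
    congr 1
    refine Finset.prod_congr rfl fun v _ => ?_
    rw [norm_smul, mul_pow]

/-- The points with coordinates in an extension. -/
def eT (K : Type*) [Field K] (x : Tup n ℚ) : Tup n K := fun v => emb K (x v)

/-- The representatives of a point. -/
noncomputable def rp (P : ∀ v, Projectivization ℚ (Fin (n v) → ℚ)) : Tup n ℚ := fun v => (P v).rep

/-- **The asymptotic formula for all adelic heights.** -/
theorem main_adel (hE : Eng F G a D) (hS : SimP) (o : V) (GQ : V → Tup n ℚ → Prop)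
    (hG : ∀ v (x : Tup n ℤ) (c : V → ℚ), (∀ u, c u ≠ 0) →
      (GQ v (fun u => c u • qc (x u)) ↔ G v x))
    (S : Finset Nat.Primes) (φ₀ : Tup n ℝ → ℝ) (h₀ : LF F φ₀)
    (φ : ∀ p : Nat.Primes, Tup n ℚ_[p] → ℝ) (hφ : ∀ p ∈ S, LF F (φ p)) :
    ∃ c : ℝ, 0 < c ∧ Tendsto (fun B : ℝ =>
      (({P : ∀ v, Projectivization ℚ (Fin (n v) → ℚ) |
        Inc F (rp P) ∧ (∀ v, GQ v (rp P)) ∧
          (∏ v, (P v).mulHeight ^ a v) * (φ₀ (eT ℝ (rp P)) * ∏ p ∈ S, φ p (eT ℚ_[p] (rp P))) ≤ B} :
        Set (∀ v, Projectivization ℚ (Fin (n v) → ℚ))).ncard : ℝ) /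
        (B * Real.log B ^ Fintype.card (Vo o))) atTop (𝓝 c) := by
  have : ∀ v, NeZero (n v) := fun v => ⟨by
    have := hE.adef v
    have := hE.two v
    omega⟩
  -- the finite part
  set Φ : Tup n ℤ → ℝ := fun x => ∏ p ∈ S, ((∏ v, ‖pT p x v‖ ^ a v) * φ p (pT p x)) with hΦ
  have hCA : CA F Φ := CA_prod S _ fun p hp => CA_padic ((hφ p hp).lm a)
  have hup : ∃ C : ℝ, 0 < C ∧ ∀ x, PS F x → Φ x ≤ C := by
    have hex : ∀ p : Nat.Primes, ∃ C : ℝ, 0 < C ∧ (p ∈ S → ∀ x : Tup n ℤ, PS F x →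
        0 < (∏ v, ‖pT p x v‖ ^ a v) * φ p (pT p x) ∧
        (∏ v, ‖pT p x v‖ ^ a v) * φ p (pT p x) ≤ C) := by
      intro p
      by_cases hp : p ∈ S
      · obtain ⟨c, C, hc, hC, hb⟩ := ((hφ p hp).lm a).bounds
        refine ⟨C, hC, fun _ x hx => ?_⟩
        have h1 := hb _ (pT_mem (p := p) hx)
        exact ⟨lt_of_lt_of_le hc h1.1, h1.2⟩
      · exact ⟨1, one_pos, fun h => absurd h hp⟩
    choose C hC hCb using hex
    refine ⟨∏ p ∈ S, C p, Finset.prod_pos fun p _ => hC p, ?_⟩
    intro x hx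
    exact Finset.prod_le_prod (fun p hp => (hCb p hp x hx).1.le) fun p hp => (hCb p hp x hx).2
  have hne : ∀ (p : ℕ) [Fact p.Prime] {N : ℕ} {x : Fin N → ℤ}, Prm x → pc p x ≠ 0 := by
    intro p _ N x hx h0
    have h1 := pc_norm (p := p) hx
    rw [h0, norm_zero] at h1
    exact zero_ne_one h1
  have hs : ∀ v x, PS F x → Φ (ngv v x) = Φ x := by
    intro v x hx
    simp only [hΦ]
    refine Finset.prod_congr rfl fun p hp => ?_
    have e1 : pT p (ngv v x) = fun u => (update (1 : V → ℚ_[p]) v (-1)) u • pT p x u := by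
      funext u
      unfold pT
      by_cases hu : u = v
      · subst hu
        rw [ngv_self, update_self, pc_neg, neg_one_smul]
      · rw [ngv_of_ne hu, update_of_ne hu, Pi.one_apply, one_smul]
    have e2 : ∀ u, ‖pT p (ngv v x) u‖ = ‖pT p x u‖ := by
      intro u
      unfold pT
      by_cases hu : u = v
      · subst hu
        rw [ngv_self, pc_neg, norm_neg]
      · rw [ngv_of_ne hu]
    simp only [e2]
    congr 1
    rw [e1]
    refine (hφ p hp).invariant _ (fun u => hne p (hx.1 u)) (pT_inc hx.2) _ fun u => ?_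
    by_cases hu : u = v
    · subst hu
      rw [update_self]
      norm_num
    · rw [update_of_ne hu]
      exact one_ne_zero
  obtain ⟨c, hc, hlim⟩ := main_abs hE hS o hCA (h₀.lm a) hup hs
  refine ⟨c, hc, ?_⟩
  refine hlim.congr fun B => ?_
  congr 1
  norm_cast
  symm
  -- the bijection
  have hkey : ∀ P : ∀ v, Projectivization ℚ (Fin (n v) → ℚ),
      (Inc F (rp P) ∧ (∀ v, GQ v (rp P)) ∧
          (∏ v, (P v).mulHeight ^ a v) *
            (φ₀ (eT ℝ (rp P)) * ∏ p ∈ S, φ p (eT ℚ_[p] (rp P))) ≤ B) ↔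
      (fun v => nr (P v)) ∈ RS F G Φ (fun x => (∏ v, ‖x v‖ ^ a v) * φ₀ x) B := by
    intro P
    have hex : ∀ v, ∃ c : ℚ, c ≠ 0 ∧ (P v).rep = c • qc (nr (P v)) := fun v => nr_spec (P v)
    choose c hc hPc using hex
    set z : Tup n ℤ := fun v => nr (P v) with hz'
    have hrp : rp P = fun v => c v • qc (z v) := funext hPc
    have hR : ∀ v, Rep (z v) := fun v => nr_rep (P v)
    have hPr : ∀ v, Prm (z v) := fun v => Rep.prm (hR v)
    have hinc : Inc F (rp P) ↔ Inc F z := by
      rw [hrp]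
      have h1 := inc_smul_iff (F := F) (x := fun v => qc (z v)) hc
      rw [h1]
      exact inc_map_iff (K := ℚ)
    have hj : ∀ v, GQ v (rp P) ↔ G v z := by
      intro v
      rw [hrp]
      exact hG v z c hc
    have hval : Inc F z → (∏ v, (P v).mulHeight ^ a v) *
          (φ₀ (eT ℝ (rp P)) * ∏ p ∈ S, φ p (eT ℚ_[p] (rp P))) =
          Φ z * ((∏ v, ‖iT z v‖ ^ a v) * φ₀ (iT z)) := by
      intro hi
      have h1 : φ₀ (eT ℝ (rp P)) = φ₀ (iT z) := by
        have e1 : eT ℝ (rp P) = fun v => (c v : ℝ) • iT z v := by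
          funext v
          unfold eT
          rw [hrp, emb_smul_qc]
          rfl
        rw [e1]
        exact h₀.invariant _ (fun v => ic_ne (hPr v).ne) (inc_iT.2 hi) _
          fun v => by exact_mod_cast hc v
      have h2 : ∏ p ∈ S, φ p (eT ℚ_[p] (rp P)) = Φ z := by
        simp only [hΦ]
        refine Finset.prod_congr rfl fun p hp => ?_
        have e1 : eT ℚ_[p] (rp P) = fun v => (c v : ℚ_[p]) • pT p z v := by
          funext v
          unfold eT
          rw [hrp, emb_smul_qc]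
          rfl
        have e2 : ∏ v, ‖pT p z v‖ ^ a v = 1 := by
          apply Finset.prod_eq_one
          intro v _
          unfold pT
          rw [pc_norm (hPr v), one_pow]
        rw [e1, e2, one_mul]
        exact (hφ p hp).invariant _ (fun v => hne p (hPr v)) (pT_inc hi) _
          fun v => by exact_mod_cast hc v
      have h3 : ∏ v, (P v).mulHeight ^ a v = ∏ v, ‖iT z v‖ ^ a v := by
        refine Finset.prod_congr rfl fun v _ => ?_
        rw [mulHeight_nr, ← norm_ic]
        rfl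
      rw [h1, h2, h3]
      ring
    constructor
    · rintro ⟨h1, h3, h2⟩
      rw [hinc] at h1
      rw [hval h1] at h2
      exact ⟨hR, h1, fun v => (hj v).1 (h3 v), h2⟩
    · rintro ⟨_, h1, h3, h2⟩
      refine ⟨hinc.2 h1, fun v => (hj v).2 (h3 v), ?_⟩
      rw [hval h1]
      exact h2
  apply Set.ncard_congr (fun P _ => (fun v => nr (P v) : Tup n ℤ))
  · intro P hP
    exact (hkey P).1 hP
  · intro P Q _ _ h
    funext v
    exact nr_inj (congrFun h v)
  · intro x hx
    have hex : ∀ v, ∃ P : Projectivization ℚ (Fin (n v) → ℚ), nr P = x v :=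
      fun v => nr_surj (hx.1 v)
    choose P hP using hex
    have hPx : (fun v => nr (P v)) = x := funext hP
    exact ⟨P, (hkey P).2 (by rw [hPx]; exact hx), hPx⟩

end Pool.Agent.N852.MM
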