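import Mathlib
import Pool.Agent.N852.MM.AdelR
import Pool.Agent.N427.MM.CellP
import Pool.Agent.N232.MM.CntP
import Pool.Agent.N49.MM.CptP
import Pool.Agent.N717.MM.Sim
import Pool.Agent.N478.MM.Deg
import Pool.Agent.N868.MM.LowD

/-!
Systems of multilinear equations: the engine for the system of all families with linearly
independent partial derivatives.
-/

namespace Pool.Agent.N852.MM

set_option linter.unusedSectionVars false

open Matrix Module Filter Topology Function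
open Pool.Agent.N852 (ic qc)

variable {V : Type} [DecidableEq V] [Fintype V] {n : V → ℕ} {k : ℕ}
  {F : Sys n k} {a : V → ℕ} {D : ℕ}

theorem dg_le (F : Sys n k) (v : V) : dg F v ≤ k := by
  unfold dg
  have := Fintype.card_subtype_le (fun i : Fin k => v ∈ F.e i)
  simpa using this

theorem engI (h2 : ∀ i, 2 ≤ (F.e i).card) (hv : ∀ v, ∃ i, v ∈ F.e i)
    (ha : ∀ v, a v + dg F v = n v) (hD : D = ∑ i, (F.e i).card) (hRC : RC F D) :
    Eng F (GI F) a D where
  adef := ha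
  two := by
    intro v
    have h1 := Pool.Agent.N868.MM.n_gt h2 hv ha hRC v
    have h3 : ∑ i : Fin k, 2 ≤ ∑ i, (F.e i).card := Finset.sum_le_sum fun i _ => h2 i
    simp at h3
    have h4 := ha v
    have h5 := dg_le F v
    have h6 : 0 < dg F v := by
      obtain ⟨i, hi⟩ := hv v
      exact Fintype.card_pos_iff.2 ⟨⟨i, hi⟩⟩
    omega
  upd := GI_update
  scal := GI_smul
  ne := fun x hx v => GI_ne h2 hv x hx v
  ind := fun v x h => h
  deg := Pool.Agent.N478.MM.degP Pool.Agent.N427.MM.cellP Pool.Agent.N232.MM.cntP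
    Pool.Agent.N49.MM.cptP V n k F a D h2 hv ha hD hRC
  low := Pool.Agent.N868.MM.lowP Pool.Agent.N427.MM.cellP Pool.Agent.N232.MM.cntP
    Pool.Agent.N49.MM.cptP V n k F a D h2 hv ha hD hRC

theorem GQ_iff (v : V) (x : Tup n ℤ) (c : V → ℚ) (hc : ∀ u, c u ≠ 0) :
    LinearIndependent ℚ (der F v fun u => c u • qc (x u)) ↔ GI F v x := by
  rw [GI_iff]
  exact der_smul_li v (qT x) hc

/-- **The asymptotic formula for systems of multilinear equations.** -/
theorem main_RC (h2 : ∀ i, 2 ≤ (F.e i).card) (hv : ∀ v, ∃ i, v ∈ F.e i)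
    (ha : ∀ v, a v + dg F v = n v) (hD : D = ∑ i, (F.e i).card) (hRC : RC F D) (o : V)
    (S : Finset Nat.Primes) (φ₀ : Tup n ℝ → ℝ) (h₀ : LF F φ₀)
    (φ : ∀ p : Nat.Primes, Tup n ℚ_[p] → ℝ) (hφ : ∀ p ∈ S, LF F (φ p)) :
    ∃ c : ℝ, 0 < c ∧ Tendsto (fun B : ℝ =>
      (({P : ∀ v, Projectivization ℚ (Fin (n v) → ℚ) |
        Inc F (rp P) ∧ (∀ v, LinearIndependent ℚ (der F v (rp P))) ∧
          (∏ v, (P v).mulHeight ^ a v) * (φ₀ (eT ℝ (rp P)) * ∏ p ∈ S, φ p (eT ℚ_[p] (rp P))) ≤ B} :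
        Set (∀ v, Projectivization ℚ (Fin (n v) → ℚ))).ncard : ℝ) /
        (B * Real.log B ^ Fintype.card (Vo o))) atTop (𝓝 c) :=
  main_adel (engI h2 hv ha hD hRC) Pool.Agent.N717.MM.simP o
    (fun v x => LinearIndependent ℚ (der F v x)) GQ_iff S φ₀ h₀ φ hφ

end Pool.Agent.N852.MM
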